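import Pool.Agent.H27.Units

set_option autoImplicit false

namespace Pool.Agent.H27

namespace Cub

/-- `η = θ^2+1 = -1/θ`. -/
def eta : Cub ℤ := ⟨1, 0, 1⟩
/-- `m = 3θ^2+4`, a prime of norm `31`. -/
def mm : Cub ℤ := ⟨4, 0, 3⟩
/-- `D = η m`. -/
def DD : Cub ℤ := ⟨4, -3, 4⟩

lemma eta_mul_mm : eta * mm = DD := by decide
lemma th_mul_eta : (th : Cub ℤ) * eta = -1 := by decide
lemma eta_eq : eta = (th : Cub ℤ) ^ 2 + 1 := by decide
lemma mm_eq : mm = 3 * (th : Cub ℤ) ^ 2 + 4 := by decide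
lemma DD_eq : DD = 4 * (th : Cub ℤ) ^ 2 - 3 * th + 4 := by decide

/-- `η` as a unit -/
def etaU : (Cub ℤ)ˣ where
  val := eta
  inv := ⟨0, -1, 0⟩
  val_inv := by decide
  inv_val := by decide

@[simp] lemma etaU_val : ((etaU : (Cub ℤ)ˣ) : Cub ℤ) = eta := rfl

lemma two_dvd_norm_iff (x : Cub ℤ) : (2 : ℤ) ∣ norm x ↔ (2 : Cub ℤ) ∣ x := by
  constructor
  · exact two_dvd_of_norm
  · rintro ⟨y, rfl⟩
    rw [norm_mul, norm_two]
    exact Dvd.dvd.mul_right (by norm_num) _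

lemma prime_two : Prime (2 : Cub ℤ) := by
  refine ⟨by decide, ?_, ?_⟩
  · intro h
    obtain ⟨u, hu⟩ := h
    have := norm_unit u
    rw [hu, norm_two] at this
    omega
  · intro x y h
    have h1 := (two_dvd_norm_iff _).2 h
    rw [norm_mul] at h1
    rcases Int.prime_two.dvd_or_dvd h1 with h | h
    · exact Or.inl (two_dvd_of_norm h)
    · exact Or.inr (two_dvd_of_norm h)

/-- reduction modulo `m` -/
def ev31 : Cub ℤ →+* ZMod 31 := ev (Int.castRingHom (ZMod 31)) 3 (by decide)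

lemma mm_dvd_iff (x : Cub ℤ) : mm ∣ x ↔ ev31 x = 0 := by
  constructor
  · rintro ⟨y, rfl⟩
    rw [map_mul]
    have : ev31 mm = 0 := by decide
    rw [this, zero_mul]
  · intro h
    have h1 : ((x.a + 3 * x.b + 9 * x.c : ℤ) : ZMod 31) = 0 := by
      have : ev31 x = (x.a : ZMod 31) + x.b * 3 + x.c * 3 ^ 2 := by simp [ev31, ev_apply]
      rw [this] at h
      push_cast
      linear_combination h
    obtain ⟨k, hk⟩ := (ZMod.intCast_zmod_eq_zero_iff_dvd _ 31).1 h1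
    refine ⟨adj mm * (k : Cub ℤ) + (x.b : Cub ℤ) * th
      + (x.c : Cub ℤ) * th * (th + 3), ?_⟩
    have ha : x.a = 31 * k - 3 * x.b - 9 * x.c := by push_cast at hk; linarith
    ext <;> simp [adj, mm, ha] <;> ring

lemma prime_mm : Prime mm := by
  refine ⟨by decide, ?_, ?_⟩
  · intro h
    obtain ⟨u, hu⟩ := h
    have := norm_unit u
    rw [hu] at this
    revert this
    decide
  · intro x y h
    rw [mm_dvd_iff, map_mul] at h
    have : Fact (Nat.Prime 31) := ⟨by norm_num⟩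
    rcases mul_eq_zero.1 h with h | h
    · exact Or.inl ((mm_dvd_iff x).2 h)
    · exact Or.inr ((mm_dvd_iff y).2 h)

/-! ### squares modulo 4 -/

/-- reduction mod 4 -/
def r4 : Cub ℤ →+* Cub (ZMod 4) := map (Int.castRingHom (ZMod 4))

/-- reduction mod 8 -/
def r8 : Cub ℤ →+* Cub (ZMod 8) := map (Int.castRingHom (ZMod 8))

lemma r4_eq_zero_iff (x : Cub ℤ) : r4 x = 0 ↔ (4 : Cub ℤ) ∣ x := by
  have := intCast_dvd_iff_map 4 x
  rw [r4, ← this]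
  norm_num

lemma r8_eq_zero_iff (x : Cub ℤ) : r8 x = 0 ↔ (8 : Cub ℤ) ∣ x := by
  have := intCast_dvd_iff_map 8 x
  rw [r8, ← this]
  norm_num

lemma pow14 : ∀ a b c : ZMod 4, (2 : Cub (ZMod 4)) * ⟨a, b, c⟩ = 0 ∨
    (⟨a, b, c⟩ : Cub (ZMod 4)) ^ 14 = 1 := by decide

lemma nonsq4 : ∀ a b c : ZMod 4,
    (⟨a, b, c⟩ : Cub (ZMod 4)) ^ 2 ≠ -1 ∧
    (⟨a, b, c⟩ : Cub (ZMod 4)) ^ 2 ≠ th ∧
    (⟨a, b, c⟩ : Cub (ZMod 4)) ^ 2 ≠ -th ∧
    (⟨a, b, c⟩ : Cub (ZMod 4)) ^ 2 ≠ r4 mm ∧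
    (⟨a, b, c⟩ : Cub (ZMod 4)) ^ 2 ≠ r4 (th * mm) ∧
    (⟨a, b, c⟩ : Cub (ZMod 4)) ^ 2 ≠ r4 (-(th * mm)) := by decide

/-- If `d x^2 ≡ y^2 (mod 4)` with `x` odd then `d` is a square mod 4. -/
lemma sq_mod4 {d x y : Cub ℤ} (hx : ¬ (2 : Cub ℤ) ∣ x) (h : (4 : Cub ℤ) ∣ d * x ^ 2 - y ^ 2) :
    ∃ z : Cub (ZMod 4), z ^ 2 = r4 d := by
  have h1 : r4 d * (r4 x) ^ 2 = (r4 y) ^ 2 := by
    have := (r4_eq_zero_iff _).2 h
    rw [map_sub, map_mul, map_pow, map_pow, sub_eq_zero] at this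
    exact this
  rcases pow14 (r4 x).a (r4 x).b (r4 x).c with h2 | h2
  · exfalso
    apply hx
    have h3 : r4 (2 * x) = 0 := by
      rw [map_mul]
      have : r4 (2 : Cub ℤ) = 2 := map_ofNat _ 2
      rw [this]; exact h2
    obtain ⟨k, hk⟩ := (r4_eq_zero_iff _).1 h3
    refine ⟨k, ?_⟩
    have : (2 : Cub ℤ) * x = 2 * (2 * k) := by rw [hk]; ring
    exact mul_left_cancel₀ (by decide) this
  · refine ⟨r4 y * (r4 x) ^ 6, ?_⟩
    have h3 : (r4 x) ^ 14 = 1 := h2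
    calc (r4 y * (r4 x) ^ 6) ^ 2 = (r4 y) ^ 2 * (r4 x) ^ 12 := by ring
      _ = r4 d * (r4 x) ^ 2 * (r4 x) ^ 12 := by rw [h1]
      _ = r4 d * (r4 x) ^ 14 := by ring
      _ = r4 d := by rw [h3, mul_one]

lemma unit_dvd_two {u : (Cub ℤ)ˣ} {x : Cub ℤ} : (2 : Cub ℤ) ∣ u * x ↔ (2 : Cub ℤ) ∣ x := by
  constructor
  · intro h
    have : x = ((u⁻¹ : (Cub ℤ)ˣ) : Cub ℤ) * (u * x) := by
      rw [← mul_assoc, Units.inv_mul, one_mul]
    rw [this]; exact Dvd.dvd.mul_left h _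
  · intro h; exact Dvd.dvd.mul_left h _

/-- the class of a unit which is a square mod 4 (against an odd element) -/
lemma unit_sq_mod4 (e : (Cub ℤ)ˣ) {x y : Cub ℤ} (hx : ¬ (2 : Cub ℤ) ∣ x)
    (h : (4 : Cub ℤ) ∣ e * x ^ 2 - y ^ 2) : ∃ r : (Cub ℤ)ˣ, e = r ^ 2 := by
  obtain ⟨r, hr | hr | hr | hr⟩ := unit_class e
  · exact ⟨r, hr⟩
  · exfalso
    have h2 : (4 : Cub ℤ) ∣ (-1) * ((r : Cub ℤ) * x) ^ 2 - y ^ 2 := by
      rw [hr] at h; push_cast at h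
      convert h using 1; ring
    obtain ⟨z, hz⟩ := sq_mod4 (by rwa [unit_dvd_two]) h2
    have := (nonsq4 z.a z.b z.c).1
    apply this
    change z ^ 2 = _
    rw [hz]; simp
  · exfalso
    have h2 : (4 : Cub ℤ) ∣ th * ((r : Cub ℤ) * x) ^ 2 - y ^ 2 := by
      rw [hr] at h; push_cast at h
      convert h using 1; simp; ring
    obtain ⟨z, hz⟩ := sq_mod4 (by rwa [unit_dvd_two]) h2
    have := (nonsq4 z.a z.b z.c).2.1
    apply this
    change z ^ 2 = _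
    rw [hz]; decide
  · exfalso
    have h2 : (4 : Cub ℤ) ∣ (-th) * ((r : Cub ℤ) * x) ^ 2 - y ^ 2 := by
      rw [hr] at h; push_cast at h
      convert h using 1; simp; ring
    obtain ⟨z, hz⟩ := sq_mod4 (by rwa [unit_dvd_two]) h2
    have := (nonsq4 z.a z.b z.c).2.2.1
    apply this
    change z ^ 2 = _
    rw [hz]; decide

/-- the class of a unit multiple of `m` which is a square mod 4 (against an odd element) -/
lemma unit_mm_sq_mod4 (e : (Cub ℤ)ˣ) {x y : Cub ℤ} (hx : ¬ (2 : Cub ℤ) ∣ x)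
    (h : (4 : Cub ℤ) ∣ e * mm * x ^ 2 - y ^ 2) : ∃ r : (Cub ℤ)ˣ, e = - r ^ 2 := by
  obtain ⟨r, hr | hr | hr | hr⟩ := unit_class e
  · exfalso
    have h2 : (4 : Cub ℤ) ∣ mm * ((r : Cub ℤ) * x) ^ 2 - y ^ 2 := by
      rw [hr] at h; push_cast at h
      convert h using 1; ring
    obtain ⟨z, hz⟩ := sq_mod4 (by rwa [unit_dvd_two]) h2
    exact (nonsq4 z.a z.b z.c).2.2.2.1 hz
  · exact ⟨r, hr⟩
  · exfalso
    have h2 : (4 : Cub ℤ) ∣ (th * mm) * ((r : Cub ℤ) * x) ^ 2 - y ^ 2 := by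
      rw [hr] at h; push_cast at h
      convert h using 1; simp; ring
    obtain ⟨z, hz⟩ := sq_mod4 (by rwa [unit_dvd_two]) h2
    exact (nonsq4 z.a z.b z.c).2.2.2.2.1 hz
  · exfalso
    have h2 : (4 : Cub ℤ) ∣ (-(th * mm)) * ((r : Cub ℤ) * x) ^ 2 - y ^ 2 := by
      rw [hr] at h; push_cast at h
      convert h using 1; simp; ring
    obtain ⟨z, hz⟩ := sq_mod4 (by rwa [unit_dvd_two]) h2
    exact (nonsq4 z.a z.b z.c).2.2.2.2.2 hz

/-! ### coprime factorisations -/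

lemma fac4 {a b c : Cub ℤ} (hc : c ≠ 0) (hab : IsCoprime a b) (h : a * b = c ^ 4) :
    ∃ (e : (Cub ℤ)ˣ) (M Z : Cub ℤ), M * Z = c ∧ a = e * M ^ 4 ∧
      b = ((e⁻¹ : (Cub ℤ)ˣ) : Cub ℤ) * Z ^ 4 := by
  obtain ⟨M, e, hM⟩ := exists_associated_pow_of_mul_eq_pow' hab h
  obtain ⟨Z, f, hZ⟩ := exists_associated_pow_of_mul_eq_pow' hab.symm (by rw [mul_comm]; exact h)
  -- `(M Z)^4` is associated to `c^4`
  have h1 : Associated ((M * Z) ^ 4) (c ^ 4) := ⟨e * f, by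
    rw [← h, ← hM, ← hZ]; push_cast; ring⟩
  have h2 : Associated (M * Z) c := by
    have d1 : (M * Z) ^ 4 ∣ c ^ 4 := h1.dvd
    have d2 : c ^ 4 ∣ (M * Z) ^ 4 := h1.symm.dvd
    exact associated_of_dvd_dvd ((IsIntegrallyClosed.pow_dvd_pow_iff (by norm_num)).1 d1)
      ((IsIntegrallyClosed.pow_dvd_pow_iff (by norm_num)).1 d2)
  obtain ⟨u, hu⟩ := h2
  refine ⟨e, M, Z * u, by rw [← hu]; ring, by rw [← hM]; ring, ?_⟩
  have hM0 : M ≠ 0 := by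
    rintro rfl; apply hc; rw [← hu]; ring
  have hZ0 : Z ≠ 0 := by
    rintro rfl; apply hc; rw [← hu]; ring
  have h3 : (e : Cub ℤ) * f = (u : Cub ℤ) ^ 4 := by
    have : (M * Z) ^ 4 * ((e : Cub ℤ) * f) = (M * Z) ^ 4 * (u : Cub ℤ) ^ 4 := by
      calc (M * Z) ^ 4 * ((e : Cub ℤ) * f) = (M ^ 4 * e) * (Z ^ 4 * f) := by ring
        _ = c ^ 4 := by rw [hM, hZ, h]
        _ = (M * Z) ^ 4 * (u : Cub ℤ) ^ 4 := by rw [← hu]; ring
    exact mul_left_cancel₀ (pow_ne_zero _ (mul_ne_zero hM0 hZ0)) this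
  have h4 : (f : Cub ℤ) = ((e⁻¹ : (Cub ℤ)ˣ) : Cub ℤ) * (u : Cub ℤ) ^ 4 := by
    rw [← h3, ← mul_assoc, Units.inv_mul, one_mul]
  rw [← hZ, h4]; ring

lemma facD {a b c : Cub ℤ} (hc : c ≠ 0) (hab : IsCoprime a b) (h : a * b = DD * c ^ 4) :
    ∃ (e : (Cub ℤ)ˣ) (M Z : Cub ℤ), M * Z = c ∧
      ((a = e * M ^ 4 ∧ b = ((e⁻¹ : (Cub ℤ)ˣ) : Cub ℤ) * DD * Z ^ 4) ∨
       (a = e * mm * M ^ 4 ∧ b = ((e⁻¹ : (Cub ℤ)ˣ) : Cub ℤ) * eta * Z ^ 4)) := by
  have hmm0 : mm ≠ 0 := prime_mm.ne_zero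
  have hdvd : mm ∣ a * b := by
    rw [h, ← eta_mul_mm]; exact ⟨eta * c ^ 4, by ring⟩
  have hth : (th : Cub ℤ) * eta = -1 := th_mul_eta
  rcases prime_mm.dvd_or_dvd hdvd with ⟨a', ha⟩ | ⟨b', hb⟩
  · -- m | a
    have h1 : (-(th * a')) * b = c ^ 4 := by
      have : mm * eta * ((-(th * a')) * b) = mm * eta * c ^ 4 := by
        calc mm * eta * ((-(th * a')) * b) = (- (th * eta)) * (mm * a' * b) := by ring
          _ = mm * eta * c ^ 4 := by rw [← ha, h, hth, ← eta_mul_mm]; ring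
      exact mul_left_cancel₀ (mul_ne_zero hmm0 etaU.ne_zero) this
    have hcop : IsCoprime (-(th * a')) b := by
      rw [IsCoprime.neg_left_iff]
      have : IsCoprime a' b := by
        rw [ha] at hab; exact hab.of_mul_left_right
      exact (isCoprime_mul_unit_left_left thU.isUnit a' b).2 this
    obtain ⟨e, M, Z, h2, h3, h4⟩ := fac4 hc hcop h1
    refine ⟨e * etaU, M, Z, h2, Or.inr ⟨?_, ?_⟩⟩
    · have : a' = eta * (e * M ^ 4) := by
        rw [← h3]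
        calc a' = (- (th * eta)) * a' := by rw [hth]; ring
          _ = _ := by ring
      rw [ha, this]; push_cast; simp; ring
    · rw [h4, mul_inv]; push_cast
      have : ((etaU⁻¹ : (Cub ℤ)ˣ) : Cub ℤ) * eta = 1 := by
        rw [← etaU_val, Units.inv_mul]
      calc ((e⁻¹ : (Cub ℤ)ˣ) : Cub ℤ) * Z ^ 4
          = ((e⁻¹ : (Cub ℤ)ˣ) : Cub ℤ) * (((etaU⁻¹ : (Cub ℤ)ˣ) : Cub ℤ) * eta) * Z ^ 4 := by
            rw [this]; ring
        _ = _ := by ring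
  · -- m | b
    have h1 : a * (-(th * b')) = c ^ 4 := by
      have : mm * eta * (a * (-(th * b'))) = mm * eta * c ^ 4 := by
        calc mm * eta * (a * (-(th * b'))) = (- (th * eta)) * (a * (mm * b')) := by ring
          _ = mm * eta * c ^ 4 := by rw [← hb, h, hth, ← eta_mul_mm]; ring
      exact mul_left_cancel₀ (mul_ne_zero hmm0 etaU.ne_zero) this
    have hcop : IsCoprime a (-(th * b')) := by
      rw [IsCoprime.neg_right_iff]
      have : IsCoprime a b' := by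
        rw [hb] at hab; exact hab.of_mul_right_right
      exact (isCoprime_mul_unit_left_right thU.isUnit a b').2 this
    obtain ⟨e, M, Z, h2, h3, h4⟩ := fac4 hc hcop h1
    refine ⟨e, M, Z, h2, Or.inl ⟨h3, ?_⟩⟩
    have : b' = eta * (((e⁻¹ : (Cub ℤ)ˣ) : Cub ℤ) * Z ^ 4) := by
      rw [← h4]
      calc b' = (- (th * eta)) * b' := by rw [hth]; ring
        _ = _ := by ring
    rw [hb, this, ← eta_mul_mm]; ring

end Cub

end Pool.Agent.H27
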