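import Mathlib

set_option autoImplicit false

/-!
# The cubic ring `R[θ]` with `θ ^ 3 + θ + 1 = 0`

An element `a + b θ + c θ ^ 2` is stored as its three coordinates.
-/

namespace Pool.Agent.H27

/-- The ring `R[θ]/(θ^3+θ+1)`, by coordinates: `⟨a, b, c⟩` is `a + b θ + c θ ^ 2`. -/
@[ext]
structure Cub (R : Type) where
  a : R
  b : R
  c : R
deriving DecidableEq

namespace Cub

variable {R : Type} [CommRing R]

instance : Zero (Cub R) := ⟨⟨0, 0, 0⟩⟩
instance : One (Cub R) := ⟨⟨1, 0, 0⟩⟩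
instance : Add (Cub R) := ⟨fun x y => ⟨x.a + y.a, x.b + y.b, x.c + y.c⟩⟩
instance : Neg (Cub R) := ⟨fun x => ⟨-x.a, -x.b, -x.c⟩⟩
instance : Sub (Cub R) := ⟨fun x y => ⟨x.a - y.a, x.b - y.b, x.c - y.c⟩⟩
instance : Mul (Cub R) := ⟨fun x y =>
  ⟨x.a * y.a - (x.b * y.c + x.c * y.b),
   x.a * y.b + x.b * y.a - (x.b * y.c + x.c * y.b) - x.c * y.c,
   x.a * y.c + x.b * y.b + x.c * y.a - x.c * y.c⟩⟩
instance : NatCast (Cub R) := ⟨fun n => ⟨n, 0, 0⟩⟩
instance : IntCast (Cub R) := ⟨fun n => ⟨n, 0, 0⟩⟩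

@[simp] lemma zero_a : (0 : Cub R).a = 0 := rfl
@[simp] lemma zero_b : (0 : Cub R).b = 0 := rfl
@[simp] lemma zero_c : (0 : Cub R).c = 0 := rfl
@[simp] lemma one_a : (1 : Cub R).a = 1 := rfl
@[simp] lemma one_b : (1 : Cub R).b = 0 := rfl
@[simp] lemma one_c : (1 : Cub R).c = 0 := rfl
@[simp] lemma add_a (x y : Cub R) : (x + y).a = x.a + y.a := rfl
@[simp] lemma add_b (x y : Cub R) : (x + y).b = x.b + y.b := rfl
@[simp] lemma add_c (x y : Cub R) : (x + y).c = x.c + y.c := rfl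
@[simp] lemma neg_a (x : Cub R) : (-x).a = -x.a := rfl
@[simp] lemma neg_b (x : Cub R) : (-x).b = -x.b := rfl
@[simp] lemma neg_c (x : Cub R) : (-x).c = -x.c := rfl
@[simp] lemma sub_a (x y : Cub R) : (x - y).a = x.a - y.a := rfl
@[simp] lemma sub_b (x y : Cub R) : (x - y).b = x.b - y.b := rfl
@[simp] lemma sub_c (x y : Cub R) : (x - y).c = x.c - y.c := rfl
@[simp] lemma mul_a (x y : Cub R) :
    (x * y).a = x.a * y.a - (x.b * y.c + x.c * y.b) := rfl
@[simp] lemma mul_b (x y : Cub R) :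
    (x * y).b = x.a * y.b + x.b * y.a - (x.b * y.c + x.c * y.b) - x.c * y.c := rfl
@[simp] lemma mul_c (x y : Cub R) :
    (x * y).c = x.a * y.c + x.b * y.b + x.c * y.a - x.c * y.c := rfl
@[simp] lemma natCast_a (n : ℕ) : ((n : Cub R)).a = n := rfl
@[simp] lemma natCast_b (n : ℕ) : ((n : Cub R)).b = 0 := rfl
@[simp] lemma natCast_c (n : ℕ) : ((n : Cub R)).c = 0 := rfl
@[simp] lemma intCast_a (n : ℤ) : ((n : Cub R)).a = n := rfl
@[simp] lemma intCast_b (n : ℤ) : ((n : Cub R)).b = 0 := rfl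
@[simp] lemma intCast_c (n : ℤ) : ((n : Cub R)).c = 0 := rfl

instance : CommRing (Cub R) where
  add_assoc := by intros; ext <;> simp <;> ring
  zero_add := by intros; ext <;> simp
  add_zero := by intros; ext <;> simp
  add_comm := by intros; ext <;> simp <;> ring
  neg_add_cancel := by intros; ext <;> simp
  sub_eq_add_neg := by intros; ext <;> simp <;> ring
  mul_assoc := by intros; ext <;> simp <;> ring
  one_mul := by intros; ext <;> simp
  mul_one := by intros; ext <;> simp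
  left_distrib := by intros; ext <;> simp <;> ring
  right_distrib := by intros; ext <;> simp <;> ring
  mul_comm := by intros; ext <;> simp <;> ring
  zero_mul := by intros; ext <;> simp
  mul_zero := by intros; ext <;> simp
  natCast_zero := by ext <;> simp
  natCast_succ := by intros; ext <;> simp
  intCast_ofNat := by intros; ext <;> simp
  intCast_negSucc := by intros; ext <;> simp
  nsmul := nsmulRec
  zsmul := zsmulRec

@[simp] lemma ofNat_a (n : ℕ) [n.AtLeastTwo] :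
    (ofNat(n) : Cub R).a = ofNat(n) := rfl
@[simp] lemma ofNat_b (n : ℕ) [n.AtLeastTwo] : (ofNat(n) : Cub R).b = 0 := rfl
@[simp] lemma ofNat_c (n : ℕ) [n.AtLeastTwo] : (ofNat(n) : Cub R).c = 0 := rfl

/-- The generator `θ`. -/
def th : Cub R := ⟨0, 1, 0⟩

@[simp] lemma th_a : (th : Cub R).a = 0 := rfl
@[simp] lemma th_b : (th : Cub R).b = 1 := rfl
@[simp] lemma th_c : (th : Cub R).c = 0 := rfl

lemma th_rel : (th : Cub R) ^ 3 + th + 1 = 0 := by
  ext <;> simp [pow_succ]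

/-- The norm form. -/
def norm (x : Cub R) : R :=
  x.a ^ 3 - x.b ^ 3 + x.c ^ 3 - x.b * x.c ^ 2 + x.a * x.c ^ 2 + 3 * x.a * x.b * x.c
    + x.a * x.b ^ 2 - 2 * x.a ^ 2 * x.c

/-- The adjugate: `x * adj x = norm x`. -/
def adj (x : Cub R) : Cub R :=
  ⟨x.a ^ 2 + x.b ^ 2 + x.c ^ 2 - 2 * x.a * x.c + x.b * x.c,
   -x.a * x.b - x.c ^ 2,
   x.b ^ 2 - x.a * x.c + x.c ^ 2⟩

lemma mul_adj (x : Cub R) : x * adj x = ⟨norm x, 0, 0⟩ := by
  ext <;> simp [adj, norm] <;> ring

lemma norm_mul (x y : Cub R) : norm (x * y) = norm x * norm y := by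
  simp [norm]; ring

end Cub

end Pool.Agent.H27
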