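import Pool.Agent.H27.Mod8

set_option autoImplicit false

namespace Pool.Agent.H27

namespace Cub

/-! ### The real place -/

lemma re_eq_zero {x : Cub ℤ} (h : re x = 0) : x = 0 := by
  have h1 := norm_re x
  rw [h, zero_mul] at h1
  exact norm_eq_zero.1 (by exact_mod_cast h1)

lemma re_th : re th = tt := by simp [re_apply, phi]

lemma re_eta : re eta = 1 + tt ^ 2 := by simp [re_apply, phi, eta]

lemma re_mm : re mm = 4 + 3 * tt ^ 2 := by simp [re_apply, phi, mm]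

lemma re_DD_pos : 0 < re DD := by
  rw [← eta_mul_mm, map_mul, re_eta, re_mm]; positivity

lemma real_neg {d d' N G H : Cub ℤ} (h1 : re d < 0) (h2 : re d' < 0)
    (h : N ^ 2 = d * G ^ 4 + d' * H ^ 4) : G = 0 ∧ H = 0 := by
  have h3 : (re N) ^ 2 = re d * (re G) ^ 4 + re d' * (re H) ^ 4 := by
    have := congrArg re h
    simpa [map_add, map_mul, map_pow] using this
  have hG : 0 ≤ (re G) ^ 4 := by positivity
  have hH : 0 ≤ (re H) ^ 4 := by positivity
  have hG0 : (re G) ^ 4 = 0 := by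
    nlinarith [sq_nonneg (re N), mul_nonneg (neg_nonneg.2 h1.le) hG,
      mul_nonneg (neg_nonneg.2 h2.le) hH]
  have hH0 : (re H) ^ 4 = 0 := by
    nlinarith [sq_nonneg (re N), mul_nonneg (neg_nonneg.2 h1.le) hG,
      mul_nonneg (neg_nonneg.2 h2.le) hH]
  exact ⟨re_eq_zero (pow_eq_zero_iff (by norm_num) |>.1 hG0),
    re_eq_zero (pow_eq_zero_iff (by norm_num) |>.1 hH0)⟩

lemma not_both_zero {G H : Cub ℤ} (h : IsCoprime G H) : ¬ (G = 0 ∧ H = 0) := by
  rintro ⟨rfl, rfl⟩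
  obtain ⟨a, b, hab⟩ := h
  simp at hab

lemma not_both_even {G H : Cub ℤ} (h : IsCoprime G H) (h1 : (2 : Cub ℤ) ∣ G)
    (h2 : (2 : Cub ℤ) ∣ H) : False := by
  have := h.isUnit_of_dvd' h1 h2
  exact prime_two.not_isUnit this

/-- an inverse modulo 8 -/
lemma inv8 {H : Cub ℤ} (h : ¬ (2 : Cub ℤ) ∣ H) : ∃ K : Cub ℤ, (8 : Cub ℤ) ∣ H * K - 1 := by
  have h1 : IsCoprime (2 : Cub ℤ) H := (prime_two.coprime_iff_not_dvd).2 h
  have h2 : IsCoprime ((2 : Cub ℤ) ^ 3) H := h1.pow_left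
  obtain ⟨u, v, huv⟩ := h2
  refine ⟨v, -u, ?_⟩
  have : (8 : Cub ℤ) = 2 ^ 3 := by norm_num
  rw [this]
  linear_combination huv

lemma dvd_four_of_even {x : Cub ℤ} (h : (2 : Cub ℤ) ∣ x) (k : Cub ℤ) : (4 : Cub ℤ) ∣ k * x ^ 4 := by
  obtain ⟨y, rfl⟩ := h
  exact ⟨k * 4 * y ^ 4, by ring⟩

/-- the class `-θ` -/
lemma obs_negth {N G H : Cub ℤ} (hc : IsCoprime G H)
    (h : N ^ 2 = -th * G ^ 4 + eta ^ 2 * mm * H ^ 4) : False := by
  by_cases hG : (2 : Cub ℤ) ∣ G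
  · have hH : ¬ (2 : Cub ℤ) ∣ H := fun h' => not_both_even hc hG h'
    have hx : ¬ (2 : Cub ℤ) ∣ eta * H ^ 2 := by
      rw [← etaU_val, unit_dvd_two]
      exact fun h' => hH (prime_two.dvd_of_dvd_pow h')
    have h4 : (4 : Cub ℤ) ∣ ((1 : (Cub ℤ)ˣ) : Cub ℤ) * mm * (eta * H ^ 2) ^ 2 - N ^ 2 := by
      have := dvd_four_of_even hG th
      rw [h]; push_cast
      convert this using 1; ring
    obtain ⟨r, hr⟩ := unit_mm_sq_mod4 1 hx h4
    -- `1 = - r ^ 2` is impossible at the real place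
    have h5 := congrArg (fun u : (Cub ℤ)ˣ => re (u : Cub ℤ)) hr
    simp at h5
    nlinarith [sq_nonneg (re (r : Cub ℤ))]
  · by_cases hH : (2 : Cub ℤ) ∣ H
    · have hx : ¬ (2 : Cub ℤ) ∣ G ^ 2 := fun h' => hG (prime_two.dvd_of_dvd_pow h')
      have h4 : (4 : Cub ℤ) ∣ ((-thU : (Cub ℤ)ˣ) : Cub ℤ) * (G ^ 2) ^ 2 - N ^ 2 := by
        have := dvd_four_of_even hH (-(eta ^ 2 * mm))
        rw [h]; push_cast
        convert this using 1; simp; ring
      obtain ⟨r, hr⟩ := unit_sq_mod4 (-thU) hx h4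
      -- reduce mod 4: `-θ` is not a square
      have h5 : (4 : Cub ℤ) ∣ (-th) * 1 ^ 2 - (r : Cub ℤ) ^ 2 := by
        have h6 := congrArg (fun u : (Cub ℤ)ˣ => (u : Cub ℤ)) hr
        simp only [Units.val_neg, thU_val, Units.val_pow_eq_pow_val] at h6
        rw [← h6]; simp
      have h1odd : ¬ (2 : Cub ℤ) ∣ 1 := fun h7 => prime_two.not_isUnit (isUnit_of_dvd_one h7)
      obtain ⟨z, hz⟩ := sq_mod4 h1odd h5
      apply (nonsq4 z.a z.b z.c).2.2.1
      change z ^ 2 = _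
      rw [hz]; decide
    · obtain ⟨K, k, hK⟩ := inv8 hH
      have hcodd : ¬ (2 : Cub ℤ) ∣ G * K := by
        intro h'
        rcases prime_two.dvd_or_dvd h' with h' | h'
        · exact hG h'
        · obtain ⟨y, hy⟩ := h'
          apply prime_two.not_isUnit
          refine IsUnit.of_mul_eq_one (H * y - 4 * k) ?_
          rw [hy] at hK
          linear_combination hK
      apply obsA (n := N * K ^ 2) hcodd
      have e1 : (N * K ^ 2) ^ 2 + th * (G * K) ^ 4 - eta ^ 2 * mm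
          = eta ^ 2 * mm * ((H * K) ^ 4 - 1) := by
        have : (N * K ^ 2) ^ 2 = N ^ 2 * K ^ 4 := by ring
        rw [this, h]; ring
      rw [e1]
      have e2 : (H * K) ^ 4 - 1 = 8 * (k * ((H * K) ^ 3 + (H * K) ^ 2 + H * K + 1)) := by
        linear_combination ((H * K) ^ 3 + (H * K) ^ 2 + H * K + 1) * hK
      rw [e2]
      exact ⟨eta ^ 2 * mm * (k * ((H * K) ^ 3 + (H * K) ^ 2 + H * K + 1)), by ring⟩

/-- (O1): the only unit class for which `N² = e G⁴ + (D/e) H⁴` is soluble is the trivial one. -/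
lemma O1 (e : (Cub ℤ)ˣ) {N G H : Cub ℤ} (hc : IsCoprime G H)
    (h : N ^ 2 = e * G ^ 4 + ((e⁻¹ : (Cub ℤ)ˣ) : Cub ℤ) * DD * H ^ 4) :
    ∃ r : (Cub ℤ)ˣ, e = r ^ 2 := by
  obtain ⟨r, hr⟩ := unit_class e
  have hri : (r : Cub ℤ) * ((r⁻¹ : (Cub ℤ)ˣ) : Cub ℤ) = 1 := Units.mul_inv r
  set s : Cub ℤ := ((r⁻¹ : (Cub ℤ)ˣ) : Cub ℤ) with hs
  have hcs : IsCoprime G (s * H) := (isCoprime_mul_unit_left_right (Units.isUnit _) G H).2 hc
  have hti : (th : Cub ℤ) * eta = -1 := th_mul_eta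
  rcases hr with hr | hr | hr | hr
  · exact ⟨r, hr⟩
  · exfalso
    have he : ((e⁻¹ : (Cub ℤ)ˣ) : Cub ℤ) = - s ^ 2 := by
      rw [hr, inv_neg, ← inv_pow]; push_cast; rfl
    have he2 : (e : Cub ℤ) = - (r : Cub ℤ) ^ 2 := by rw [hr]; push_cast; rfl
    have h1 : (s * N) ^ 2 = (-1) * G ^ 4 + (-DD) * (s * H) ^ 4 := by
      rw [mul_pow, h, he, he2]
      linear_combination (-G ^ 4 * (r * s + 1)) * hri
    have := real_neg (by simp) (by rw [map_neg]; linarith [re_DD_pos]) h1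
    exact not_both_zero hcs this
  · exfalso
    have he : ((e⁻¹ : (Cub ℤ)ˣ) : Cub ℤ) = - eta * s ^ 2 := by
      rw [Units.inv_eq_of_mul_eq_one_right]
      rw [hr]; push_cast
      rw [thU_val]
      linear_combination (r * s + 1) * hri - (r * s) ^ 2 * hti
    have he2 : (e : Cub ℤ) = th * (r : Cub ℤ) ^ 2 := by rw [hr]; push_cast; rfl
    have h1 : (s * N) ^ 2 = th * G ^ 4 + (-(eta * DD)) * (s * H) ^ 4 := by
      rw [mul_pow, h, he, he2]
      linear_combination (th * G ^ 4 * (r * s + 1)) * hri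
    have := real_neg (by rw [re_th]; linarith [tt_ub])
      (by rw [map_neg, map_mul, re_eta]; have := re_DD_pos; have : 0 < (1 + tt ^ 2) * re DD := by positivity
          linarith) h1
    exact not_both_zero hcs this
  · exfalso
    have he : ((e⁻¹ : (Cub ℤ)ˣ) : Cub ℤ) = eta * s ^ 2 := by
      rw [Units.inv_eq_of_mul_eq_one_right]
      rw [hr]; push_cast
      rw [thU_val]
      linear_combination (r * s + 1) * hri - (r * s) ^ 2 * hti
    have he2 : (e : Cub ℤ) = - (th * (r : Cub ℤ) ^ 2) := by rw [hr]; push_cast; rfl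
    have h1 : (s * N) ^ 2 = -th * G ^ 4 + eta ^ 2 * mm * (s * H) ^ 4 := by
      rw [mul_pow, h, he, he2, ← eta_mul_mm]
      linear_combination (-th * G ^ 4 * (r * s + 1)) * hri
    exact obs_negth hcs h1

end Cub

end Pool.Agent.H27
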