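import Pool.Agent.H27.Descent

set_option autoImplicit false

namespace Pool.Agent.H27

namespace Cub

lemma DD_ne_zero : DD ≠ 0 := by decide

lemma sqfree_DD {z : Cub ℤ} (hz : Prime z) (h : z ^ 2 ∣ DD) : False := by
  have h1 : z ∣ eta * mm := by
    rw [eta_mul_mm]; exact (dvd_pow_self z two_ne_zero).trans h
  have h2 : z ∣ mm := by
    rcases hz.dvd_or_dvd h1 with h3 | h3
    · exact absurd (isUnit_of_dvd_unit h3 etaU.isUnit) hz.not_isUnit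
    · exact h3
  have h3 : Associated z mm := hz.associated_of_dvd prime_mm h2
  have h4 : mm ^ 2 ∣ eta * mm := by
    rw [eta_mul_mm]; exact (pow_dvd_pow_of_dvd h3.symm.dvd 2).trans h
  obtain ⟨k, hk⟩ := h4
  have h5 : eta = mm * k := by
    apply mul_right_cancel₀ prime_mm.ne_zero
    rw [hk]; ring
  exact prime_mm.not_isUnit (isUnit_of_dvd_unit ⟨k, h5⟩ etaU.isUnit)

/-- coprimality criterion for factors of `D c⁴` -/
lemma cop_of {a b c : Cub ℤ} (hc0 : c ≠ 0) (h : a * b = DD * c ^ 4)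
    (hz : ∀ z : Cub ℤ, Prime z → z ∣ a → z ∣ b → z ∣ c → False) : IsCoprime a b := by
  apply isCoprime_of_prime_dvd
  · rintro ⟨rfl, rfl⟩
    rw [mul_zero] at h
    exact mul_ne_zero DD_ne_zero (pow_ne_zero 4 hc0) h.symm
  · intro z hzp ha hb
    by_cases hc : z ∣ c
    · exact hz z hzp ha hb hc
    · have h1 : IsCoprime (z ^ 2) (c ^ 4) :=
        ((hzp.coprime_iff_not_dvd).2 hc).pow
      have h2 : z ^ 2 ∣ DD * c ^ 4 := by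
        rw [← h, sq]; exact mul_dvd_mul ha hb
      exact sqfree_DD hzp (h1.dvd_of_dvd_mul_right h2)

lemma two_prime_odd {z x : Cub ℤ} (hz : Prime z) (h2 : z ∣ 2) (hx : z ∣ x)
    (hodd : ¬ (2 : Cub ℤ) ∣ x) : False := by
  have h : IsCoprime (2 : Cub ℤ) x := (prime_two.coprime_iff_not_dvd).2 hodd
  exact hz.not_isUnit (h.isUnit_of_dvd' h2 hx)

/-- (X): no solution of `N² = e G⁴ + (D/e) H⁴` with `H` odd. -/
lemma noOddOdd (e : (Cub ℤ)ˣ) {N G H : Cub ℤ} (hc : IsCoprime G H)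
    (hH : ¬ (2 : Cub ℤ) ∣ H)
    (h : N ^ 2 = e * G ^ 4 + ((e⁻¹ : (Cub ℤ)ˣ) : Cub ℤ) * DD * H ^ 4) : False := by
  obtain ⟨r, hr⟩ := O1 e hc h
  have hri : (r : Cub ℤ) * ((r⁻¹ : (Cub ℤ)ˣ) : Cub ℤ) = 1 := Units.mul_inv r
  have hei : ((e⁻¹ : (Cub ℤ)ˣ) : Cub ℤ) = ((r⁻¹ : (Cub ℤ)ˣ) : Cub ℤ) ^ 2 := by
    rw [hr, ← inv_pow]; push_cast; rfl
  have he : (e : Cub ℤ) = (r : Cub ℤ) ^ 2 := by rw [hr]; push_cast; rfl
  rw [hei, he] at h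
  set s : Cub ℤ := ((r⁻¹ : (Cub ℤ)ˣ) : Cub ℤ) with hs
  have hsH : ¬ (2 : Cub ℤ) ∣ s * H := by rw [hs, unit_dvd_two]; exact hH
  have hcs : IsCoprime G (s * H) := (isCoprime_mul_unit_left_right (Units.isUnit _) G H).2 hc
  have h1 : (s * N + G ^ 2) * (s * N - G ^ 2) = DD * (s * H) ^ 4 := by
    have : (s * N + G ^ 2) * (s * N - G ^ 2) = s ^ 2 * N ^ 2 - G ^ 4 := by ring
    rw [this, h]
    linear_combination (G ^ 4 * (r * s + 1)) * hri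
  have hH0 : s * H ≠ 0 := by
    intro h0; apply hsH; rw [h0]; exact dvd_zero _
  have hcop : IsCoprime (s * N + G ^ 2) (s * N - G ^ 2) := by
    apply cop_of hH0 h1
    intro z hz ha hb hzc
    have hd : z ∣ 2 * G ^ 2 := by
      have := dvd_sub ha hb
      have e1 : (s * N + G ^ 2) - (s * N - G ^ 2) = 2 * G ^ 2 := by ring
      rwa [e1] at this
    rcases hz.dvd_or_dvd hd with h2 | h2
    · exact two_prime_odd hz h2 hzc hsH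
    · have h3 := hz.dvd_of_dvd_pow h2
      exact hz.not_isUnit (hcs.isUnit_of_dvd' h3 hzc)
  obtain ⟨f, M, Z, hMZ, hfac⟩ := facD hH0 hcop h1
  have hMo : ¬ (2 : Cub ℤ) ∣ M := fun h' => hsH (hMZ ▸ Dvd.dvd.mul_right h' Z)
  have hZo : ¬ (2 : Cub ℤ) ∣ Z := fun h' => hsH (hMZ ▸ Dvd.dvd.mul_left h' M)
  have hfi : (f : Cub ℤ) * ((f⁻¹ : (Cub ℤ)ˣ) : Cub ℤ) = 1 := Units.mul_inv f
  rcases hfac with ⟨hA, hB⟩ | ⟨hA, hB⟩
  · apply obsX f hMo hZo (G := G)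
    have h2 : 2 * G ^ 2 = f * M ^ 4 - ((f⁻¹ : (Cub ℤ)ˣ) : Cub ℤ) * DD * Z ^ 4 := by
      rw [← hA, ← hB]; ring
    calc 2 * (f : Cub ℤ) * G ^ 2 = f * (2 * G ^ 2) := by ring
      _ = (f : Cub ℤ) ^ 2 * M ^ 4 - DD * Z ^ 4 := by
        rw [h2]; linear_combination (-DD * Z ^ 4) * hfi
  · apply obsX (-(f⁻¹ * etaU)) hZo hMo (G := G)
    have h2 : 2 * G ^ 2 = f * mm * M ^ 4 - ((f⁻¹ : (Cub ℤ)ˣ) : Cub ℤ) * eta * Z ^ 4 := by
      rw [← hA, ← hB]; ring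
    push_cast
    rw [etaU_val]
    calc 2 * -(((f⁻¹ : (Cub ℤ)ˣ) : Cub ℤ) * eta) * G ^ 2
        = -(((f⁻¹ : (Cub ℤ)ˣ) : Cub ℤ) * eta) * (2 * G ^ 2) := by ring
      _ = _ := by
        rw [h2, ← eta_mul_mm]
        linear_combination (-eta * mm * M ^ 4) * hfi

lemma exists_reduced {x y : Cub ℤ} (hx : x ≠ 0) : ∃ c x' y' : Cub ℤ, c ≠ 0 ∧ x = c * x' ∧
    y = c * y' ∧ IsCoprime x' y' := by
  let _ : GCDMonoid (Cub ℤ) := UniqueFactorizationMonoid.toGCDMonoid (Cub ℤ)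
  obtain ⟨x', y', h1, h2, h3⟩ := extract_gcd x y
  refine ⟨gcd x y, x', y', ?_, h1, h2, (gcd_isUnit_iff _ _).1 h3⟩
  intro h0
  apply hx
  rw [h1, h0, zero_mul]

/-- The descent lemma on the curve `V² = U³ + D U` (with `U = W / d²`). -/
lemma Eprime {W d Q s : Cub ℤ} (hW : W ≠ 0) (hd : d ≠ 0) (hQ : Q ≠ 0)
    (h : W * Q ^ 2 = s ^ 2 * (W ^ 2 + DD * d ^ 4)) :
    ∃ (e : (Cub ℤ)ˣ) (g k n : Cub ℤ), IsCoprime g k ∧ g ≠ 0 ∧ k ≠ 0 ∧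
      ((W * k ^ 2 = e * (g * d) ^ 2 ∧
          n ^ 2 = e * g ^ 4 + ((e⁻¹ : (Cub ℤ)ˣ) : Cub ℤ) * DD * k ^ 4) ∨
       (W * k ^ 2 = e * mm * (g * d) ^ 2 ∧
          n ^ 2 = e * mm * g ^ 4 + ((e⁻¹ : (Cub ℤ)ˣ) : Cub ℤ) * eta * k ^ 4)) := by
  obtain ⟨c, X, Z0, hc0, hWc, hdc, hcop⟩ := exists_reduced (x := W) (y := d ^ 2) hW
  have hX0 : X ≠ 0 := by rintro rfl; exact hW (by rw [hWc, mul_zero])
  have hZ00 : Z0 ≠ 0 := by rintro rfl; exact (pow_ne_zero 2 hd) (by rw [hdc, mul_zero])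
  set F : Cub ℤ := X ^ 2 + DD * Z0 ^ 2 with hF
  have h1 : X * Q ^ 2 = s ^ 2 * c * F := by
    apply mul_left_cancel₀ hc0
    have e1 : W ^ 2 + DD * d ^ 4 = c ^ 2 * F := by
      have : d ^ 4 = (d ^ 2) ^ 2 := by ring
      rw [this, hdc, hWc, hF]; ring
    calc c * (X * Q ^ 2) = W * Q ^ 2 := by rw [hWc]; ring
      _ = c * (s ^ 2 * c * F) := by rw [h, e1]; ring
  have h2 : X * Z0 * F * Q ^ 2 = (s * d * F) ^ 2 := by
    calc X * Z0 * F * Q ^ 2 = (X * Q ^ 2) * Z0 * F := by ring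
      _ = s ^ 2 * (c * Z0) * F ^ 2 := by rw [h1]; ring
      _ = (s * d * F) ^ 2 := by rw [← hdc]; ring
  have h3 : Q ∣ s * d * F := by
    have : Q ^ 2 ∣ (s * d * F) ^ 2 := ⟨X * Z0 * F, by rw [← h2]; ring⟩
    exact (IsIntegrallyClosed.pow_dvd_pow_iff (by norm_num)).1 this
  obtain ⟨q, hq⟩ := h3
  have h4 : X * Z0 * F = q ^ 2 := by
    apply mul_right_cancel₀ (pow_ne_zero 2 hQ)
    rw [h2, hq]; ring
  -- `Z0` is coprime to `X * F`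
  have hcF : IsCoprime Z0 F := by
    have : IsCoprime Z0 (X ^ 2) := hcop.symm.pow_right
    have h5 := this.add_mul_left_right (DD * Z0)
    rw [hF]
    convert h5 using 1; ring
  have hcXF : IsCoprime Z0 (X * F) := hcop.symm.mul_right hcF
  have h5 : Z0 * (X * F) = q ^ 2 := by rw [← h4]; ring
  obtain ⟨k, f1, hk⟩ := exists_associated_pow_of_mul_eq_pow' hcXF h5
  obtain ⟨q1, f1', hq1⟩ := exists_associated_pow_of_mul_eq_pow' hcXF.symm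
    (by rw [mul_comm]; exact h5)
  have hk0 : k ≠ 0 := by
    rintro rfl; apply hZ00; rw [← hk]; ring
  have hf1 : (f1 : Cub ℤ) * ((f1⁻¹ : (Cub ℤ)ˣ) : Cub ℤ) = 1 := Units.mul_inv f1
  by_cases hm : mm ∣ X
  · obtain ⟨X', hX'⟩ := hm
    have hX'0 : X' ≠ 0 := by rintro rfl; exact hX0 (by rw [hX', mul_zero])
    set F' : Cub ℤ := mm * X' ^ 2 + eta * Z0 ^ 2 with hF'
    have hFF : F = mm * F' := by
      rw [hF, hF', hX', ← eta_mul_mm]; ring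
    have hcop' : IsCoprime X' Z0 := by rw [hX'] at hcop; exact hcop.of_mul_left_right
    have hcXF' : IsCoprime X' F' := by
      have h6 : IsCoprime X' (eta * Z0 ^ 2) :=
        (isCoprime_mul_unit_left_right etaU.isUnit X' (Z0 ^ 2)).2 hcop'.pow_right
      have h7 := h6.add_mul_left_right (mm * X')
      rw [hF']
      convert h7 using 1; ring
    -- `m | q1`
    have h8 : mm ∣ q1 := by
      have : mm ∣ q1 ^ 2 * f1' := by rw [hq1, hX']; exact ⟨X' * F, by ring⟩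
      rcases prime_mm.dvd_or_dvd this with h9 | h9
      · exact prime_mm.dvd_of_dvd_pow h9
      · exact absurd (isUnit_of_dvd_unit h9 f1'.isUnit) prime_mm.not_isUnit
    obtain ⟨q2, hq2⟩ := h8
    have h9 : X' * F' * ((f1'⁻¹ : (Cub ℤ)ˣ) : Cub ℤ) = q2 ^ 2 := by
      have e0 : (f1' : Cub ℤ) * ((f1'⁻¹ : (Cub ℤ)ˣ) : Cub ℤ) = 1 := Units.mul_inv f1'
      apply mul_left_cancel₀ (pow_ne_zero 2 prime_mm.ne_zero)
      have e1 : mm ^ 2 * (X' * F') = (mm * q2) ^ 2 * f1' := by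
        rw [← hq2, hq1, hFF, hX']; ring
      calc mm ^ 2 * (X' * F' * ((f1'⁻¹ : (Cub ℤ)ˣ) : Cub ℤ))
          = (mm ^ 2 * (X' * F')) * ((f1'⁻¹ : (Cub ℤ)ˣ) : Cub ℤ) := by ring
        _ = mm ^ 2 * q2 ^ 2 := by rw [e1]; linear_combination (mm * q2) ^ 2 * e0
    have hcXF2 : IsCoprime X' (F' * ((f1'⁻¹ : (Cub ℤ)ˣ) : Cub ℤ)) :=
      (isCoprime_mul_unit_right_right (Units.isUnit _) X' F').2 hcXF'
    obtain ⟨g, f2, hg⟩ := exists_associated_pow_of_mul_eq_pow' hcXF2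
      (by rw [← mul_assoc]; exact h9)
    have hg0 : g ≠ 0 := by
      rintro rfl; apply hX'0; rw [← hg]; ring
    have hf2 : (f2 : Cub ℤ) * ((f2⁻¹ : (Cub ℤ)ˣ) : Cub ℤ) = 1 := Units.mul_inv f2
    -- `g k | q`
    have h10 : mm * (g * k) ∣ q := by
      have e1 : q ^ 2 = (mm * (g * k)) ^ 2 * (f1 * f2 * F') := by
        rw [← h4, hFF, hX', ← hg, ← hk]; ring
      exact (IsIntegrallyClosed.pow_dvd_pow_iff (n := 2) (by norm_num)).1 ⟨_, e1⟩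
    obtain ⟨q', hq'⟩ := h10
    have h11 : q' ^ 2 = f1 * f2 * F' := by
      apply mul_left_cancel₀ (pow_ne_zero 2 (mul_ne_zero prime_mm.ne_zero (mul_ne_zero hg0 hk0)))
      have e1 : q ^ 2 = (mm * (g * k)) ^ 2 * (f1 * f2 * F') := by
        rw [← h4, hFF, hX', ← hg, ← hk]; ring
      rw [← e1, hq']; ring
    refine ⟨f2 * f1⁻¹, g, k, q' * ((f1⁻¹ : (Cub ℤ)ˣ) : Cub ℤ) * ((f2⁻¹ : (Cub ℤ)ˣ) : Cub ℤ),
      ?_, hg0, hk0, Or.inr ⟨?_, ?_⟩⟩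
    · rw [← hg, ← hk] at hcop'
      have h12 := (isCoprime_mul_unit_right_left f2.isUnit _ _).1
        ((isCoprime_mul_unit_right_right f1.isUnit _ _).1 hcop')
      exact (IsCoprime.pow_iff (by norm_num) (by norm_num)).1 h12
    · push_cast
      -- W k² = e m (g d)²
      have e1 : W * (k ^ 2 * f1) = mm * (g ^ 2 * f2) * d ^ 2 := by
        rw [hk, hg, hdc, hWc, hX']; ring
      calc W * k ^ 2 = W * (k ^ 2 * f1) * ((f1⁻¹ : (Cub ℤ)ˣ) : Cub ℤ) := by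
            linear_combination (-W * k ^ 2) * hf1
        _ = _ := by rw [e1]; ring
    · push_cast
      rw [mul_inv, inv_inv]; push_cast
      have e1 : (q' * ((f1⁻¹ : (Cub ℤ)ˣ) : Cub ℤ) * ((f2⁻¹ : (Cub ℤ)ˣ) : Cub ℤ)) ^ 2
          = q' ^ 2 * ((f1⁻¹ : (Cub ℤ)ˣ) : Cub ℤ) ^ 2 * ((f2⁻¹ : (Cub ℤ)ˣ) : Cub ℤ) ^ 2 := by ring
      rw [e1, h11, hF', ← hg, ← hk]
      set a1 : Cub ℤ := (f1 : Cub ℤ)
      set b1 : Cub ℤ := ((f1⁻¹ : (Cub ℤ)ˣ) : Cub ℤ)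
      set a2 : Cub ℤ := (f2 : Cub ℤ)
      set b2 : Cub ℤ := ((f2⁻¹ : (Cub ℤ)ˣ) : Cub ℤ)
      linear_combination
        (mm * g ^ 4 * b1 * a2 * (a2 * b2) ^ 2 + eta * k ^ 4 * a1 * b2 * (a1 * b1 + 1)) * hf1
        + (mm * g ^ 4 * b1 * a2 * (a2 * b2 + 1) + eta * k ^ 4 * a1 * b2 * (a1 * b1) ^ 2) * hf2
  · have hcXF2 : IsCoprime X F := by
      apply isCoprime_of_prime_dvd
      · rintro ⟨h0, -⟩; exact hX0 h0
      · intro z hz hzX hzF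
        have h6 : z ∣ DD * Z0 ^ 2 := by
          have e1 : DD * Z0 ^ 2 = F - X * X := by rw [hF]; ring
          rw [e1]; exact dvd_sub hzF (Dvd.dvd.mul_right hzX X)
        rcases hz.dvd_or_dvd h6 with h7 | h7
        · rw [← eta_mul_mm] at h7
          rcases hz.dvd_or_dvd h7 with h8 | h8
          · exact hz.not_isUnit (isUnit_of_dvd_unit h8 etaU.isUnit)
          · exact hm ((hz.associated_of_dvd prime_mm h8).symm.dvd.trans hzX)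
        · exact hz.not_isUnit (hcop.isUnit_of_dvd' hzX (hz.dvd_of_dvd_pow h7))
    have h9 : X * (F * ((f1'⁻¹ : (Cub ℤ)ˣ) : Cub ℤ)) = q1 ^ 2 := by
      have e0 : (f1' : Cub ℤ) * ((f1'⁻¹ : (Cub ℤ)ˣ) : Cub ℤ) = 1 := Units.mul_inv f1'
      calc X * (F * ((f1'⁻¹ : (Cub ℤ)ˣ) : Cub ℤ))
          = (X * F) * ((f1'⁻¹ : (Cub ℤ)ˣ) : Cub ℤ) := by ring
        _ = q1 ^ 2 := by rw [← hq1]; linear_combination q1 ^ 2 * e0
    have hcXF3 : IsCoprime X (F * ((f1'⁻¹ : (Cub ℤ)ˣ) : Cub ℤ)) :=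
      (isCoprime_mul_unit_right_right (Units.isUnit _) X F).2 hcXF2
    obtain ⟨g, f2, hg⟩ := exists_associated_pow_of_mul_eq_pow' hcXF3 h9
    have hg0 : g ≠ 0 := by
      rintro rfl; apply hX0; rw [← hg]; ring
    have hf2 : (f2 : Cub ℤ) * ((f2⁻¹ : (Cub ℤ)ˣ) : Cub ℤ) = 1 := Units.mul_inv f2
    have h10 : g * k ∣ q := by
      have e1 : q ^ 2 = (g * k) ^ 2 * (f1 * f2 * F) := by
        rw [← h4, ← hg, ← hk]; ring
      exact (IsIntegrallyClosed.pow_dvd_pow_iff (n := 2) (by norm_num)).1 ⟨_, e1⟩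
    obtain ⟨q', hq'⟩ := h10
    have h11 : q' ^ 2 = f1 * f2 * F := by
      apply mul_left_cancel₀ (pow_ne_zero 2 (mul_ne_zero hg0 hk0))
      have e1 : q ^ 2 = (g * k) ^ 2 * (f1 * f2 * F) := by
        rw [← h4, ← hg, ← hk]; ring
      rw [← e1, hq']; ring
    refine ⟨f2 * f1⁻¹, g, k, q' * ((f1⁻¹ : (Cub ℤ)ˣ) : Cub ℤ) * ((f2⁻¹ : (Cub ℤ)ˣ) : Cub ℤ),
      ?_, hg0, hk0, Or.inl ⟨?_, ?_⟩⟩
    · rw [← hg, ← hk] at hcop
      have h12 := (isCoprime_mul_unit_right_left f2.isUnit _ _).1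
        ((isCoprime_mul_unit_right_right f1.isUnit _ _).1 hcop)
      exact (IsCoprime.pow_iff (by norm_num) (by norm_num)).1 h12
    · push_cast
      have e1 : W * (k ^ 2 * f1) = (g ^ 2 * f2) * d ^ 2 := by
        rw [hk, hg, hdc, hWc]; ring
      calc W * k ^ 2 = W * (k ^ 2 * f1) * ((f1⁻¹ : (Cub ℤ)ˣ) : Cub ℤ) := by
            linear_combination (-W * k ^ 2) * hf1
        _ = _ := by rw [e1]; ring
    · push_cast
      rw [mul_inv, inv_inv]; push_cast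
      have e1 : (q' * ((f1⁻¹ : (Cub ℤ)ˣ) : Cub ℤ) * ((f2⁻¹ : (Cub ℤ)ˣ) : Cub ℤ)) ^ 2
          = q' ^ 2 * ((f1⁻¹ : (Cub ℤ)ˣ) : Cub ℤ) ^ 2 * ((f2⁻¹ : (Cub ℤ)ˣ) : Cub ℤ) ^ 2 := by ring
      rw [e1, h11, hF, ← hg, ← hk]
      set a1 : Cub ℤ := (f1 : Cub ℤ)
      set b1 : Cub ℤ := ((f1⁻¹ : (Cub ℤ)ˣ) : Cub ℤ)
      set a2 : Cub ℤ := (f2 : Cub ℤ)
      set b2 : Cub ℤ := ((f2⁻¹ : (Cub ℤ)ˣ) : Cub ℤ)
      linear_combination
        (g ^ 4 * b1 * a2 * (a2 * b2) ^ 2 + DD * k ^ 4 * a1 * b2 * (a1 * b1 + 1)) * hf1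
        + (g ^ 4 * b1 * a2 * (a2 * b2 + 1) + DD * k ^ 4 * a1 * b2 * (a1 * b1) ^ 2) * hf2

/-! ### (Y) -/

/-- the common identity -/
lemma key_identity {ka M Z : Cub ℤ}
    (h : ka ^ 2 + th * ka * M ^ 2 + eta * M ^ 4 = eta * Z ^ 4) :
    (th * ka + th ^ 2 * M ^ 2 + 2 * eta * (Z ^ 2 - M ^ 2)) * (th * M ^ 2 + 2 * ka + th * Z * M) ^ 2
      = (Z + M) ^ 2 * ((th * ka + th ^ 2 * M ^ 2 + 2 * eta * (Z ^ 2 - M ^ 2)) ^ 2
        + DD * (Z - M) ^ 4) := by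
  have hth : (th : Cub ℤ) ^ 3 + th + 1 = 0 := th_rel
  rw [eta_eq] at h ⊢
  rw [DD_eq]
  linear_combination
    (4 * th * ka + (-8 - 5 * th ^ 2) * M ^ 2 + 2 * th ^ 2 * M * Z + (8 + 7 * th ^ 2) * Z ^ 2) * h
    + (-6 * M * Z ^ 5 * th - 3 * M ^ 2 * Z ^ 4 * th + 12 * M ^ 3 * Z ^ 3 * th
      - 3 * M ^ 4 * Z ^ 2 * th - 6 * M ^ 5 * Z * th + 3 * M ^ 6 * th + 3 * Z ^ 6 * th) * hth

lemma odd_mul {x y : Cub ℤ} (hx : ¬ (2 : Cub ℤ) ∣ x) (hy : ¬ (2 : Cub ℤ) ∣ y) :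
    ¬ (2 : Cub ℤ) ∣ x * y := fun h => (prime_two.dvd_or_dvd h).elim hx hy

lemma odd_pow {x : Cub ℤ} (n : ℕ) (hx : ¬ (2 : Cub ℤ) ∣ x) : ¬ (2 : Cub ℤ) ∣ x ^ n :=
  fun h => hx (prime_two.dvd_of_dvd_pow h)

lemma odd_unit (u : (Cub ℤ)ˣ) : ¬ (2 : Cub ℤ) ∣ (u : Cub ℤ) := fun h =>
  prime_two.not_isUnit (isUnit_of_dvd_unit h u.isUnit)

lemma odd_th : ¬ (2 : Cub ℤ) ∣ th := odd_unit thU
lemma odd_eta : ¬ (2 : Cub ℤ) ∣ eta := odd_unit etaU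

lemma odd_mm : ¬ (2 : Cub ℤ) ∣ mm := by
  rw [← two_dvd_norm_iff]; decide

/-- if `x^2 - y^2` is even then `x - y` is even -/
lemma even_sub_of_sq {x y : Cub ℤ} (h : (2 : Cub ℤ) ∣ x ^ 2 - y ^ 2) : (2 : Cub ℤ) ∣ x - y := by
  have h1 : (2 : Cub ℤ) ∣ (x - y) * (x + y) := by convert h using 1; ring
  rcases prime_two.dvd_or_dvd h1 with h2 | h2
  · exact h2
  · have : x - y = (x + y) - 2 * y := by ring
    rw [this]; exact dvd_sub h2 (dvd_mul_right 2 y)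

/-- (Y) in the variable `κ`. -/
lemma Y0 {ka M Z : Cub ℤ} (hM : ¬ (2 : Cub ℤ) ∣ M)
    (h : ka ^ 2 + th * ka * M ^ 2 + eta * M ^ 4 = eta * Z ^ 4) : (2 : Cub ℤ) ∣ Z - M := by
  by_contra hd
  have hs : ¬ (2 : Cub ℤ) ∣ Z + M := by
    intro h'
    apply hd
    have : Z - M = (Z + M) - 2 * M := by ring
    rw [this]; exact dvd_sub h' (dvd_mul_right 2 M)
  have hz : ¬ (2 : Cub ℤ) ∣ Z ^ 2 + M ^ 2 := by
    intro h'
    apply odd_pow 2 hs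
    have : (Z + M) ^ 2 = (Z ^ 2 + M ^ 2) + 2 * (Z * M) := by ring
    rw [this]; exact dvd_add h' (dvd_mul_right 2 _)
  have hprod : ka * (ka + th * M ^ 2) = eta * ((Z - M) * (Z + M) * (Z ^ 2 + M ^ 2)) := by
    linear_combination h
  have hodd : ¬ (2 : Cub ℤ) ∣ ka * (ka + th * M ^ 2) := by
    rw [hprod]; exact odd_mul odd_eta (odd_mul (odd_mul hd hs) hz)
  have hka2 : ¬ (2 : Cub ℤ) ∣ ka + th * M ^ 2 := fun h' => hodd (Dvd.dvd.mul_left h' _)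
  have hWodd : ¬ (2 : Cub ℤ) ∣ th * ka + th ^ 2 * M ^ 2 + 2 * eta * (Z ^ 2 - M ^ 2) := by
    intro h'
    apply odd_mul odd_th hka2
    have : th * (ka + th * M ^ 2) = (th * ka + th ^ 2 * M ^ 2 + 2 * eta * (Z ^ 2 - M ^ 2))
      - 2 * (eta * (Z ^ 2 - M ^ 2)) := by ring
    rw [this]; exact dvd_sub h' (dvd_mul_right 2 _)
  have hQodd : ¬ (2 : Cub ℤ) ∣ th * M ^ 2 + 2 * ka + th * Z * M := by
    intro h'
    apply odd_mul odd_th (odd_mul hM hs)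
    have : th * (M * (Z + M)) = (th * M ^ 2 + 2 * ka + th * Z * M) - 2 * ka := by ring
    rw [this]; exact dvd_sub h' (dvd_mul_right 2 _)
  have hne : ∀ {x : Cub ℤ}, ¬ (2 : Cub ℤ) ∣ x → x ≠ 0 := by
    intro x hx h0; apply hx; rw [h0]; exact dvd_zero _
  obtain ⟨e, g, k, n, hgk, hg0, hk0, hcase⟩ := Eprime (hne hWodd) (hne hd) (hne hQodd)
    (key_identity h)
  rcases hcase with ⟨h1, h2⟩ | ⟨h1, h2⟩
  · by_cases hk : (2 : Cub ℤ) ∣ k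
    · have h3 : (2 : Cub ℤ) ∣ e * (g * (Z - M)) ^ 2 := by
        rw [← h1]; exact Dvd.dvd.mul_left (dvd_pow hk two_ne_zero) _
      by_cases hg : (2 : Cub ℤ) ∣ g
      · exact not_both_even hgk hg hk
      · exact odd_mul (odd_unit e) (odd_pow 2 (odd_mul hg hd)) h3
    · exact noOddOdd e hgk hk h2
  · by_cases hg : (2 : Cub ℤ) ∣ g
    · have h3 : (2 : Cub ℤ) ∣ (th * ka + th ^ 2 * M ^ 2 + 2 * eta * (Z ^ 2 - M ^ 2)) * k ^ 2 := by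
        rw [h1]
        exact Dvd.dvd.mul_left (dvd_pow (Dvd.dvd.mul_right hg _) two_ne_zero) _
      by_cases hk : (2 : Cub ℤ) ∣ k
      · exact not_both_even hgk hg hk
      · exact odd_mul hWodd (odd_pow 2 hk) h3
    · apply noOddOdd (e⁻¹ * etaU) hgk.symm hg (N := n)
      rw [h2, mul_inv, inv_inv, ← eta_mul_mm]
      push_cast
      have : ((etaU⁻¹ : (Cub ℤ)ˣ) : Cub ℤ) * eta = 1 := by
        rw [← etaU_val, Units.inv_mul]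
      rw [etaU_val]
      linear_combination (-(e : Cub ℤ) * mm * g ^ 4) * this

/-- `θ² + m = 4 η` -/
lemma th_sq_add_mm : (th : Cub ℤ) ^ 2 + mm = 4 * eta := by decide

/-- the data attached to `G² = -m M⁴ + 4 η Z⁴` -/
lemma Y1 {G M Z : Cub ℤ} (hM : ¬ (2 : Cub ℤ) ∣ M) (h : G ^ 2 = -mm * M ^ 4 + 4 * eta * Z ^ 4) :
    (2 : Cub ℤ) ∣ G - th * M ^ 2 ∧ (2 : Cub ℤ) ∣ Z - M := by
  have h1 : G ^ 2 - (th * M ^ 2) ^ 2 = 4 * (eta * (Z ^ 4 - M ^ 4)) := by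
    linear_combination h - M ^ 4 * th_sq_add_mm
  have h2 : (2 : Cub ℤ) ∣ G - th * M ^ 2 := by
    apply even_sub_of_sq
    rw [h1]; exact ⟨2 * (eta * (Z ^ 4 - M ^ 4)), by ring⟩
  refine ⟨h2, ?_⟩
  obtain ⟨ka, hka⟩ := h2
  apply Y0 hM (ka := ka)
  have hG : G = th * M ^ 2 + 2 * ka := by linear_combination hka
  rw [hG] at h1
  have h3 : (4 : Cub ℤ) * (ka ^ 2 + th * ka * M ^ 2 + eta * M ^ 4) = 4 * (eta * Z ^ 4) := by
    linear_combination h1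
  exact mul_left_cancel₀ (by decide) h3

end Cub

end Pool.Agent.H27
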