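import Pool.Agent.H27.Descent2

set_option autoImplicit false

namespace Pool.Agent.H27

namespace Cub

lemma coprime_of_units_pow {a b M Z d : Cub ℤ} (h : IsCoprime a b) (ha : M ^ 4 ∣ a)
    (hb : Z ^ 4 ∣ b) (_ : d = d) : IsCoprime M Z := by
  have h1 : IsCoprime (M ^ 4) (Z ^ 4) := h.of_isCoprime_of_dvd_left ha |>.of_isCoprime_of_dvd_right hb
  exact (IsCoprime.pow_iff (by norm_num) (by norm_num)).1 h1

/-- cancel an odd factor in a divisibility by 2 -/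
lemma even_cancel {x y : Cub ℤ} (hx : ¬ (2 : Cub ℤ) ∣ x) (h : (2 : Cub ℤ) ∣ x * y) :
    (2 : Cub ℤ) ∣ y := (prime_two.dvd_or_dvd h).resolve_left hx

lemma two_pow_dvd_cancel {x y : Cub ℤ} (n : ℕ) (hx : ¬ (2 : Cub ℤ) ∣ x)
    (h : (2 : Cub ℤ) ^ n ∣ x * y) : (2 : Cub ℤ) ^ n ∣ y := by
  have h1 : IsCoprime ((2 : Cub ℤ) ^ n) x := ((prime_two.coprime_iff_not_dvd).2 hx).pow_left
  exact h1.dvd_of_dvd_mul_left h

/-- The inductive statement (Z). -/
def ZStat (f : ℕ) : Prop := ∀ G K N : Cub ℤ, IsCoprime G (2 ^ (f + 1) * K) →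
  ¬ (2 : Cub ℤ) ∣ K → G ^ 4 + DD * (2 ^ (f + 1) * K) ^ 4 = N ^ 2 → (2 : Cub ℤ) ∣ K - eta * G

/-- one branch: `M² = e S⁴ + e⁻¹ D R⁴`, `S R = s H'`-type data. -/
lemma Z2 {f : ℕ} (ih : ∀ f' < f, ZStat f') {G K M S R : Cub ℤ} (e s : (Cub ℤ)ˣ)
    (hM : ¬ (2 : Cub ℤ) ∣ M) (hK : ¬ (2 : Cub ℤ) ∣ K) (hSR : IsCoprime S R)
    (hMSR : s * (2 ^ f * K) = M * (S * R))
    (hGM : (2 : Cub ℤ) ∣ M ^ 2 - s * G)
    (h : M ^ 2 = e * S ^ 4 + ((e⁻¹ : (Cub ℤ)ˣ) : Cub ℤ) * DD * R ^ 4) :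
    (2 : Cub ℤ) ∣ K - eta * G := by
  have hR : (2 : Cub ℤ) ∣ R := by
    by_contra hR
    exact noOddOdd e hSR hR h
  have hS : ¬ (2 : Cub ℤ) ∣ S := fun h' => not_both_even hSR h' hR
  obtain ⟨r, hr⟩ := O1 e hSR h
  have hri : (r : Cub ℤ) * ((r⁻¹ : (Cub ℤ)ˣ) : Cub ℤ) = 1 := Units.mul_inv r
  have hei : ((e⁻¹ : (Cub ℤ)ˣ) : Cub ℤ) = ((r⁻¹ : (Cub ℤ)ˣ) : Cub ℤ) ^ 2 := by
    rw [hr, ← inv_pow]; push_cast; rfl
  have he : (e : Cub ℤ) = (r : Cub ℤ) ^ 2 := by rw [hr]; push_cast; rfl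
  rw [hei, he] at h
  -- `2^f ∣ R`
  have h1 : (2 : Cub ℤ) ^ f ∣ R := by
    have h2 : (2 : Cub ℤ) ^ f ∣ (M * S) * R := by
      have : (M * S) * R = 2 ^ f * (s * K) := by linear_combination -hMSR
      rw [this]; exact dvd_mul_right _ _
    exact two_pow_dvd_cancel f (odd_mul hM hS) h2
  obtain ⟨R', hR'⟩ := h1
  have h2 : (s : Cub ℤ) * K = M * (S * R') := by
    have : (2 : Cub ℤ) ^ f * (s * K) = 2 ^ f * (M * (S * R')) := by
      rw [hR'] at hMSR; linear_combination hMSR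
    exact mul_left_cancel₀ (pow_ne_zero f prime_two.ne_zero) this
  have hR'odd : ¬ (2 : Cub ℤ) ∣ R' := by
    intro h'
    apply odd_mul (odd_unit s) hK
    rw [h2]; exact Dvd.dvd.mul_left (Dvd.dvd.mul_left h' _) _
  have hf : f ≠ 0 := by
    rintro rfl
    apply hR'odd
    rw [hR'] at hR
    simpa using hR
  obtain ⟨f', rfl⟩ : ∃ f', f = f' + 1 := ⟨f - 1, by omega⟩
  set t : Cub ℤ := ((r⁻¹ : (Cub ℤ)ˣ) : Cub ℤ) with ht
  have htR : t * R = 2 ^ (f' + 1) * (t * R') := by rw [hR']; ring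
  have hcop : IsCoprime S (2 ^ (f' + 1) * (t * R')) := by
    rw [← htR]
    exact (isCoprime_mul_unit_left_right (Units.isUnit _) S R).2 hSR
  have h3 : S ^ 4 + DD * (2 ^ (f' + 1) * (t * R')) ^ 4 = (t * M) ^ 2 := by
    rw [← htR, mul_pow t M, h]
    linear_combination (-S ^ 4 * (r * t + 1)) * hri
  have h4 : (2 : Cub ℤ) ∣ t * R' - eta * S :=
    ih f' (Nat.lt_succ_self _) S (t * R') (t * M) hcop (odd_mul (odd_unit _) hR'odd) h3
  -- `t M ≡ S²`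
  have h5 : (2 : Cub ℤ) ∣ t * M - S ^ 2 := by
    apply even_sub_of_sq
    have : (t * M) ^ 2 - (S ^ 2) ^ 2 = 2 * (2 ^ (4 * f' + 3) * (DD * (t * R') ^ 4)) := by
      rw [← h3]; ring
    rw [this]; exact dvd_mul_right _ _
  -- conclusion: multiply by the odd element `t * s`
  apply even_cancel (odd_mul (odd_unit (r⁻¹)) (odd_unit s))
  obtain ⟨u, hu⟩ := h4
  obtain ⟨v, hv⟩ := h5
  obtain ⟨w, hw⟩ := hGM
  -- t s K = t M S R' ; t R' = eta S + 2u ; t M = S^2 + 2 v ; s G = M^2 - 2 w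
  refine ⟨M * S * u - eta * M * v + eta * t * w, ?_⟩
  rw [← ht]
  linear_combination t * h2 + M * S * hu - eta * M * hv + eta * t * hw

/-- main step of (Z) -/
lemma Z1 {f : ℕ} (ih : ∀ f' < f, ZStat f') {G K a b : Cub ℤ}
    (hG : ¬ (2 : Cub ℤ) ∣ G) (hK : ¬ (2 : Cub ℤ) ∣ K) (hcop : IsCoprime G (2 ^ f * K))
    (hab : a - 4 * b = G ^ 2) (hprod : a * b = DD * (2 ^ f * K) ^ 4) :
    (2 : Cub ℤ) ∣ K - eta * G := by
  have hK0 : K ≠ 0 := by rintro rfl; exact hK (dvd_zero _)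
  have hH0 : (2 : Cub ℤ) ^ f * K ≠ 0 := mul_ne_zero (pow_ne_zero f prime_two.ne_zero) hK0
  have hcopab : IsCoprime a b := by
    apply cop_of hH0 hprod
    intro z hz ha hb hc
    have h1 : z ∣ G ^ 2 := by rw [← hab]; exact dvd_sub ha (Dvd.dvd.mul_left hb 4)
    exact hz.not_isUnit (hcop.isUnit_of_dvd' (hz.dvd_of_dvd_pow h1) hc)
  have haodd : ¬ (2 : Cub ℤ) ∣ a := by
    intro h'
    apply odd_pow 2 hG
    rw [← hab]
    exact dvd_sub h' ⟨2 * b, by ring⟩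
  obtain ⟨e, M, Z, hMZ, hfac⟩ := facD hH0 hcopab hprod
  rcases hfac with ⟨hA, hB⟩ | ⟨hA, hB⟩
  · have hM : ¬ (2 : Cub ℤ) ∣ M := by
      intro h'; apply haodd; rw [hA]; exact Dvd.dvd.mul_left (dvd_pow h' (by norm_num)) _
    have h4 : (4 : Cub ℤ) ∣ e * (M ^ 2) ^ 2 - G ^ 2 := ⟨b, by
      rw [← hab, hA]; ring⟩
    obtain ⟨r, hr⟩ := unit_sq_mod4 e (odd_pow 2 hM) h4
    have hri : (r : Cub ℤ) * ((r⁻¹ : (Cub ℤ)ˣ) : Cub ℤ) = 1 := Units.mul_inv r
    have hei : ((e⁻¹ : (Cub ℤ)ˣ) : Cub ℤ) = ((r⁻¹ : (Cub ℤ)ˣ) : Cub ℤ) ^ 2 := by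
      rw [hr, ← inv_pow]; push_cast; rfl
    have he : (e : Cub ℤ) = (r : Cub ℤ) ^ 2 := by rw [hr]; push_cast; rfl
    have hcMZ : IsCoprime M Z := by
      apply coprime_of_units_pow (d := 0) hcopab _ _ rfl
      · rw [hA]; exact dvd_mul_left _ _
      · rw [hB]; exact dvd_mul_left _ _
    set s : Cub ℤ := ((r⁻¹ : (Cub ℤ)ˣ) : Cub ℤ) with hs
    rw [hei] at hB
    rw [he] at hA
    -- (s G)² = M⁴ - 4 D (s Z)⁴
    have h5 : (s * G) ^ 2 = M ^ 4 - 4 * DD * (s * Z) ^ 4 := by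
      rw [mul_pow s G, ← hab, hA, hB]
      linear_combination (M ^ 4 * (r * s + 1)) * hri
    have h6 : (2 : Cub ℤ) ∣ M ^ 2 - s * G := by
      apply even_sub_of_sq
      rw [h5]; exact ⟨2 * (DD * (s * Z) ^ 4), by ring⟩
    obtain ⟨b1, hb1⟩ := h6
    have hprod1 : (M ^ 2 - b1) * b1 = DD * (s * Z) ^ 4 := by
      have : (4 : Cub ℤ) * ((M ^ 2 - b1) * b1) = 4 * (DD * (s * Z) ^ 4) := by
        have e1 : s * G = M ^ 2 - 2 * b1 := by linear_combination -hb1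
        rw [e1] at h5
        linear_combination -h5
      exact mul_left_cancel₀ (by decide) this
    have hZ0 : Z ≠ 0 := by
      rintro rfl; apply hH0; rw [← hMZ, mul_zero]
    have hsZ0 : s * Z ≠ 0 := mul_ne_zero (Units.ne_zero _) hZ0
    have hcop1 : IsCoprime (M ^ 2 - b1) b1 := by
      apply cop_of hsZ0 hprod1
      intro z hz ha hb hc
      have h7 : z ∣ M ^ 2 := by
        have : M ^ 2 = (M ^ 2 - b1) + b1 := by ring
        rw [this]; exact dvd_add ha hb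
      have h8 : IsCoprime M (s * Z) := (isCoprime_mul_unit_left_right (Units.isUnit _) M Z).2 hcMZ
      exact hz.not_isUnit (h8.isUnit_of_dvd' (hz.dvd_of_dvd_pow h7) hc)
    obtain ⟨e2, S, R, hSR, hfac2⟩ := facD hsZ0 hcop1 hprod1
    rcases hfac2 with ⟨hA2, hB2⟩ | ⟨hA2, hB2⟩
    · have hcSR : IsCoprime S R := by
        apply coprime_of_units_pow (d := 0) hcop1 _ _ rfl
        · rw [hA2]; exact dvd_mul_left _ _
        · rw [hB2]; exact dvd_mul_left _ _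
      apply Z2 ih e2 r⁻¹ hM hK hcSR (M := M)
      · rw [← hs, ← hMZ, hSR]; ring
      · exact ⟨b1, hb1⟩
      · rw [← hA2, ← hB2]; ring
    · have hcSR : IsCoprime S R := by
        apply coprime_of_units_pow (d := 0) hcop1 _ _ rfl
        · rw [hA2]; exact dvd_mul_left _ _
        · rw [hB2]; exact dvd_mul_left _ _
      apply Z2 ih (e2⁻¹ * etaU) r⁻¹ hM hK hcSR.symm (M := M)
      · rw [← hs, ← hMZ, mul_comm R S, hSR]; ring
      · exact ⟨b1, hb1⟩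
      · have e1 : M ^ 2 = (M ^ 2 - b1) + b1 := by ring
        rw [e1, hA2, hB2, mul_inv, inv_inv, ← eta_mul_mm]
        push_cast
        have : ((etaU⁻¹ : (Cub ℤ)ˣ) : Cub ℤ) * eta = 1 := by
          rw [← etaU_val, Units.inv_mul]
        rw [etaU_val]
        linear_combination (-(e2 : Cub ℤ) * mm * S ^ 4) * this
  · have hM : ¬ (2 : Cub ℤ) ∣ M := by
      intro h'; apply haodd; rw [hA]; exact Dvd.dvd.mul_left (dvd_pow h' (by norm_num)) _
    have h4 : (4 : Cub ℤ) ∣ e * mm * (M ^ 2) ^ 2 - G ^ 2 := ⟨b, by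
      rw [← hab, hA]; ring⟩
    obtain ⟨r, hr⟩ := unit_mm_sq_mod4 e (odd_pow 2 hM) h4
    have hri : (r : Cub ℤ) * ((r⁻¹ : (Cub ℤ)ˣ) : Cub ℤ) = 1 := Units.mul_inv r
    have hei : ((e⁻¹ : (Cub ℤ)ˣ) : Cub ℤ) = - ((r⁻¹ : (Cub ℤ)ˣ) : Cub ℤ) ^ 2 := by
      rw [hr, inv_neg, ← inv_pow]; push_cast; rfl
    have he : (e : Cub ℤ) = - (r : Cub ℤ) ^ 2 := by rw [hr]; push_cast; rfl
    set s : Cub ℤ := ((r⁻¹ : (Cub ℤ)ˣ) : Cub ℤ) with hs
    rw [hei] at hB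
    rw [he] at hA
    have h5 : (s * G) ^ 2 = -mm * M ^ 4 + 4 * eta * (s * Z) ^ 4 := by
      rw [mul_pow s G, ← hab, hA, hB]
      linear_combination (-mm * M ^ 4 * (r * s + 1)) * hri
    obtain ⟨h6, h7⟩ := Y1 hM h5
    -- `f = 0`
    have hf : f = 0 := by
      by_contra hf
      obtain ⟨f', rfl⟩ : ∃ f', f = f' + 1 := ⟨f - 1, by omega⟩
      have h8 : (2 : Cub ℤ) ∣ M * (s * Z) := by
        have : M * (s * Z) = 2 * (s * (2 ^ f' * K)) := by
          have : M * (s * Z) = s * (M * Z) := by ring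
          rw [this, hMZ]; ring
        rw [this]; exact dvd_mul_right _ _
      have h9 : ¬ (2 : Cub ℤ) ∣ s * Z := by
        intro h'
        apply hM
        have : M = s * Z - (s * Z - M) := by ring
        rw [this]; exact dvd_sub h' h7
      exact odd_mul hM h9 h8
    subst hf
    simp only [pow_zero, one_mul] at hMZ
    apply even_cancel (odd_unit (r⁻¹))
    obtain ⟨u, hu⟩ := h6
    obtain ⟨v, hv⟩ := h7
    rw [← hs, ← hMZ]
    have hth : (th : Cub ℤ) * eta = -1 := th_mul_eta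
    -- s (M Z - eta G) = M (sZ) - eta (sG) = M (M + 2v) - eta (th M^2 + 2u) = 2M^2 + ...
    refine ⟨M ^ 2 + M * v - eta * u, ?_⟩
    linear_combination M * hv - eta * hu - M ^ 2 * hth

theorem Zthm (f : ℕ) : ZStat f := by
  induction f using Nat.strong_induction_on with
  | _ f ih =>
    intro G K N hcop hK h
    have hG : ¬ (2 : Cub ℤ) ∣ G := by
      intro h'
      exact not_both_even hcop h' ⟨2 ^ f * K, by ring⟩
    have hcop' : IsCoprime G (2 ^ f * K) := by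
      have : (2 : Cub ℤ) ^ (f + 1) * K = 2 * (2 ^ f * K) := by ring
      rw [this] at hcop
      exact hcop.of_mul_right_right
    have h1 : (2 : Cub ℤ) ∣ N - G ^ 2 := by
      apply even_sub_of_sq
      have : N ^ 2 - (G ^ 2) ^ 2 = 2 * (8 * DD * (2 ^ f * K) ^ 4) := by
        rw [← h]; ring
      rw [this]; exact dvd_mul_right _ _
    obtain ⟨b0, hb0⟩ := h1
    have hN : N = G ^ 2 + 2 * b0 := by linear_combination hb0
    have h2 : (b0 + G ^ 2) * b0 = 4 * (DD * (2 ^ f * K) ^ 4) := by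
      have : (4 : Cub ℤ) * ((b0 + G ^ 2) * b0) = 4 * (4 * (DD * (2 ^ f * K) ^ 4)) := by
        rw [hN] at h
        linear_combination -h
      exact mul_left_cancel₀ (by decide) this
    have hfour : (4 : Cub ℤ) = 2 ^ 2 := by norm_num
    by_cases hb : (2 : Cub ℤ) ∣ b0
    · have ha : ¬ (2 : Cub ℤ) ∣ b0 + G ^ 2 := by
        intro h'
        apply odd_pow 2 hG
        have : G ^ 2 = (b0 + G ^ 2) - b0 := by ring
        rw [this]; exact dvd_sub h' hb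
      have h3 : (2 : Cub ℤ) ^ 2 ∣ b0 := by
        apply two_pow_dvd_cancel 2 ha
        rw [h2, hfour]; exact dvd_mul_right _ _
      obtain ⟨b, hb'⟩ := h3
      apply Z1 ih hG hK hcop' (a := b0 + G ^ 2) (b := b)
      · rw [hb']; ring
      · have : (4 : Cub ℤ) * ((b0 + G ^ 2) * b) = 4 * (DD * (2 ^ f * K) ^ 4) := by
          rw [← h2, hb']; ring
        exact mul_left_cancel₀ (by decide) this
    · have h3 : (2 : Cub ℤ) ^ 2 ∣ b0 + G ^ 2 := by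
        apply two_pow_dvd_cancel 2 hb
        rw [mul_comm, h2, hfour]; exact dvd_mul_right _ _
      obtain ⟨a1, ha1⟩ := h3
      apply Z1 ih hG hK hcop' (a := -b0) (b := -a1)
      · linear_combination -ha1
      · have : (4 : Cub ℤ) * (-b0 * -a1) = 4 * (DD * (2 ^ f * K) ^ 4) := by
          rw [← h2, ha1]; ring
        exact mul_left_cancel₀ (by decide) this

end Cub

end Pool.Agent.H27
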