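import Pool.Agent.H27.Cub

set_option autoImplicit false

namespace Pool.Agent.H27

namespace Cub

/-- Change of coefficients. -/
def map {R S : Type} [CommRing R] [CommRing S] (f : R →+* S) : Cub R →+* Cub S where
  toFun x := ⟨f x.a, f x.b, f x.c⟩
  map_one' := by ext <;> simp
  map_zero' := by ext <;> simp
  map_mul' := by intros; ext <;> simp
  map_add' := by intros; ext <;> simp

@[simp] lemma map_a {R S : Type} [CommRing R] [CommRing S] (f : R →+* S) (x : Cub R) :
    (map f x).a = f x.a := rfl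
@[simp] lemma map_b {R S : Type} [CommRing R] [CommRing S] (f : R →+* S) (x : Cub R) :
    (map f x).b = f x.b := rfl
@[simp] lemma map_c {R S : Type} [CommRing R] [CommRing S] (f : R →+* S) (x : Cub R) :
    (map f x).c = f x.c := rfl

/-- Evaluation at a root. -/
def ev {R S : Type} [CommRing R] [CommRing S] (f : R →+* S) (t : S) (ht : t ^ 3 + t + 1 = 0) :
    Cub R →+* S where
  toFun x := f x.a + f x.b * t + f x.c * t ^ 2
  map_one' := by simp
  map_zero' := by simp
  map_mul' x y := by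
    simp only [mul_a, mul_b, mul_c, map_sub, map_add, map_mul]
    linear_combination (- (f x.b * f y.c + f x.c * f y.b) - f x.c * f y.c * t) * ht
  map_add' x y := by simp only [add_a, add_b, add_c, map_add]; ring

lemma ev_apply {R S : Type} [CommRing R] [CommRing S] (f : R →+* S) (t : S)
    (ht : t ^ 3 + t + 1 = 0) (x : Cub R) :
    ev f t ht x = f x.a + f x.b * t + f x.c * t ^ 2 := rfl

lemma norm_map {R S : Type} [CommRing R] [CommRing S] (f : R →+* S) (x : Cub R) :
    norm (map f x) = f (norm x) := by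
  simp only [norm, map_a, map_b, map_c, map_add, map_sub, map_mul, map_pow, map_ofNat]

/-- divisibility by an integer can be tested coordinatewise -/
lemma intCast_dvd_iff (n : ℤ) (x : Cub ℤ) : (n : Cub ℤ) ∣ x ↔ n ∣ x.a ∧ n ∣ x.b ∧ n ∣ x.c := by
  constructor
  · rintro ⟨y, rfl⟩
    simp
  · rintro ⟨⟨a, ha⟩, ⟨b, hb⟩, ⟨c, hc⟩⟩
    exact ⟨⟨a, b, c⟩, by ext <;> simp [ha, hb, hc]⟩

lemma intCast_dvd_iff_map (n : ℕ) (x : Cub ℤ) :
    ((n : ℤ) : Cub ℤ) ∣ x ↔ map (Int.castRingHom (ZMod n)) x = 0 := by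
  rw [intCast_dvd_iff]
  constructor
  · rintro ⟨h1, h2, h3⟩
    ext
    · simpa using (ZMod.intCast_zmod_eq_zero_iff_dvd _ n).2 h1
    · simpa using (ZMod.intCast_zmod_eq_zero_iff_dvd _ n).2 h2
    · simpa using (ZMod.intCast_zmod_eq_zero_iff_dvd _ n).2 h3
  · intro h
    refine ⟨?_, ?_, ?_⟩
    · have := congrArg Cub.a h
      exact (ZMod.intCast_zmod_eq_zero_iff_dvd _ n).1 (by simpa using this)
    · have := congrArg Cub.b h
      exact (ZMod.intCast_zmod_eq_zero_iff_dvd _ n).1 (by simpa using this)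
    · have := congrArg Cub.c h
      exact (ZMod.intCast_zmod_eq_zero_iff_dvd _ n).1 (by simpa using this)

lemma two_norm_aux : ∀ a b c : ZMod 2,
    norm (⟨a, b, c⟩ : Cub (ZMod 2)) = 0 → a = 0 ∧ b = 0 ∧ c = 0 := by decide

lemma two_dvd_of_norm {x : Cub ℤ} (h : (2 : ℤ) ∣ norm x) : (2 : Cub ℤ) ∣ x := by
  have h1 : norm (map (Int.castRingHom (ZMod 2)) x) = 0 := by
    rw [norm_map]
    exact (ZMod.intCast_zmod_eq_zero_iff_dvd _ 2).2 h
  have h2 := two_norm_aux _ _ _ h1
  have h3 : map (Int.castRingHom (ZMod 2)) x = 0 := by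
    ext
    · exact h2.1
    · exact h2.2.1
    · exact h2.2.2
  have := (intCast_dvd_iff_map 2 x).2 h3
  simpa using this

lemma norm_intCast (n : ℤ) : norm (n : Cub ℤ) = n ^ 3 := by
  simp [norm]

lemma norm_two : norm (2 : Cub ℤ) = 8 := by
  have := norm_intCast 2
  simpa using this

lemma norm_eq_zero {x : Cub ℤ} : norm x = 0 ↔ x = 0 := by
  constructor
  · -- descent on the sum of the absolute values of the coordinates
    intro h
    by_contra hx
    have key : ∀ n : ℕ, ∀ y : Cub ℤ, y.a.natAbs + y.b.natAbs + y.c.natAbs = n →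
        norm y = 0 → y = 0 := by
      intro n
      induction n using Nat.strong_induction_on with
      | _ n ih =>
        intro y hy hn
        obtain ⟨z, hz⟩ := two_dvd_of_norm (x := y) (by rw [hn]; exact dvd_zero _)
        have hzn : norm z = 0 := by
          rw [hz, norm_mul, norm_two] at hn
          omega
        by_cases hz0 : z = 0
        · rw [hz, hz0, mul_zero]
        · have ha : y.a = 2 * z.a := by rw [hz]; simp
          have hb : y.b = 2 * z.b := by rw [hz]; simp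
          have hc : y.c = 2 * z.c := by rw [hz]; simp
          have hpos : 0 < z.a.natAbs + z.b.natAbs + z.c.natAbs := by
            by_contra hcon
            apply hz0
            ext
            · simp only [zero_a]; omega
            · simp only [zero_b]; omega
            · simp only [zero_c]; omega
          have hlt : z.a.natAbs + z.b.natAbs + z.c.natAbs < n := by
            rw [ha, hb, hc] at hy
            simp only [Int.natAbs_mul] at hy
            norm_num at hy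
            omega
          exact absurd (ih _ hlt z rfl hzn) hz0
    exact hx (key _ x rfl h)
  · rintro rfl
    simp [norm]

instance : Nontrivial (Cub ℤ) := ⟨⟨0, 1, by intro h; have := congrArg Cub.a h; simp at this⟩⟩

instance : NoZeroDivisors (Cub ℤ) where
  eq_zero_or_eq_zero_of_mul_eq_zero := by
    intro x y h
    have h1 : norm x * norm y = 0 := by rw [← norm_mul, h, norm_eq_zero.2 rfl]
    rcases mul_eq_zero.1 h1 with h | h
    · exact Or.inl (norm_eq_zero.1 h)
    · exact Or.inr (norm_eq_zero.1 h)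

instance : IsDomain (Cub ℤ) := NoZeroDivisors.to_isDomain _

/-! ### The real embedding -/

lemma exists_root : ∃ t : ℝ, t ^ 3 + t + 1 = 0 ∧ -0.683 < t ∧ t < -0.682 := by
  have hc : ContinuousOn (fun t : ℝ => t ^ 3 + t + 1) (Set.Icc (-0.683) (-0.682)) := by
    fun_prop
  have h := intermediate_value_Ioo (by norm_num : (-0.683 : ℝ) ≤ -0.682) hc
  have h0 : (0 : ℝ) ∈ Set.Ioo ((-0.683 : ℝ) ^ 3 + -0.683 + 1) ((-0.682) ^ 3 + -0.682 + 1) := by
    constructor <;> norm_num
  obtain ⟨t, ht, ht2⟩ := h h0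
  exact ⟨t, ht2, ht.1, ht.2⟩

/-- the real root of `X^3+X+1` -/
noncomputable def tt : ℝ := exists_root.choose

lemma tt_rel : tt ^ 3 + tt + 1 = 0 := exists_root.choose_spec.1
lemma tt_lb : -0.683 < tt := exists_root.choose_spec.2.1
lemma tt_ub : tt < -0.682 := exists_root.choose_spec.2.2

/-- The positive semidefinite quadratic form `|a + bθ₂ + cθ₂²|²`. -/
noncomputable def psi (a b c : ℝ) : ℝ :=
  a ^ 2 + (1 + tt ^ 2) * b ^ 2 + (1 - tt + tt ^ 2) * c ^ 2 - tt * a * b
    - (2 + tt ^ 2) * a * c + b * c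

/-- The value at the real place. -/
noncomputable def phi (a b c : ℝ) : ℝ := a + b * tt + c * tt ^ 2

lemma norm_eq_phi_psi (a b c : ℝ) : norm (⟨a, b, c⟩ : Cub ℝ) = phi a b c * psi a b c := by
  have h := tt_rel
  simp only [norm, phi, psi]
  linear_combination (a*c^2*tt - b^2*c*tt - c^3*tt + 2*a*b*c - b*c^2 - b^3 + c^3) * h

lemma psi_nonneg (a b c : ℝ) : 0 ≤ psi a b c := by
  have h := tt_rel
  have h1 : 4 * (4 + 3 * tt ^ 2) * psi a b c =
      (4 + 3 * tt ^ 2) * (2 * a - tt * b - (2 + tt ^ 2) * c) ^ 2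
        + ((4 + 3 * tt ^ 2) * b + (3 - tt) * c) ^ 2 := by
    simp only [psi]
    linear_combination (-3*c^2*tt^3 - 6*b*c*tt^2 - c^2*tt - 8*b*c - 9*c^2) * h
  have h2 : 0 ≤ 4 * (4 + 3 * tt ^ 2) * psi a b c := by rw [h1]; positivity
  have h3 : 0 < 4 * (4 + 3 * tt ^ 2) := by positivity
  exact nonneg_of_mul_nonneg_right h2 h3 |> fun h => h

lemma amgm (u v : ℝ) (hu : 0 ≤ u) (hv : 0 ≤ v) : 27 * (u * v ^ 2) ≤ (u + 2 * v) ^ 3 := by
  have : (u + 2 * v) ^ 3 - 27 * (u * v ^ 2) = (u - v) ^ 2 * (u + 8 * v) := by ring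
  have h2 : 0 ≤ (u - v) ^ 2 * (u + 8 * v) := by positivity
  linarith

lemma covering (a b c : ℝ) : ∃ A B C : ℤ,
    |norm (⟨a - A, b - B, c - C⟩ : Cub ℝ)| < 1 := by
  -- coordinates in the basis `1, θ, θ^2+1` : p = a - c, q = b, r = c
  obtain ⟨C, hC⟩ : ∃ C : ℤ, |c - C| ≤ 1 / 2 := ⟨round c, abs_sub_round c⟩
  obtain ⟨B, hB⟩ : ∃ B : ℤ, |b - B| ≤ 1 / 2 := ⟨round b, abs_sub_round b⟩
  obtain ⟨A0, hA0⟩ : ∃ A : ℤ, |(a - c + (c - C) / 3) - A| ≤ 1 / 2 := ⟨round _, abs_sub_round _⟩
  refine ⟨A0 + C, B, C, ?_⟩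
  set r := c - C with hr
  set q := b - B with hq
  set p' := (a - c + r / 3) - A0 with hp'
  have hA : a - ((A0 + C : ℤ) : ℝ) = p' - r / 3 + r := by
    push_cast; rw [hp', hr]; ring
  rw [hA, norm_eq_phi_psi]
  have hpos := psi_nonneg (p' - r / 3 + r) q r
  set ps := psi (p' - r / 3 + r) q r with hps
  set ph := phi (p' - r / 3 + r) q r with hph
  have hT : ph ^ 2 + 2 * ps = 3 * p' ^ 2 + (3 * tt ^ 2 + 2) * q ^ 2
      + (tt ^ 2 - 3 * tt + 2 / 3) * r ^ 2 - 2 * tt * q * r := by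
    rw [hph, hps]; simp only [phi, psi]
    linear_combination (2 * q * r + tt * r ^ 2) * tt_rel
  have h1 := tt_lb
  have h2 := tt_ub
  have hr2 : r ^ 2 ≤ 1 / 4 := by
    have := abs_le.1 hC; nlinarith [this.1, this.2]
  have hq2 : q ^ 2 ≤ 1 / 4 := by
    have := abs_le.1 hB; nlinarith [this.1, this.2]
  have hp2 : p' ^ 2 ≤ 1 / 4 := by
    have := abs_le.1 hA0; nlinarith [this.1, this.2]
  have hqr : q * r ≤ 1 / 4 := by nlinarith [sq_nonneg (q - r)]
  have hqr' : -(1 / 4) ≤ q * r := by nlinarith [sq_nonneg (q + r)]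
  have ht2 : tt ^ 2 ≤ 0.467 := by nlinarith
  have hlt : ph ^ 2 + 2 * ps < 3 := by
    rw [hT]
    have e1 : (3 * tt ^ 2 + 2) * q ^ 2 ≤ (3 * 0.467 + 2) * (1 / 4) := by
      apply mul_le_mul (by linarith) hq2 (by positivity) (by norm_num)
    have e2 : (tt ^ 2 - 3 * tt + 2 / 3) * r ^ 2 ≤ (0.467 + 3 * 0.683 + 2 / 3) * (1 / 4) := by
      apply mul_le_mul (by linarith) hr2 (by positivity) (by norm_num)
    have e3 : (-tt) * (q * r) ≤ (-tt) * (1 / 4) := mul_le_mul_of_nonneg_left hqr (by linarith)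
    linarith
  have hnn : 0 ≤ ph ^ 2 + 2 * ps := by positivity
  have hA := amgm (ph ^ 2) ps (by positivity) hpos
  have hcube : (ph ^ 2 + 2 * ps) ^ 3 < 27 := by
    calc (ph ^ 2 + 2 * ps) ^ 3 < 3 ^ 3 := by gcongr
      _ = 27 := by norm_num
  have hsq : (ph * ps) ^ 2 < 1 := by
    have : (ph * ps) ^ 2 = ph ^ 2 * ps ^ 2 := by ring
    rw [this]; linarith
  exact (sq_lt_one_iff_abs_lt_one _).1 hsq

end Cub

end Pool.Agent.H27
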