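import Pool.Agent.H27.Reduction

set_option autoImplicit false

namespace Pool.Agent.H27

open Cub

/-- Parametrisation of the conic `v² + 2uw - w² = 0`. -/
lemma conic {X Y : ℤ} (hXY : IsCoprime X Y) {γ : Cub ℤ}
    (h : (Y : Cub ℤ) - th * (X : Cub ℤ) = γ ^ 2) :
    (∃ m n : ℤ, ¬ (2 : ℤ) ∣ m ∧ ¬ (2 : ℤ) ∣ n ∧ X = m ^ 4 + m ^ 3 * n + m * n ^ 3) ∨
    (∃ m n : ℤ, IsCoprime m n ∧ ¬ (2 : ℤ) ∣ m - n ∧ X = 4 * (m ^ 4 + m ^ 3 * n + m * n ^ 3) ∧
      Y = (m ^ 2 - n ^ 2) ^ 2 - 8 * m ^ 3 * n) := by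
  obtain ⟨u, v, w⟩ := γ
  have hY : Y = u ^ 2 - 2 * v * w := by
    have := congrArg Cub.a h
    simp [pow_succ] at this
    linarith
  have hX : X = w ^ 2 + 2 * v * w - 2 * u * v := by
    have := congrArg Cub.b h
    simp [pow_succ] at this
    linarith
  have hc : v ^ 2 + 2 * u * w - w ^ 2 = 0 := by
    have := congrArg Cub.c h
    simp [pow_succ] at this
    linarith
  have huw : IsCoprime u w := by
    apply isCoprime_of_prime_dvd
    · rintro ⟨rfl, rfl⟩
      have hv : v = 0 := by nlinarith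
      subst hv
      rw [hX, hY] at hXY
      obtain ⟨a, b, hab⟩ := hXY
      simp at hab
    · intro p hp h1 h2
      have h3 : p ∣ v ^ 2 := by
        have : v ^ 2 = w * (w - 2 * u) := by linarith
        rw [this]; exact Dvd.dvd.mul_right h2 _
      have h4 := hp.dvd_of_dvd_pow h3
      have h5 : p ∣ X := by
        obtain ⟨a, ha⟩ := h2
        obtain ⟨b, hb⟩ := h4
        rw [hX, ha, hb]; exact ⟨p * a ^ 2 + 2 * b * p * a - 2 * u * b, by ring⟩
      have h6 : p ∣ Y := by
        obtain ⟨a, ha⟩ := h1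
        obtain ⟨b, hb⟩ := h4
        rw [hY, ha, hb]; exact ⟨p * a ^ 2 - 2 * b * w, by ring⟩
      exact hp.not_isUnit (hXY.isUnit_of_dvd' h5 h6)
  rcases Int.even_or_odd w with hw | hw
  · right
    obtain ⟨w', hw'⟩ := hw
    have hw2 : w = 2 * w' := by omega
    have hv : (2 : ℤ) ∣ v := by
      have : (2 : ℤ) ∣ v ^ 2 := ⟨w * (w' - u), by rw [hw2] at hc ⊢; linarith⟩
      exact Int.prime_two.dvd_of_dvd_pow this
    obtain ⟨v', hv'⟩ := hv
    have hprod : w' * (w' - u) = v' ^ 2 := by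
      rw [hw2, hv'] at hc; linarith
    have huodd : ¬ (2 : ℤ) ∣ u := by
      intro h'
      have := huw.isUnit_of_dvd' h' ⟨w', hw2⟩
      exact Int.prime_two.not_isUnit this
    have hcop : IsCoprime w' (w' - u) := by
      have h1 : IsCoprime u w' := by rw [hw2] at huw; exact huw.of_mul_right_right
      have h2 := h1.symm.neg_right.add_mul_left_right 1
      have e : w' - u = -u + w' * 1 := by ring
      rw [e]; exact h2
    obtain ⟨m, hm⟩ := Int.sq_of_isCoprime hcop hprod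
    obtain ⟨n, hn⟩ := Int.sq_of_isCoprime hcop.symm (by rw [mul_comm]; exact hprod)
    -- a helper handling one sign pattern
    have main : ∀ m n : ℤ, (w' = m ^ 2 ∧ w' - u = n ^ 2 ∨ w' = -m ^ 2 ∧ w' - u = -n ^ 2) →
        ∃ m n : ℤ, IsCoprime m n ∧ ¬ (2 : ℤ) ∣ m - n ∧ X = 4 * (m ^ 4 + m ^ 3 * n + m * n ^ 3) ∧
          Y = (m ^ 2 - n ^ 2) ^ 2 - 8 * m ^ 3 * n := by
      intro m n hmn
      have hv2 : v' ^ 2 = (m * n) ^ 2 := by
        rw [← hprod]
        rcases hmn with ⟨h1, h2⟩ | ⟨h1, h2⟩ <;> rw [h2, h1] <;> ring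
      have hcopmn : IsCoprime m n := by
        have : IsCoprime (m ^ 2) (n ^ 2) := by
          rcases hmn with ⟨h1, h2⟩ | ⟨h1, h2⟩
          · rw [← h1, ← h2]; exact hcop
          · have h3 := hcop
            rw [h2, h1] at h3
            exact (IsCoprime.neg_neg_iff _ _).1 h3
        exact (IsCoprime.pow_iff (by norm_num) (by norm_num)).1 this
      have hpar : ¬ (2 : ℤ) ∣ m - n := by
        intro h'
        apply huodd
        obtain ⟨k, hk⟩ := h'
        have hmk : m = n + 2 * k := by linarith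
        rcases hmn with ⟨h1, h2⟩ | ⟨h1, h2⟩
        · refine ⟨2 * k * n + 2 * k ^ 2, ?_⟩
          have : u = m ^ 2 - n ^ 2 := by linarith
          rw [this, hmk]; ring
        · refine ⟨-(2 * k * n + 2 * k ^ 2), ?_⟩
          have : u = n ^ 2 - m ^ 2 := by linarith
          rw [this, hmk]; ring
      have hXe : X = w ^ 2 + 2 * v * w - 2 * u * v := hX
      have hYe : Y = u ^ 2 - 2 * v * w := hY
      rcases sq_eq_sq_iff_eq_or_eq_neg.1 hv2 with hvm | hvm
      · rcases hmn with ⟨h1, h2⟩ | ⟨h1, h2⟩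
        · refine ⟨m, n, hcopmn, hpar, ?_, ?_⟩
          · have hu : u = m ^ 2 - n ^ 2 := by linarith
            rw [hXe, hw2, hv', hvm, hu, h1]; ring
          · have hu : u = m ^ 2 - n ^ 2 := by linarith
            rw [hYe, hw2, hv', hvm, hu, h1]; ring
        · refine ⟨m, -n, hcopmn.neg_right, ?_, ?_, ?_⟩
          · intro h'; apply hpar
            have : m - n = (m - -n) - 2 * n := by ring
            rw [this]; exact dvd_sub h' (dvd_mul_right 2 n)
          · have hu : u = n ^ 2 - m ^ 2 := by linarith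
            rw [hXe, hw2, hv', hvm, hu, h1]; ring
          · have hu : u = n ^ 2 - m ^ 2 := by linarith
            rw [hYe, hw2, hv', hvm, hu, h1]; ring
      · rcases hmn with ⟨h1, h2⟩ | ⟨h1, h2⟩
        · refine ⟨m, -n, hcopmn.neg_right, ?_, ?_, ?_⟩
          · intro h'; apply hpar
            have : m - n = (m - -n) - 2 * n := by ring
            rw [this]; exact dvd_sub h' (dvd_mul_right 2 n)
          · have hu : u = m ^ 2 - n ^ 2 := by linarith
            rw [hXe, hw2, hv', hvm, hu, h1]; ring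
          · have hu : u = m ^ 2 - n ^ 2 := by linarith
            rw [hYe, hw2, hv', hvm, hu, h1]; ring
        · refine ⟨m, n, hcopmn, hpar, ?_, ?_⟩
          · have hu : u = n ^ 2 - m ^ 2 := by linarith
            rw [hXe, hw2, hv', hvm, hu, h1]; ring
          · have hu : u = n ^ 2 - m ^ 2 := by linarith
            rw [hYe, hw2, hv', hvm, hu, h1]; ring
    rcases hm with hm | hm <;> rcases hn with hn | hn
    · exact main m n (Or.inl ⟨hm, hn⟩)
    · -- mixed signs: one of them is zero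
      have h0 : (m * n) ^ 2 = 0 := by
        have : v' ^ 2 = -(m * n) ^ 2 := by rw [← hprod, hn, hm]; ring
        nlinarith [sq_nonneg v', sq_nonneg (m * n)]
      have h1 : m * n = 0 := pow_eq_zero_iff (two_ne_zero) |>.1 h0
      rcases mul_eq_zero.1 h1 with h2 | h2
      · exact main m n (Or.inr ⟨by rw [hm, h2]; ring, hn⟩)
      · exact main m n (Or.inl ⟨hm, by rw [hn, h2]; ring⟩)
    · have h0 : (m * n) ^ 2 = 0 := by
        have : v' ^ 2 = -(m * n) ^ 2 := by rw [← hprod, hn, hm]; ring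
        nlinarith [sq_nonneg v', sq_nonneg (m * n)]
      have h1 : m * n = 0 := pow_eq_zero_iff (two_ne_zero) |>.1 h0
      rcases mul_eq_zero.1 h1 with h2 | h2
      · exact main m n (Or.inl ⟨by rw [hm, h2]; ring, hn⟩)
      · exact main m n (Or.inr ⟨hm, by rw [hn, h2]; ring⟩)
    · exact main m n (Or.inr ⟨hm, hn⟩)
  · left
    have hwodd : ¬ (2 : ℤ) ∣ w := by
      intro h'; obtain ⟨k, hk⟩ := hw; omega
    have hprod : w * (w - 2 * u) = v ^ 2 := by linarith
    have hcop : IsCoprime w (w - 2 * u) := by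
      have h1 : IsCoprime w 2 :=
        ((Int.prime_two.coprime_iff_not_dvd).2 hwodd).symm
      have h2 : IsCoprime w (2 * u) := h1.mul_right huw.symm
      have h3 := h2.neg_right.add_mul_left_right 1
      have e : w - 2 * u = -(2 * u) + w * 1 := by ring
      rw [e]; exact h3
    obtain ⟨m, hm⟩ := Int.sq_of_isCoprime hcop hprod
    obtain ⟨n, hn⟩ := Int.sq_of_isCoprime hcop.symm (by rw [mul_comm]; exact hprod)
    have hmodd : ¬ (2 : ℤ) ∣ m := by
      intro h'; apply hwodd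
      have : (2 : ℤ) ∣ m ^ 2 := dvd_pow h' two_ne_zero
      rcases hm with hm | hm <;> rw [hm]
      · exact this
      · exact (dvd_neg).2 this
    have hnodd : ¬ (2 : ℤ) ∣ n := by
      intro h'; apply hwodd
      have h1 : (2 : ℤ) ∣ n ^ 2 := dvd_pow h' two_ne_zero
      have h2 : (2 : ℤ) ∣ w - 2 * u := by
        rcases hn with hn | hn <;> rw [hn]
        · exact h1
        · exact (dvd_neg).2 h1
      have : w = (w - 2 * u) + 2 * u := by ring
      rw [this]; exact dvd_add h2 (dvd_mul_right 2 u)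
    have hne : ¬ (2 : ℤ) ∣ -n := by rwa [dvd_neg]
    have hXe : X = w ^ 2 + v * (w + (w - 2 * u)) := by rw [hX]; ring
    have hmn0 : m * n ≠ 0 := by
      apply mul_ne_zero
      · rintro rfl; exact hmodd (dvd_zero _)
      · rintro rfl; exact hnodd (dvd_zero _)
    have hpos : 0 < (m * n) ^ 2 := by positivity
    rcases hm with hm | hm <;> rcases hn with hn | hn
    · have hv2 : v ^ 2 = (m * n) ^ 2 := by rw [← hprod, hn, hm]; ring
      rcases sq_eq_sq_iff_eq_or_eq_neg.1 hv2 with hvm | hvm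
      · exact ⟨m, n, hmodd, hnodd, by rw [hXe, hn, hm, hvm]; ring⟩
      · exact ⟨m, -n, hmodd, hne, by rw [hXe, hn, hm, hvm]; ring⟩
    · exfalso
      have hv2 : v ^ 2 = -(m * n) ^ 2 := by rw [← hprod, hn, hm]; ring
      nlinarith [sq_nonneg v]
    · exfalso
      have hv2 : v ^ 2 = -(m * n) ^ 2 := by rw [← hprod, hn, hm]; ring
      nlinarith [sq_nonneg v]
    · have hv2 : v ^ 2 = (m * n) ^ 2 := by rw [← hprod, hn, hm]; ring
      rcases sq_eq_sq_iff_eq_or_eq_neg.1 hv2 with hvm | hvm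
      · exact ⟨m, -n, hmodd, hne, by rw [hXe, hn, hm, hvm]; ring⟩
      · exact ⟨m, n, hmodd, hnodd, by rw [hXe, hn, hm, hvm]; ring⟩

lemma int_fourth {a b c : ℤ} (hab : IsCoprime a b) (h : a * b = c ^ 4) :
    ∃ d : ℤ, a = d ^ 4 ∨ a = -d ^ 4 := by
  obtain ⟨d, hd⟩ := exists_associated_pow_of_mul_eq_pow' hab h
  refine ⟨d, ?_⟩
  rcases Int.associated_iff.1 hd with h1 | h1
  · exact Or.inl h1.symm
  · right; omega

lemma dec4a : ∀ a m n : ZMod 4, 2 * m = 2 → 2 * n = 2 → a ^ 4 ≠ m ^ 4 + m ^ 3 * n + m * n ^ 3 := by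
  decide

lemma dec4b : ∀ b y : ZMod 4, 2 * y = 2 → y ^ 3 + y + 1 ≠ b ^ 4 := by decide

lemma dec16a : ∀ a : ZMod 16, 8 * a = 8 → a ^ 4 = 1 := by decide

lemma dec16b : ∀ y b : ZMod 16, 8 * y = 0 → y ^ 3 + y + 1 = b ^ 4 → y = 0 := by decide

lemma odd_cast4 {m : ℤ} (h : ¬ (2 : ℤ) ∣ m) : 2 * (m : ZMod 4) = 2 := by
  obtain ⟨k, hk⟩ : ∃ k, m = 2 * k + 1 := ⟨m / 2, by omega⟩
  rw [hk]; push_cast
  have : (4 : ZMod 4) = 0 := by decide
  linear_combination (k : ZMod 4) * this

lemma odd_cast16 {m : ℤ} (h : ¬ (2 : ℤ) ∣ m) : 8 * (m : ZMod 16) = 8 := by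
  obtain ⟨k, hk⟩ : ∃ k, m = 2 * k + 1 := ⟨m / 2, by omega⟩
  rw [hk]; push_cast
  have : (16 : ZMod 16) = 0 := by decide
  linear_combination (k : ZMod 16) * this

lemma even_cast16 {m : ℤ} (h : (2 : ℤ) ∣ m) : 8 * (m : ZMod 16) = 0 := by
  obtain ⟨k, hk⟩ := h
  rw [hk]; push_cast
  have : (16 : ZMod 16) = 0 := by decide
  linear_combination (k : ZMod 16) * this

lemma not_sq_40879 (b : ℤ) (hb2 : b ^ 2 = 40879) : False := by
  have hb3 : b.natAbs ^ 2 = 40879 := by
    have := congrArg Int.natAbs hb2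
    rw [Int.natAbs_pow] at this
    exact this
  have h8 : b.natAbs ≤ 202 ∨ 203 ≤ b.natAbs := by omega
  rcases h8 with h8 | h8
  · have := Nat.pow_le_pow_left h8 2
    omega
  · have := Nat.pow_le_pow_left h8 2
    omega

set_option maxHeartbeats 4000000 in
lemma core {a y b : ℤ} (ha : a ≠ 0) (hb : b ≠ 0) (hy : y ≠ 0) (hay : IsCoprime a y)
    (h : y ^ 3 + y * a ^ 8 + a ^ 12 = b ^ 4)
    (ih : ∀ x' y' z' : ℤ, z'.natAbs < (a * b).natAbs →
      x' ^ 4 + x' ^ 3 * y' + x' * y' ^ 3 = z' ^ 4 → x' * y' * z' = 0) : False := by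
  have hXY : IsCoprime (a ^ 4) y := hay.pow_left
  have hL : y ^ 3 + y * (a ^ 4) ^ 2 + (a ^ 4) ^ 3 = b ^ 4 := by rw [← h]; ring
  rcases lin_classes hXY hb hL with ⟨γ, hγ⟩ | ⟨β, τ, hβ, hτ⟩ | ⟨β, hβ⟩
  · -- even class
    rcases conic hXY hγ with ⟨m, n, hm, hn, h1⟩ | ⟨m, n, hmn, hpar, h1, h2⟩
    · apply dec4a (a : ZMod 4) m n (odd_cast4 hm) (odd_cast4 hn)
      have := congrArg (fun t : ℤ => (t : ZMod 4)) h1
      push_cast at this
      exact this
    · have ha2 : (2 : ℤ) ∣ a := by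
        have : (2 : ℤ) ∣ a ^ 4 := by rw [h1]; exact ⟨2 * (m ^ 4 + m ^ 3 * n + m * n ^ 3), by ring⟩
        exact Int.prime_two.dvd_of_dvd_pow this
      obtain ⟨a1, ha1⟩ := ha2
      have h3 : m * (m ^ 3 + m ^ 2 * n + n ^ 3) = 4 * a1 ^ 4 := by
        rw [ha1] at h1
        have : 4 * (m * (m ^ 3 + m ^ 2 * n + n ^ 3)) = 4 * (4 * a1 ^ 4) := by
          linear_combination -h1
        linarith
      have hmeven : (2 : ℤ) ∣ m := by
        by_contra hmo
        have hne : (2 : ℤ) ∣ n := by omega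
        obtain ⟨k, hk⟩ := hne
        have h4 : (2 : ℤ) ∣ m ^ 4 := by
          refine ⟨2 * a1 ^ 4 - (m ^ 3 * k + 4 * m * k ^ 3), ?_⟩
          rw [hk] at h3
          linear_combination h3
        exact hmo (Int.prime_two.dvd_of_dvd_pow h4)
      have hnodd : ¬ (2 : ℤ) ∣ n := by omega
      have hcop1 : IsCoprime m (m ^ 3 + m ^ 2 * n + n ^ 3) := by
        have h4 : IsCoprime m (n ^ 3) := hmn.pow_right
        have h5 := h4.add_mul_left_right (m ^ 2 + m * n)
        have e : m ^ 3 + m ^ 2 * n + n ^ 3 = n ^ 3 + m * (m ^ 2 + m * n) := by ring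
        rw [e]; exact h5
      have hodd1 : ¬ (2 : ℤ) ∣ m ^ 3 + m ^ 2 * n + n ^ 3 := by
        intro h'
        exact Int.prime_two.not_isUnit (hcop1.isUnit_of_dvd' hmeven h')
      have h4m : (4 : ℤ) ∣ m := by
        have h5 : IsCoprime ((2 : ℤ) ^ 2) (m ^ 3 + m ^ 2 * n + n ^ 3) :=
          ((Int.prime_two.coprime_iff_not_dvd).2 hodd1).pow_left
        have h6 : (2 : ℤ) ^ 2 ∣ m * (m ^ 3 + m ^ 2 * n + n ^ 3) := by
          rw [h3]; exact ⟨a1 ^ 4, by norm_num⟩
        have := h5.dvd_of_dvd_mul_right h6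
        norm_num at this
        exact this
      obtain ⟨m', hm'⟩ := h4m
      have hcop2 : IsCoprime m' (m ^ 3 + m ^ 2 * n + n ^ 3) := by
        have h5 := hcop1
        nth_rewrite 1 [hm'] at h5
        exact h5.of_mul_left_right
      have h5 : m' * (m ^ 3 + m ^ 2 * n + n ^ 3) = a1 ^ 4 := by
        have : 4 * (m' * (m ^ 3 + m ^ 2 * n + n ^ 3)) = 4 * a1 ^ 4 := by
          rw [← h3]; nth_rewrite 3 [hm']; ring
        linarith
      have ha10 : a1 ≠ 0 := by rintro rfl; apply ha; rw [ha1]; ring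
      -- normalise the sign
      obtain ⟨M, N, m1, hMN, hNodd, hM, hR, hyMN⟩ : ∃ M N m1 : ℤ, IsCoprime M N ∧ ¬ (2 : ℤ) ∣ N ∧
          M = 4 * m1 ^ 4 ∧ m1 ^ 4 * (M ^ 3 + M ^ 2 * N + N ^ 3) = a1 ^ 4 ∧
          y = (M ^ 2 - N ^ 2) ^ 2 - 8 * M ^ 3 * N := by
        obtain ⟨m1, hm1 | hm1⟩ := int_fourth hcop2 h5
        · exact ⟨m, n, m1, hmn, hnodd, by rw [hm', hm1], by rw [← hm1]; exact h5, h2⟩
        · refine ⟨-m, -n, m1, hmn.neg_neg, by rwa [dvd_neg], by rw [hm', hm1]; ring, ?_,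
            by rw [h2]; ring⟩
          have e : m1 ^ 4 = -m' := by linarith
          rw [e, ← h5]; ring
      clear h1 h2 h3 h5 hm' hcop1 hcop2 hodd1 hmeven hnodd hmn hpar
      have hcop3 : IsCoprime (m1 ^ 4) (M ^ 3 + M ^ 2 * N + N ^ 3) := by
        have h4 : IsCoprime M (N ^ 3) := hMN.pow_right
        have h5 := h4.add_mul_left_right (M ^ 2 + M * N)
        have e : N ^ 3 + M * (M ^ 2 + M * N) = M ^ 3 + M ^ 2 * N + N ^ 3 := by ring
        rw [e] at h5
        nth_rewrite 1 [hM] at h5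
        exact h5.of_mul_left_right
      have hm10 : m1 ≠ 0 := by
        rintro rfl
        apply ha10
        have : a1 ^ 4 = 0 := by rw [← hR]; ring
        exact pow_eq_zero_iff (by norm_num) |>.1 this
      obtain ⟨n1, hn1⟩ : ∃ n1 : ℤ, M ^ 3 + M ^ 2 * N + N ^ 3 = n1 ^ 4 := by
        obtain ⟨n1, hn1 | hn1⟩ := int_fourth hcop3.symm (by rw [mul_comm]; exact hR)
        · exact ⟨n1, hn1⟩
        · exfalso
          rw [hn1] at hR
          have h6 : 0 < a1 ^ 4 := by positivity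
          have h7 : 0 < m1 ^ 4 := by positivity
          nlinarith [sq_nonneg (n1 ^ 2), mul_nonneg h7.le (sq_nonneg (n1 ^ 2))]
      have hn10 : n1 ≠ 0 := by
        rintro rfl
        apply ha10
        have : a1 ^ 4 = 0 := by rw [← hR, hn1]; ring
        exact pow_eq_zero_iff (by norm_num) |>.1 this
      have hL2 : N ^ 3 + N * M ^ 2 + M ^ 3 = n1 ^ 4 := by rw [← hn1]; ring
      have h4M : (4 : ℤ) ∣ M := ⟨_, hM⟩
      rcases lin_classes hMN hn10 hL2 with ⟨γ', hγ'⟩ | ⟨β, τ, hβ, -⟩ | ⟨β, hβ⟩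
      · rcases conic hMN hγ' with ⟨m2, n2, hm2, hn2, h1⟩ | ⟨m2, n2, hmn2, -, h1, h2⟩
        · apply dec4a 0 m2 n2 (odd_cast4 hm2) (odd_cast4 hn2)
          have h3 := congrArg (fun t : ℤ => (t : ZMod 4)) h1
          have h4 : ((M : ℤ) : ZMod 4) = 0 := (ZMod.intCast_zmod_eq_zero_iff_dvd _ 4).2 h4M
          push_cast at h3
          rw [← h3, h4]; ring
        · have h3 : m2 ^ 4 + m2 ^ 3 * n2 + m2 * n2 ^ 3 = m1 ^ 4 := by
            rw [hM] at h1; linarith
          have ha1n : (a1.natAbs) ^ 4 = (m1.natAbs * n1.natAbs) ^ 4 := by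
            have e : a1 ^ 4 = (m1 * n1) ^ 4 := by rw [← hR, hn1]; ring
            have := congrArg Int.natAbs e
            rw [Int.natAbs_pow, Int.natAbs_pow, Int.natAbs_mul] at this
            exact this
          have ha1n' : a1.natAbs = m1.natAbs * n1.natAbs :=
            Nat.pow_left_injective (by norm_num : 4 ≠ 0) ha1n
          have hlt : m1.natAbs < (a * b).natAbs := by
            rw [Int.natAbs_mul, ha1, Int.natAbs_mul, ha1n']
            have e1 : 1 ≤ m1.natAbs := Int.natAbs_pos.2 hm10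
            have e2 : 1 ≤ n1.natAbs := Int.natAbs_pos.2 hn10
            have e3 : 1 ≤ b.natAbs := Int.natAbs_pos.2 hb
            have e4 : (2 : ℤ).natAbs = 2 := rfl
            rw [e4]
            calc m1.natAbs < 2 * (m1.natAbs * 1) * 1 := by omega
              _ ≤ 2 * (m1.natAbs * n1.natAbs) * b.natAbs := by gcongr
          have h4 := ih m2 n2 m1 hlt h3
          rcases mul_eq_zero.1 h4 with h5 | h5
          · rcases mul_eq_zero.1 h5 with h6 | h6
            · apply hm10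
              rw [h6] at h3
              have : m1 ^ 4 = 0 := by rw [← h3]; ring
              exact pow_eq_zero_iff (by norm_num) |>.1 this
            · -- `n2 = 0`
              rw [h6] at hmn2 h3 h2
              have hu : IsUnit m2 := by
                obtain ⟨p, q, hpq⟩ := hmn2
                exact IsUnit.of_mul_eq_one p (by linarith)
              have hm22 : m2 ^ 2 = 1 := by
                rcases Int.isUnit_iff.1 hu with h7 | h7 <;> rw [h7] <;> norm_num
              have hm24 : m2 ^ 4 = 1 := by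
                have : m2 ^ 4 = (m2 ^ 2) ^ 2 := by ring
                rw [this, hm22]; norm_num
              have hm14 : m1 ^ 4 = 1 := by rw [← h3, ← hm24]; ring
              have hM4 : M = 4 := by rw [hM, hm14]; norm_num
              have hN1 : N = 1 := by rw [h2, ← hm24]; ring
              have ha4 : a ^ 4 = 1296 := by
                have : a ^ 4 = 16 * a1 ^ 4 := by rw [ha1]; ring
                rw [this, ← hR, hm14, hM4, hN1]; norm_num
              have hy287 : y = -287 := by rw [hyMN, hM4, hN1]; norm_num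
              have hb4 : (b ^ 2) ^ 2 = 40879 ^ 2 := by
                have e : (b ^ 2) ^ 2 = y ^ 3 + y * (a ^ 4) ^ 2 + (a ^ 4) ^ 3 := by rw [hL]; ring
                rw [e, ha4, hy287]; norm_num
              have hb2 : b ^ 2 = 40879 := by
                rcases sq_eq_sq_iff_eq_or_eq_neg.1 hb4 with h7 | h7
                · exact h7
                · nlinarith [sq_nonneg b]
              exact not_sq_40879 b hb2
          · exact hm10 h5
      · have e : -th * β ^ 4 = -(th : Cub ℤ) * (β ^ 2) ^ 2 := by ring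
        rw [e] at hβ
        exact hNodd (class1_even h4M hβ)
      · have e : -th ^ 3 * β ^ 4 = -(th : Cub ℤ) * (th * β ^ 2) ^ 2 := by ring
        rw [e] at hβ
        exact hNodd (class1_even h4M hβ)
  · -- class `-θ`
    have haodd : ¬ (2 : ℤ) ∣ a := by
      intro h'
      have h4X : (4 : ℤ) ∣ a ^ 4 := by
        obtain ⟨k, hk⟩ := h'
        rw [hk]; exact ⟨4 * k ^ 4, by ring⟩
      have e : -th * β ^ 4 = -(th : Cub ℤ) * (β ^ 2) ^ 2 := by ring
      rw [e] at hβ
      exact Int.prime_two.not_isUnit (hay.isUnit_of_dvd' h' (class1_even h4X hβ))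
    have hyeven : (2 : ℤ) ∣ y := by
      by_contra hyo
      apply dec4b (b : ZMod 4) y (odd_cast4 hyo)
      have h1 := congrArg (fun t : ℤ => (t : ZMod 4)) hL
      push_cast at h1
      have h2 : (a : ZMod 4) ^ 4 = 1 := by
        have := odd_cast4 haodd
        revert this
        generalize (a : ZMod 4) = t
        revert t; decide
      rw [h2] at h1
      rw [← h1]; ring
    have hy16 : (16 : ℤ) ∣ y := by
      have h1 := congrArg (fun t : ℤ => (t : ZMod 16)) hL
      push_cast at h1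
      rw [dec16a _ (odd_cast16 haodd)] at h1
      have h2 := dec16b (y : ZMod 16) b (even_cast16 hyeven) (by rw [← h1]; ring)
      exact (ZMod.intCast_zmod_eq_zero_iff_dvd _ 16).1 h2
    apply hy
    have hAodd : ¬ (2 : ℤ) ∣ a ^ 2 := fun h' => haodd (Int.prime_two.dvd_of_dvd_pow h')
    apply key y (a ^ 2) τ hAodd hy16
    rw [← hτ]
    push_cast
    ring
  · have hβ' : (y : Cub ℤ) - th * ((a ^ 4 : ℤ) : Cub ℤ) = -th ^ 3 * β ^ 4 := hβ
    exact not_class3 hay hβ'

theorem main (n : ℕ) : ∀ x y z : ℤ, z.natAbs = n →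
    x ^ 4 + x ^ 3 * y + x * y ^ 3 = z ^ 4 → x * y * z = 0 := by
  induction n using Nat.strong_induction_on with
  | _ n ih =>
    intro x y z hn h
    by_contra hne
    have hz : z ≠ 0 := fun h0 => hne (by rw [h0, mul_zero])
    have hxy : x * y ≠ 0 := fun h0 => hne (by rw [h0, zero_mul])
    have hx : x ≠ 0 := fun h0 => hxy (by rw [h0, zero_mul])
    have hy : y ≠ 0 := fun h0 => hxy (by rw [h0, mul_zero])
    have hcop : IsCoprime x y := by
      apply isCoprime_of_prime_dvd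
      · rintro ⟨h0, -⟩; exact hx h0
      · rintro p hp ⟨x', hx'⟩ ⟨y', hy'⟩
        have h1 : p ^ 4 ∣ z ^ 4 := ⟨x' ^ 4 + x' ^ 3 * y' + x' * y' ^ 3, by
          rw [← h, hx', hy']; ring⟩
        obtain ⟨z', hz'⟩ := (IsIntegrallyClosed.pow_dvd_pow_iff (by norm_num)).1 h1
        have hp0 : p ≠ 0 := hp.ne_zero
        have hz'0 : z' ≠ 0 := by rintro rfl; exact hz (by rw [hz', mul_zero])
        have h2 : x' ^ 4 + x' ^ 3 * y' + x' * y' ^ 3 = z' ^ 4 := by
          have : p ^ 4 * (x' ^ 4 + x' ^ 3 * y' + x' * y' ^ 3) = p ^ 4 * z' ^ 4 := by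
            rw [hx', hy', hz'] at h; linear_combination h
          exact mul_left_cancel₀ (pow_ne_zero 4 hp0) this
        have hlt : z'.natAbs < n := by
          rw [← hn, hz', Int.natAbs_mul]
          have e1 : 2 ≤ p.natAbs := (Int.prime_iff_natAbs_prime.1 hp).two_le
          have e2 : 1 ≤ z'.natAbs := Int.natAbs_pos.2 hz'0
          nlinarith
        have h3 := ih _ hlt x' y' z' rfl h2
        apply hne
        rw [hx', hy', hz']
        have : p * x' * (p * y') * (p * z') = p ^ 3 * (x' * y' * z') := by ring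
        rw [this, h3, mul_zero]
    have hcop2 : IsCoprime x (x ^ 3 + x ^ 2 * y + y ^ 3) := by
      have h4 : IsCoprime x (y ^ 3) := hcop.pow_right
      have h5 := h4.add_mul_left_right (x ^ 2 + x * y)
      have e : x ^ 3 + x ^ 2 * y + y ^ 3 = y ^ 3 + x * (x ^ 2 + x * y) := by ring
      rw [e]; exact h5
    have hprod : x * (x ^ 3 + x ^ 2 * y + y ^ 3) = z ^ 4 := by rw [← h]; ring
    -- normalise the sign of `x`
    obtain ⟨a, y1, hay, hy1, hprod1⟩ : ∃ a y1 : ℤ, IsCoprime (a ^ 4) y1 ∧ y1 ≠ 0 ∧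
        a ^ 4 * ((a ^ 4) ^ 3 + (a ^ 4) ^ 2 * y1 + y1 ^ 3) = z ^ 4 := by
      obtain ⟨a, ha | ha⟩ := int_fourth hcop2 hprod
      · exact ⟨a, y, by rw [← ha]; exact hcop, hy, by rw [← ha]; exact hprod⟩
      · have e : a ^ 4 = -x := by linarith
        refine ⟨a, -y, by rw [e]; exact hcop.neg_neg, neg_ne_zero.2 hy, ?_⟩
        rw [e, ← hprod]; ring
    have ha0 : a ≠ 0 := by
      rintro rfl
      apply hz
      have : z ^ 4 = 0 := by rw [← hprod1]; ring
      exact pow_eq_zero_iff (by norm_num) |>.1 this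
    have hcop3 : IsCoprime (a ^ 4) ((a ^ 4) ^ 3 + (a ^ 4) ^ 2 * y1 + y1 ^ 3) := by
      have h4 : IsCoprime (a ^ 4) (y1 ^ 3) := hay.pow_right
      have h5 := h4.add_mul_left_right ((a ^ 4) ^ 2 + a ^ 4 * y1)
      have e : (a ^ 4) ^ 3 + (a ^ 4) ^ 2 * y1 + y1 ^ 3
        = y1 ^ 3 + a ^ 4 * ((a ^ 4) ^ 2 + a ^ 4 * y1) := by ring
      rw [e]; exact h5
    obtain ⟨b, hb⟩ : ∃ b : ℤ, (a ^ 4) ^ 3 + (a ^ 4) ^ 2 * y1 + y1 ^ 3 = b ^ 4 := by
      obtain ⟨b, hb | hb⟩ := int_fourth hcop3.symm (by rw [mul_comm]; exact hprod1)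
      · exact ⟨b, hb⟩
      · exfalso
        rw [hb] at hprod1
        have h6 : 0 < z ^ 4 := by positivity
        have h7 : 0 < a ^ 4 := by positivity
        nlinarith [mul_nonneg h7.le (sq_nonneg (b ^ 2))]
    have hb0 : b ≠ 0 := by
      rintro rfl
      apply hz
      have : z ^ 4 = 0 := by rw [← hprod1, hb]; ring
      exact pow_eq_zero_iff (by norm_num) |>.1 this
    have hzab : z.natAbs = (a * b).natAbs := by
      have e : z ^ 4 = (a * b) ^ 4 := by rw [← hprod1, hb]; ring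
      have := congrArg Int.natAbs e
      rw [Int.natAbs_pow, Int.natAbs_pow] at this
      exact Nat.pow_left_injective (by norm_num : 4 ≠ 0) this
    have hay' : IsCoprime a y1 := (IsCoprime.pow_left_iff (by norm_num)).1 hay
    refine core ha0 hb0 hy1 hay' (by rw [← hb]; ring) ?_
    intro x' y' z' hlt heq
    rw [← hzab, hn] at hlt
    exact ih _ hlt x' y' z' rfl heq

end Pool.Agent.H27
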