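import Pool.Agent.H27.Descent3

set_option autoImplicit false

namespace Pool.Agent.H27

namespace Cub

lemma ne_zero_of_odd {x : Cub ℤ} (hx : ¬ (2 : Cub ℤ) ∣ x) : x ≠ 0 := by
  intro h0; apply hx; rw [h0]; exact dvd_zero _

/-- Extraction of the power of two from `W k² = c (g d)²`. -/
lemma extract_pow {W k c g d' : Cub ℤ} (f : ℕ) (hf : f ≠ 0) (hW : ¬ (2 : Cub ℤ) ∣ W)
    (hgk : IsCoprime g k)
    (h : W * k ^ 2 = c * (g * (2 ^ f * d')) ^ 2) :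
    ∃ k', k = 2 ^ f * k' ∧ W * k' ^ 2 = c * (g * d') ^ 2 ∧ ¬ (2 : Cub ℤ) ∣ g := by
  have hk : (2 : Cub ℤ) ∣ k := by
    have h1 : (2 : Cub ℤ) ∣ W * k ^ 2 := by
      rw [h]
      obtain ⟨f', rfl⟩ : ∃ f', f = f' + 1 := ⟨f - 1, by omega⟩
      exact Dvd.dvd.mul_left (dvd_pow (Dvd.dvd.mul_left
        (Dvd.dvd.mul_right (dvd_pow_self 2 hf) _) _) two_ne_zero) _
    exact prime_two.dvd_of_dvd_pow (even_cancel hW h1)
  have hg : ¬ (2 : Cub ℤ) ∣ g := fun h' => not_both_even hgk h' hk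
  have h2 : (2 : Cub ℤ) ^ f ∣ k := by
    have h3 : (2 : Cub ℤ) ^ (2 * f) ∣ W * k ^ 2 := by
      rw [h]; exact ⟨c * (g * d') ^ 2, by ring⟩
    have h4 := two_pow_dvd_cancel (2 * f) hW h3
    have h5 : ((2 : Cub ℤ) ^ f) ^ 2 ∣ k ^ 2 := by
      rw [← pow_mul, mul_comm f 2]; exact h4
    exact (IsIntegrallyClosed.pow_dvd_pow_iff (by norm_num)).1 h5
  obtain ⟨k', hk'⟩ := h2
  refine ⟨k', hk', ?_, hg⟩
  have h6 : ((2 : Cub ℤ) ^ f) ^ 2 * (W * k' ^ 2) = ((2 : Cub ℤ) ^ f) ^ 2 * (c * (g * d') ^ 2) := by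
    rw [hk'] at h
    linear_combination h
  exact mul_left_cancel₀ (pow_ne_zero 2 (pow_ne_zero f prime_two.ne_zero)) h6

/-- The key statement, once the sign of `τ` is normalised.
Here `y = 2^(f+2) y'` (with `y'` odd), `τ = A + 2 σ` and `σ = 2^(f-1) σ'`. -/
lemma key_core {f : ℕ} (hf : 2 ≤ f) {y A ta σ' : Cub ℤ}
    (hy : (4 : Cub ℤ) ∣ y) (hA : (2 : Cub ℤ) ∣ A - 1)
    (hta : ta = A + 2 ^ f * σ') (hσ' : (2 : Cub ℤ) ∣ σ' + th ^ 2)
    (h : y ^ 2 + th * y * A ^ 2 + eta * A ^ 4 = eta * ta ^ 4) : False := by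
  have h1odd : ¬ (2 : Cub ℤ) ∣ 1 := fun h7 => prime_two.not_isUnit (isUnit_of_dvd_one h7)
  have hAodd : ¬ (2 : Cub ℤ) ∣ A := by
    intro h'
    apply h1odd
    have : (1 : Cub ℤ) = A - (A - 1) := by ring
    rw [this]; exact dvd_sub h' hA
  have hσodd : ¬ (2 : Cub ℤ) ∣ σ' := by
    intro h'
    apply odd_pow 2 odd_th
    have : (th : Cub ℤ) ^ 2 = (σ' + th ^ 2) - σ' := by ring
    rw [this]; exact dvd_sub hσ' h'
  set W : Cub ℤ := th * y + th ^ 2 * A ^ 2 + 2 * eta * (ta ^ 2 - A ^ 2) with hW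
  set Q : Cub ℤ := th * A ^ 2 + 2 * y + th * ta * A with hQ
  have hid := key_identity h
  rw [← hW, ← hQ] at hid
  have hd : ta - A = 2 ^ f * σ' := by rw [hta]; ring
  obtain ⟨f', hf'⟩ : ∃ f', f = f' + 2 := ⟨f - 2, by omega⟩
  have hpow : (2 : Cub ℤ) ^ f = 4 * 2 ^ f' := by rw [hf']; ring
  -- W ≡ θ² A² mod 4
  obtain ⟨y1, hy1⟩ := hy
  have hW4 : ∃ w, W = th ^ 2 * A ^ 2 + 4 * w := by
    refine ⟨th * y1 + 2 * eta * (2 ^ f' * σ') * (ta + A), ?_⟩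
    rw [hW, hy1]
    have : ta ^ 2 - A ^ 2 = (4 * 2 ^ f' * σ') * (ta + A) := by
      rw [← hpow, ← hd]; ring
    rw [this]; ring
  obtain ⟨w, hw⟩ := hW4
  have hWodd : ¬ (2 : Cub ℤ) ∣ W := by
    intro h'
    apply odd_mul (odd_pow 2 odd_th) (odd_pow 2 hAodd)
    have : (th : Cub ℤ) ^ 2 * A ^ 2 = W - 2 * (2 * w) := by rw [hw]; ring
    rw [this]; exact dvd_sub h' (dvd_mul_right 2 _)
  have hQ0 : Q ≠ 0 := by
    have : Q = 2 * (th * A ^ 2 + (4 * y1 + 2 * (th * 2 ^ f' * σ' * A))) := by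
      rw [hQ, hta, hpow, hy1]; ring
    rw [this]
    apply mul_ne_zero prime_two.ne_zero
    apply ne_zero_of_odd
    intro h'
    apply odd_mul odd_th (odd_pow 2 hAodd)
    have e1 : (th : Cub ℤ) * A ^ 2 = (th * A ^ 2 + (4 * y1 + 2 * (th * 2 ^ f' * σ' * A)))
      - 2 * (2 * y1 + th * 2 ^ f' * σ' * A) := by ring
    rw [e1]; exact dvd_sub h' (dvd_mul_right 2 _)
  have hd0 : ta - A ≠ 0 := by
    rw [hd]
    exact mul_ne_zero (pow_ne_zero f prime_two.ne_zero) (ne_zero_of_odd hσodd)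
  obtain ⟨e, g, k, n, hgk, hg0, hk0, hcase⟩ := Eprime (ne_zero_of_odd hWodd) hd0 hQ0 hid
  rw [hd] at hcase
  rcases hcase with ⟨h1, h2⟩ | ⟨h1, h2⟩
  · obtain ⟨k', hk', h3, hg⟩ := extract_pow f (by omega) hWodd hgk h1
    have h4 : (4 : Cub ℤ) ∣ (e : Cub ℤ) * (g * σ') ^ 2 - (th * A * k') ^ 2 := ⟨w * k' ^ 2, by
      rw [← h3, hw]; ring⟩
    obtain ⟨r, hr⟩ := unit_sq_mod4 e (odd_mul hg hσodd) h4
    have hri : (r : Cub ℤ) * ((r⁻¹ : (Cub ℤ)ˣ) : Cub ℤ) = 1 := Units.mul_inv r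
    have hei : ((e⁻¹ : (Cub ℤ)ˣ) : Cub ℤ) = ((r⁻¹ : (Cub ℤ)ˣ) : Cub ℤ) ^ 2 := by
      rw [hr, ← inv_pow]; push_cast; rfl
    have he : (e : Cub ℤ) = (r : Cub ℤ) ^ 2 := by rw [hr]; push_cast; rfl
    rw [hei, he] at h2
    rw [he] at h3
    set s : Cub ℤ := ((r⁻¹ : (Cub ℤ)ˣ) : Cub ℤ) with hs
    -- `k'` is odd
    have hk'odd : ¬ (2 : Cub ℤ) ∣ k' := by
      intro h'
      apply odd_mul (odd_pow 2 (odd_unit r)) (odd_pow 2 (odd_mul hg hσodd))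
      rw [← h3]; exact Dvd.dvd.mul_left (dvd_pow h' two_ne_zero) _
    have hZ := Zthm (f - 1) g (s * k') (s * n)
    have hff : f - 1 + 1 = f := by omega
    rw [hff] at hZ
    have e1 : (2 : Cub ℤ) ^ f * (s * k') = s * k := by rw [hk']; ring
    rw [e1] at hZ
    have h5 := hZ ((isCoprime_mul_unit_left_right (Units.isUnit _) g k).2 hgk)
      (odd_mul (odd_unit _) hk'odd) (by
        rw [mul_pow s n, h2]
        linear_combination (-g ^ 4 * (r * s + 1)) * hri)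
    -- `θ A s k' ≡ g σ'`
    have h6 : (2 : Cub ℤ) ∣ th * A * (s * k') - g * σ' := by
      apply even_sub_of_sq
      refine ⟨-(2 * (s ^ 2 * w * k' ^ 2)), ?_⟩
      have e2 : (g * σ') ^ 2 = s ^ 2 * (W * k' ^ 2) := by
        rw [h3]; linear_combination (-(g * σ') ^ 2 * (r * s + 1)) * hri
      rw [e2, hw]; ring
    obtain ⟨u, hu⟩ := h5
    obtain ⟨v, hv⟩ := h6
    obtain ⟨a1, ha1⟩ := hA
    obtain ⟨s1, hs1⟩ := hσ'
    have hth : (th : Cub ℤ) * eta = -1 := th_mul_eta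
    -- conclusion : 2 ∣ g (1 - σ')... then 2 ∣ η
    have h7 : (2 : Cub ℤ) ∣ g * eta := by
      -- g σ' = θ A s k' - 2v,  s k' = η g + 2u, A = 1 + 2 a1
      refine ⟨g * s1 + v - th * A * u + g * a1 + g, ?_⟩
      rw [eta_eq] at hu hth ⊢
      linear_combination g * hs1 + hv - th * A * hu + g * ha1 - g * A * hth
    exact odd_mul hg odd_eta h7
  · obtain ⟨k', hk', h3, hg⟩ := extract_pow f (by omega) hWodd hgk h1
    have h4 : (4 : Cub ℤ) ∣ (e : Cub ℤ) * mm * (g * σ') ^ 2 - (th * A * k') ^ 2 := ⟨w * k' ^ 2, by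
      rw [← h3, hw]; ring⟩
    obtain ⟨r, hr⟩ := unit_mm_sq_mod4 e (odd_mul hg hσodd) h4
    have hei : ((e⁻¹ : (Cub ℤ)ˣ) : Cub ℤ) = - ((r⁻¹ : (Cub ℤ)ˣ) : Cub ℤ) ^ 2 := by
      rw [hr, inv_neg, ← inv_pow]; push_cast; rfl
    have he : (e : Cub ℤ) = - (r : Cub ℤ) ^ 2 := by rw [hr]; push_cast; rfl
    rw [hei, he] at h2
    have hrr : 0 < re (r : Cub ℤ) ^ 2 := by
      have := re_unit_ne r; positivity
    have hrr' : 0 < re ((r⁻¹ : (Cub ℤ)ˣ) : Cub ℤ) ^ 2 := by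
      have := re_unit_ne r⁻¹; positivity
    have := real_neg (d := -(r : Cub ℤ) ^ 2 * mm)
      (d' := -((r⁻¹ : (Cub ℤ)ˣ) : Cub ℤ) ^ 2 * eta) (N := n) (G := g) (H := k)
      (by
        rw [map_mul, map_neg, map_pow, re_mm]
        have : 0 < re (r : Cub ℤ) ^ 2 * (4 + 3 * tt ^ 2) := by positivity
        linarith)
      (by
        rw [map_mul, map_neg, map_pow, re_eta]
        have : 0 < re ((r⁻¹ : (Cub ℤ)ˣ) : Cub ℤ) ^ 2 * (1 + tt ^ 2) := by positivity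
        linarith) h2
    exact hg0 this.1

/-- `τ = A + 2 σ` with `σ` even. -/
lemma key_half {f : ℕ} (hf : 2 ≤ f) {y y' A ta σ : Cub ℤ}
    (hy : y = 2 ^ (f + 2) * y') (hy' : (2 : Cub ℤ) ∣ y' - 1) (hA : (2 : Cub ℤ) ∣ A - 1)
    (hta : ta = A + 2 * σ) (hσ : (2 : Cub ℤ) ∣ σ)
    (h : y ^ 2 + th * y * A ^ 2 + eta * A ^ 4 = eta * ta ^ 4) : False := by
  have h1odd : ¬ (2 : Cub ℤ) ∣ 1 := fun h7 => prime_two.not_isUnit (isUnit_of_dvd_one h7)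
  have hAodd : ¬ (2 : Cub ℤ) ∣ A := by
    intro h'
    apply h1odd
    have : (1 : Cub ℤ) = A - (A - 1) := by ring
    rw [this]; exact dvd_sub h' hA
  obtain ⟨f', hf'⟩ : ∃ f', f = f' + 2 := ⟨f - 2, by omega⟩
  -- the odd cofactors
  have hA1 : ¬ (2 : Cub ℤ) ∣ A + σ := by
    intro h'
    apply hAodd
    have : A = (A + σ) - σ := by ring
    rw [this]; exact dvd_sub h' hσ
  have hA2 : ¬ (2 : Cub ℤ) ∣ A ^ 2 + 2 * (σ * (A + σ)) := by
    intro h'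
    apply odd_pow 2 hAodd
    have : A ^ 2 = (A ^ 2 + 2 * (σ * (A + σ))) - 2 * (σ * (A + σ)) := by ring
    rw [this]; exact dvd_sub h' (dvd_mul_right 2 _)
  have h1 : y * (y + th * A ^ 2) = 8 * (eta * ((A + σ) * (A ^ 2 + 2 * (σ * (A + σ)))) * σ) := by
    rw [hta] at h
    linear_combination h
  have h2 : 2 ^ (f' + 1) * (y' * (y + th * A ^ 2))
      = eta * ((A + σ) * (A ^ 2 + 2 * (σ * (A + σ)))) * σ := by
    have : (8 : Cub ℤ) * (2 ^ (f' + 1) * (y' * (y + th * A ^ 2)))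
        = 8 * (eta * ((A + σ) * (A ^ 2 + 2 * (σ * (A + σ)))) * σ) := by
      rw [← h1]
      have e1 : y * (y + th * A ^ 2) = 2 ^ (f + 2) * y' * (y + th * A ^ 2) := by rw [← hy]
      rw [e1, hf']; ring
    exact mul_left_cancel₀ (by decide) this
  have hco : ¬ (2 : Cub ℤ) ∣ eta * ((A + σ) * (A ^ 2 + 2 * (σ * (A + σ)))) :=
    odd_mul odd_eta (odd_mul hA1 hA2)
  have h3 : (2 : Cub ℤ) ^ (f' + 1) ∣ σ := by
    apply two_pow_dvd_cancel (f' + 1) hco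
    rw [← h2]; exact dvd_mul_right _ _
  obtain ⟨σ', hσ'⟩ := h3
  have h4 : y' * (y + th * A ^ 2) = eta * ((A + σ) * (A ^ 2 + 2 * (σ * (A + σ)))) * σ' := by
    have : (2 : Cub ℤ) ^ (f' + 1) * (y' * (y + th * A ^ 2))
        = 2 ^ (f' + 1) * (eta * ((A + σ) * (A ^ 2 + 2 * (σ * (A + σ)))) * σ') := by
      rw [h2]
      have e1 : (2 : Cub ℤ) ^ (f' + 1) * (eta * ((A + σ) * (A ^ 2 + 2 * (σ * (A + σ)))) * σ')
        = eta * ((A + σ) * (A ^ 2 + 2 * (σ * (A + σ)))) * (2 ^ (f' + 1) * σ') := by ring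
      rw [e1, ← hσ']
    exact mul_left_cancel₀ (pow_ne_zero _ prime_two.ne_zero) this
  apply key_core hf (y := y) (A := A) (ta := ta) (σ' := σ') _ hA _ _ h
  · rw [hy, hf']; exact ⟨2 ^ (f' + 2) * y', by ring⟩
  · rw [hta, hσ', hf']; ring
  · -- reduce h4 mod 2
    obtain ⟨y1, hy1⟩ := hy'
    obtain ⟨a1, ha1⟩ := hA
    obtain ⟨s1, hs1⟩ := hσ
    have hth : (th : Cub ℤ) * eta = -1 := th_mul_eta
    have hy2 : y = 2 * (2 ^ (f' + 3) * y') := by rw [hy, hf']; ring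
    set Y := (2 : Cub ℤ) ^ (f' + 3) * y' with hYdef
    -- θ ≡ η σ'
    have h5 : (2 : Cub ℤ) ∣ eta * σ' - th := by
      have hA' : A = 1 + 2 * a1 := by linear_combination ha1
      have hy'' : y' = 1 + 2 * y1 := by linear_combination hy1
      rw [hy2, hA', hy'', hs1] at h4
      refine ⟨(1 + 2 * y1) * Y + th * (y1 * (1 + 2 * a1) ^ 2 + 2 * a1 + 2 * a1 ^ 2)
        - eta * σ' * ((a1 + s1) * ((1 + 2 * a1) ^ 2
            + 2 * (2 * s1 * ((1 + 2 * a1) + 2 * s1)))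
            + 2 * a1 + 2 * a1 ^ 2 + 2 * s1 * ((1 + 2 * a1) + 2 * s1)), ?_⟩
      linear_combination -h4
    obtain ⟨z, hz⟩ := h5
    refine ⟨-(th * z) , ?_⟩
    linear_combination (-th) * hz + σ' * hth

lemma key_mid {f : ℕ} (hf2 : 2 ≤ f) {y c A ta : Cub ℤ} (hyC : y = 2 ^ (f + 2) * c)
    (hcC : (2 : Cub ℤ) ∣ c - 1) (hAC : (2 : Cub ℤ) ∣ A - 1)
    (h : y ^ 2 + th * y * A ^ 2 + eta * A ^ 4 = eta * ta ^ 4) : False := by
  obtain ⟨f', hf'⟩ : ∃ f', f = f' + 2 := ⟨f - 2, by omega⟩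
  -- τ ≡ A mod 2
  have hprod : y * (y + th * A ^ 2) = eta * (ta ^ 4 - A ^ 4) := by linear_combination h
  have hprod' : y * (y + th * A ^ 2) = 2 ^ (f + 2) * (c * (y + th * A ^ 2)) := by
    calc y * (y + th * A ^ 2) = (2 ^ (f + 2) * c) * (y + th * A ^ 2) := by rw [← hyC]
      _ = _ := by ring
  have h1 : (2 : Cub ℤ) ∣ ta - A := by
    have h2 : (2 : Cub ℤ) ∣ eta * (ta ^ 4 - A ^ 4) := by
      rw [← hprod, hprod']
      exact Dvd.dvd.mul_right (dvd_pow_self 2 (by omega)) _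
    have h3 := even_cancel odd_eta h2
    have h4 : (2 : Cub ℤ) ∣ ta ^ 2 - A ^ 2 := by
      apply even_sub_of_sq
      convert h3 using 1; ring
    exact even_sub_of_sq h4
  obtain ⟨σ, hσ⟩ := h1
  have hta : ta = A + 2 * σ := by linear_combination hσ
  by_cases hev : (2 : Cub ℤ) ∣ σ
  · exact key_half hf2 hyC hcC hAC hta hev h
  · -- replace `τ` by `-τ`
    have hev2 : (2 : Cub ℤ) ∣ -A - σ := by
      have h1 : y * (y + th * A ^ 2)
          = 8 * (eta * ((A ^ 2 + 2 * (σ * (A + σ)))) * (σ * (A + σ))) := by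
        rw [hta] at h
        linear_combination h
      have h2 : (2 : Cub ℤ) ∣ (eta * (A ^ 2 + 2 * (σ * (A + σ)))) * (σ * (A + σ)) := by
        refine ⟨2 ^ f' * (c * (y + th * A ^ 2)), ?_⟩
        have : (8 : Cub ℤ) * (eta * ((A ^ 2 + 2 * (σ * (A + σ)))) * (σ * (A + σ)))
            = 8 * (2 * (2 ^ f' * (c * (y + th * A ^ 2)))) := by
          rw [← h1, hprod', hf']; ring
        exact mul_left_cancel₀ (by decide) this
      have hA2 : ¬ (2 : Cub ℤ) ∣ eta * (A ^ 2 + 2 * (σ * (A + σ))) := by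
        apply odd_mul odd_eta
        intro h'
        have h1odd : ¬ (2 : Cub ℤ) ∣ 1 := fun h7 => prime_two.not_isUnit (isUnit_of_dvd_one h7)
        obtain ⟨k, hk⟩ := hAC
        obtain ⟨l, hl⟩ := h'
        apply h1odd
        refine ⟨l - σ * (A + σ) - k * (A + 1), ?_⟩
        linear_combination hl - (A + 1) * hk
      have h3 := even_cancel hA2 h2
      have h4 := even_cancel hev h3
      have : -A - σ = -(A + σ) := by ring
      rw [this]; exact (dvd_neg).2 h4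
    have hta2 : -ta = A + 2 * (-A - σ) := by rw [hta]; ring
    refine key_half hf2 hyC hcC hAC hta2 hev2 ?_
    rw [h]; ring

/-- **Key theorem**: `y² + θ y A² + η A⁴ = η τ⁴` with `A` odd and `16 ∣ y` forces `y = 0`. -/
theorem key (y A : ℤ) (ta : Cub ℤ) (hA : ¬ (2 : ℤ) ∣ A) (hy : (16 : ℤ) ∣ y)
    (h : (y : Cub ℤ) ^ 2 + th * (y : Cub ℤ) * (A : Cub ℤ) ^ 2 + eta * (A : Cub ℤ) ^ 4
      = eta * ta ^ 4) : y = 0 := by
  by_contra hy0
  obtain ⟨c, hc, hcodd⟩ := (Int.finiteMultiplicity_iff.2 ⟨by norm_num, hy0⟩ :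
    FiniteMultiplicity (2 : ℤ) y).exists_eq_pow_mul_and_not_dvd
  generalize multiplicity (2 : ℤ) y = n at hc
  have hn4 : 4 ≤ n := by
    by_contra hlt
    push Not at hlt
    apply hcodd
    have h1 : (2 : ℤ) ^ (n + 1) ∣ y := by
      refine dvd_trans ?_ hy
      have : (16 : ℤ) = 2 ^ 4 := by norm_num
      rw [this]; exact pow_dvd_pow 2 (by omega)
    rw [hc, pow_succ] at h1
    exact (mul_dvd_mul_iff_left (pow_ne_zero n (by norm_num))).1 h1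
  obtain ⟨f, hf⟩ : ∃ f, n = f + 2 := ⟨n - 2, by omega⟩
  have hf2 : 2 ≤ f := by omega
  have hyC : (y : Cub ℤ) = 2 ^ (f + 2) * (c : Cub ℤ) := by
    rw [hc, hf]; push_cast; ring
  have hcC : (2 : Cub ℤ) ∣ (c : Cub ℤ) - 1 := by
    obtain ⟨k, hk⟩ : (2 : ℤ) ∣ c - 1 := by omega
    refine ⟨(k : Cub ℤ), ?_⟩
    have := congrArg (fun z : ℤ => (z : Cub ℤ)) hk
    push_cast at this
    exact this
  have hAC : (2 : Cub ℤ) ∣ (A : Cub ℤ) - 1 := by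
    obtain ⟨k, hk⟩ : (2 : ℤ) ∣ A - 1 := by omega
    refine ⟨(k : Cub ℤ), ?_⟩
    have := congrArg (fun z : ℤ => (z : Cub ℤ)) hk
    push_cast at this
    exact this
  exact key_mid hf2 hyC hcC hAC h

end Cub

end Pool.Agent.H27
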