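import Pool.Agent.H27.Arith

set_option autoImplicit false

namespace Pool.Agent.H27

namespace Cub

/-- small element of `Cub (ZMod 8)` -/
def sm (i j k : ℕ) : Cub (ZMod 8) := ⟨(i : ZMod 8), (j : ZMod 8), (k : ZMod 8)⟩

lemma chkA : ∀ i j k : Fin 2, ∀ a b c : Fin 4, (i.val = 0 ∧ j.val = 0 ∧ k.val = 0) ∨
    sm a b c ^ 2 + th * sm i j k ^ 4 - r8 (eta ^ 2 * mm) ≠ 0 := by decide

lemma rep (n : ℕ) (hn : 0 < n) (x : Cub ℤ) : ∃ i j k : Fin n, ∃ y : Cub ℤ,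
    x = (⟨(i.val : ℤ), (j.val : ℤ), (k.val : ℤ)⟩ : Cub ℤ) + (n : Cub ℤ) * y := by
  have h0 : (n : ℤ) ≠ 0 := by exact_mod_cast hn.ne'
  have hlt : ∀ z : ℤ, (z % n).toNat < n := by
    intro z
    have h1 := Int.emod_lt_of_pos z (by exact_mod_cast hn : (0 : ℤ) < n)
    have h2 := Int.emod_nonneg z h0
    omega
  refine ⟨⟨_, hlt x.a⟩, ⟨_, hlt x.b⟩, ⟨_, hlt x.c⟩, ⟨x.a / n, x.b / n, x.c / n⟩, ?_⟩
  have e : ∀ z : ℤ, (((z % n).toNat : ℕ) : ℤ) = z % n := fun z =>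
    Int.toNat_of_nonneg (Int.emod_nonneg z h0)
  ext <;> simp only [e, add_a, add_b, add_c, mul_a, mul_b, mul_c, natCast_a, natCast_b, natCast_c,
    zero_mul, add_zero, sub_zero]
  · rw [Int.emod_add_mul_ediv]
  · rw [Int.emod_add_mul_ediv]
  · rw [Int.emod_add_mul_ediv]

lemma r8_mk (i j k : ℕ) : r8 (⟨(i : ℤ), (j : ℤ), (k : ℤ)⟩ : Cub ℤ) = sm i j k := by
  ext <;> simp [r8, sm]

/-- fourth powers mod 8 only depend on the residue mod 2 -/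
lemma fourth_mod8 (g y : Cub ℤ) : r8 ((g + 2 * y) ^ 4) = (r8 g) ^ 4 := by
  rw [← map_pow, ← sub_eq_zero, ← map_sub, r8_eq_zero_iff]
  exact ⟨g ^ 3 * y + 3 * g ^ 2 * y ^ 2 + 4 * g * y ^ 3 + 2 * y ^ 4, by ring⟩

/-- squares mod 8 only depend on the residue mod 4 -/
lemma sq_mod8 (g y : Cub ℤ) : r8 ((g + 4 * y) ^ 2) = (r8 g) ^ 2 := by
  rw [← map_pow, ← sub_eq_zero, ← map_sub, r8_eq_zero_iff]
  exact ⟨g * y + 2 * y ^ 2, by ring⟩

/-- twice a square mod 8 only depends on the residue mod 2 -/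
lemma two_sq_mod8 (g y : Cub ℤ) : r8 (2 * (g + 2 * y) ^ 2) = 2 * (r8 g) ^ 2 := by
  have : (2 : Cub (ZMod 8)) * (r8 g) ^ 2 = r8 (2 * g ^ 2) := by
    rw [map_mul, map_pow, map_ofNat]
  rw [this, ← sub_eq_zero, ← map_sub, r8_eq_zero_iff]
  exact ⟨g * y + y ^ 2, by ring⟩

lemma mk_zero_dvd (y : Cub ℤ) :
    (2 : Cub ℤ) ∣ (⟨((0 : ℕ) : ℤ), ((0 : ℕ) : ℤ), ((0 : ℕ) : ℤ)⟩ : Cub ℤ) + ((2 : ℕ) : Cub ℤ) * y :=
  ⟨y, by ext <;> simp⟩

lemma obsA {n c : Cub ℤ} (hc : ¬ (2 : Cub ℤ) ∣ c)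
    (h : (8 : Cub ℤ) ∣ n ^ 2 + th * c ^ 4 - eta ^ 2 * mm) : False := by
  obtain ⟨i, j, k, y, hy⟩ := rep 2 (by norm_num) c
  obtain ⟨i', j', k', y', hy'⟩ := rep 4 (by norm_num) n
  have h1 := (r8_eq_zero_iff _).2 h
  rw [map_sub, map_add, map_mul] at h1
  rcases chkA i j k i' j' k' with h2 | h2
  · obtain ⟨ha, hb, hcc⟩ := h2
    apply hc
    rw [hy, ha, hb, hcc]
    exact mk_zero_dvd y
  · apply h2
    rw [← h1, hy, hy']
    push_cast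
    rw [fourth_mod8, sq_mod8, r8_mk, r8_mk]
    congr 1

lemma chkX : ∀ i j k i' j' k' x y z : Fin 2, (i.val = 0 ∧ j.val = 0 ∧ k.val = 0) ∨
    (i'.val = 0 ∧ j'.val = 0 ∧ k'.val = 0) ∨
    (2 * sm x y z ^ 2 - sm i j k ^ 4 + r8 DD * sm i' j' k' ^ 4 ≠ 0 ∧
     - (2 * sm x y z ^ 2) - sm i j k ^ 4 + r8 DD * sm i' j' k' ^ 4 ≠ 0 ∧
     th * (2 * sm x y z ^ 2) - th ^ 2 * sm i j k ^ 4 + r8 DD * sm i' j' k' ^ 4 ≠ 0 ∧
     - (th * (2 * sm x y z ^ 2)) - th ^ 2 * sm i j k ^ 4 + r8 DD * sm i' j' k' ^ 4 ≠ 0) := by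
  decide

lemma obsX0 {G a b : Cub ℤ} (ha : ¬ (2 : Cub ℤ) ∣ a) (hb : ¬ (2 : Cub ℤ) ∣ b) :
    (¬ (2 * G ^ 2 - a ^ 4 + DD * b ^ 4 = 0)) ∧
    (¬ (- (2 * G ^ 2) - a ^ 4 + DD * b ^ 4 = 0)) ∧
    (¬ (th * (2 * G ^ 2) - th ^ 2 * a ^ 4 + DD * b ^ 4 = 0)) ∧
    (¬ (- (th * (2 * G ^ 2)) - th ^ 2 * a ^ 4 + DD * b ^ 4 = 0)) := by
  obtain ⟨i, j, k, y, hy⟩ := rep 2 (by norm_num) a
  obtain ⟨i', j', k', y', hy'⟩ := rep 2 (by norm_num) b
  obtain ⟨i'', j'', k'', y'', hy''⟩ := rep 2 (by norm_num) G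
  have e1 : r8 (a ^ 4) = sm i j k ^ 4 := by
    rw [hy]; push_cast; rw [fourth_mod8, r8_mk]
  have e2 : r8 (b ^ 4) = sm i' j' k' ^ 4 := by
    rw [hy']; push_cast; rw [fourth_mod8, r8_mk]
  have e3 : r8 (2 * G ^ 2) = 2 * sm i'' j'' k'' ^ 2 := by
    rw [hy'']; push_cast; rw [two_sq_mod8, r8_mk]
  have eth : r8 th = th := by decide
  rcases chkX i j k i' j' k' i'' j'' k'' with h | h | h
  · exfalso
    apply ha
    rw [hy, h.1, h.2.1, h.2.2]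
    exact mk_zero_dvd y
  · exfalso
    apply hb
    rw [hy', h.1, h.2.1, h.2.2]
    exact mk_zero_dvd y'
  · obtain ⟨h1, h2, h3, h4⟩ := h
    refine ⟨?_, ?_, ?_, ?_⟩
    · intro h5
      apply h1
      have := congrArg r8 h5
      rw [map_zero, map_add, map_sub, map_mul _ DD, e1, e2, e3] at this
      exact this
    · intro h5
      apply h2
      have := congrArg r8 h5
      rw [map_zero, map_add, map_sub, map_neg, map_mul _ DD, e1, e2, e3] at this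
      exact this
    · intro h5
      apply h3
      have := congrArg r8 h5
      rw [map_zero, map_add, map_sub, map_mul _ th, map_mul _ (th ^ 2), map_pow _ th, map_mul _ DD,
        e1, e2, e3, eth] at this
      exact this
    · intro h5
      apply h4
      have := congrArg r8 h5
      rw [map_zero, map_add, map_sub, map_neg, map_mul _ th, map_mul _ (th ^ 2), map_pow _ th,
        map_mul _ DD, e1, e2, e3, eth] at this
      exact this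

/-- `2 e G² = e² a⁴ - D b⁴` has no solution with `a`, `b` odd and `e` a unit. -/
lemma obsX (e : (Cub ℤ)ˣ) {G a b : Cub ℤ} (ha : ¬ (2 : Cub ℤ) ∣ a) (hb : ¬ (2 : Cub ℤ) ∣ b)
    (h : 2 * (e : Cub ℤ) * G ^ 2 = (e : Cub ℤ) ^ 2 * a ^ 4 - DD * b ^ 4) : False := by
  obtain ⟨r, hr⟩ := unit_class e
  have ha' : ¬ (2 : Cub ℤ) ∣ (r : Cub ℤ) * a := by rwa [unit_dvd_two]
  obtain ⟨h1, h2, h3, h4⟩ := obsX0 (G := (r : Cub ℤ) * G) ha' hb
  rcases hr with hr | hr | hr | hr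
  · apply h1
    rw [hr] at h; push_cast at h
    linear_combination h
  · apply h2
    rw [hr] at h; push_cast at h
    linear_combination h
  · apply h3
    rw [hr] at h; push_cast at h; rw [thU_val] at h
    linear_combination h
  · apply h4
    rw [hr] at h; push_cast at h; rw [thU_val] at h
    linear_combination h

end Cub

end Pool.Agent.H27
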