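import Pool.Agent.H27.Key

set_option autoImplicit false

namespace Pool.Agent.H27

namespace Cub

/-- `3θ²+1`, the ramified prime above `31`. -/
def pq : Cub ℤ := ⟨1, 0, 3⟩

/-- reduction modulo `3θ²+1` -/
def ev14 : Cub ℤ →+* ZMod 31 := ev (Int.castRingHom (ZMod 31)) 14 (by decide)

lemma ev14_apply (x : Cub ℤ) : ev14 x = ((x.a + 14 * x.b + 196 * x.c : ℤ) : ZMod 31) := by
  simp only [ev14, ev_apply, eq_intCast]
  push_cast
  have : (14 : ZMod 31) ^ 2 = 196 := by decide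
  rw [this]; ring

lemma pq_dvd_iff (x : Cub ℤ) : pq ∣ x ↔ ev14 x = 0 := by
  constructor
  · rintro ⟨y, rfl⟩
    rw [map_mul]
    have : ev14 pq = 0 := by decide
    rw [this, zero_mul]
  · intro h
    rw [ev14_apply] at h
    obtain ⟨k, hk⟩ := (ZMod.intCast_zmod_eq_zero_iff_dvd _ 31).1 h
    refine ⟨adj pq * (k : Cub ℤ) + (x.b : Cub ℤ) * ⟨-2, 4, -3⟩
      + (x.c : Cub ℤ) * ⟨-25, 57, -38⟩, ?_⟩
    have ha : x.a = 31 * k - 14 * x.b - 196 * x.c := by push_cast at hk; linarith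
    ext <;> simp [adj, pq, ha] <;> ring

lemma prime_pq : Prime pq := by
  refine ⟨by decide, ?_, ?_⟩
  · intro h
    obtain ⟨u, hu⟩ := h
    have := norm_unit u
    rw [hu] at this
    revert this
    decide
  · intro x y h
    rw [pq_dvd_iff, map_mul] at h
    have : Fact (Nat.Prime 31) := ⟨by norm_num⟩
    rcases mul_eq_zero.1 h with h | h
    · exact Or.inl ((pq_dvd_iff x).2 h)
    · exact Or.inr ((pq_dvd_iff y).2 h)

lemma norm_lin (X Y : ℤ) : norm ((Y : Cub ℤ) - th * (X : Cub ℤ)) = Y ^ 3 + Y * X ^ 2 + X ^ 3 := by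
  simp [norm]; ring

lemma lin_mul (X Y : Cub ℤ) :
    (Y - th * (X : Cub ℤ)) * (Y ^ 2 + th * (Y : Cub ℤ) * (X : Cub ℤ) + eta * X ^ 2) = Y ^ 3 + Y * X ^ 2 + X ^ 3 := by
  have h : (th : Cub ℤ) ^ 3 + th + 1 = 0 := th_rel
  rw [eta_eq]
  linear_combination (-X ^ 3) * h

lemma isCoprime_cast {X Y : ℤ} (h : IsCoprime X Y) : IsCoprime (X : Cub ℤ) (Y : Cub ℤ) :=
  h.map (Int.castRingHom (Cub ℤ))

lemma cop_lin {X Y b : ℤ} (hXY : IsCoprime X Y) (h : Y ^ 3 + Y * X ^ 2 + X ^ 3 = b ^ 4) :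
    IsCoprime ((Y : Cub ℤ) - th * (X : Cub ℤ)) ((Y : Cub ℤ) ^ 2 + th * (Y : Cub ℤ) * (X : Cub ℤ) + eta * (X : Cub ℤ) ^ 2) := by
  have hc := isCoprime_cast hXY
  apply isCoprime_of_prime_dvd
  · rintro ⟨h1, h2⟩
    have hX : X = 0 := by have := congrArg Cub.b h1; simpa using this
    have hY : Y = 0 := by have := congrArg Cub.a h1; simpa using this
    rw [hX, hY] at hXY
    obtain ⟨a, b, hab⟩ := hXY
    simp at hab
  · intro z hz h1 h2
    have hzX : ¬ z ∣ (X : Cub ℤ) := by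
      intro h3
      have h4 : z ∣ (Y : Cub ℤ) := by
        have : (Y : Cub ℤ) = ((Y : Cub ℤ) - th * (X : Cub ℤ)) + th * (X : Cub ℤ) := by ring
        rw [this]; exact dvd_add h1 (Dvd.dvd.mul_left h3 _)
      exact hz.not_isUnit (hc.isUnit_of_dvd' h3 h4)
    have h3 : z ∣ pq * (X : Cub ℤ) ^ 2 := by
      have e1 : pq * (X : Cub ℤ) ^ 2 = ((Y : Cub ℤ) ^ 2 + th * (Y : Cub ℤ) * (X : Cub ℤ) + eta * (X : Cub ℤ) ^ 2)
          - ((Y : Cub ℤ) - th * (X : Cub ℤ)) * ((Y : Cub ℤ) + 2 * th * (X : Cub ℤ)) := by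
        have e2 : pq = 3 * (th : Cub ℤ) ^ 2 + 1 := by decide
        rw [e2, eta_eq]; ring
      rw [e1]; exact dvd_sub h2 (Dvd.dvd.mul_right h1 _)
    have h4 : z ∣ pq := (hz.dvd_or_dvd h3).resolve_right (fun h' => hzX (hz.dvd_of_dvd_pow h'))
    have h5 : pq ∣ (Y : Cub ℤ) - th * (X : Cub ℤ) :=
      (hz.associated_of_dvd prime_pq h4).symm.dvd.trans h1
    have h6 := (pq_dvd_iff _).1 h5
    rw [ev14_apply] at h6
    simp only [sub_a, intCast_a, mul_a, th_a, th_b, th_c, intCast_b, intCast_c, sub_b, mul_b,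
      sub_c, mul_c, Int.cast_id] at h6
    have h7 : (31 : ℤ) ∣ Y - 14 * X := by
      have := (ZMod.intCast_zmod_eq_zero_iff_dvd _ 31).1 h6
      push_cast at this
      convert this using 1; ring
    obtain ⟨t, ht⟩ := h7
    have hY : Y = 14 * X + 31 * t := by linarith
    rw [hY] at h
    have h8 : (31 : ℤ) ∣ b ^ 4 := ⟨89 * X ^ 3 + 589 * t * X ^ 2 + 42 * 31 * t ^ 2 * X + 31 ^ 2 * t ^ 3,
      by rw [← h]; ring⟩
    have hp31 : Prime (31 : ℤ) := by norm_num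
    obtain ⟨b', hb'⟩ := hp31.dvd_of_dvd_pow h8
    have h9 : (31 : ℤ) ∣ 89 * X ^ 3 := by
      refine ⟨31 ^ 2 * b' ^ 4 - 19 * t * X ^ 2 - 42 * t ^ 2 * X - 31 * t ^ 3, ?_⟩
      rw [hb'] at h
      nlinarith [h]
    have h10 : (31 : ℤ) ∣ X := by
      rcases hp31.dvd_or_dvd h9 with h' | h'
      · norm_num at h'
      · exact hp31.dvd_of_dvd_pow h'
    have h11 : (31 : ℤ) ∣ Y := by
      rw [hY]; exact dvd_add (Dvd.dvd.mul_left h10 _) (dvd_mul_right _ _)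
    have := hXY.isUnit_of_dvd' h10 h11
    exact hp31.not_isUnit this

lemma unit_norm_one (e : (Cub ℤ)ˣ) (hn : norm (e : Cub ℤ) = 1) :
    (∃ r : (Cub ℤ)ˣ, e = r ^ 2) ∨ (∃ r : (Cub ℤ)ˣ, e = -(thU * r ^ 2)) := by
  obtain ⟨r, hr | hr | hr | hr⟩ := unit_class e
  · exact Or.inl ⟨r, hr⟩
  · exfalso
    have hr2 := norm_unit r
    have : norm (e : Cub ℤ) = - norm (r : Cub ℤ) ^ 2 := by
      rw [hr]; push_cast
      have e1 : -(r : Cub ℤ) ^ 2 = (-1) * (r : Cub ℤ) * (r : Cub ℤ) := by ring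
      have e2 : norm (-1 : Cub ℤ) = -1 := by decide
      rw [e1, norm_mul, norm_mul, e2]; ring
    rcases hr2 with h | h <;> rw [h] at this <;> omega
  · exfalso
    have hr2 := norm_unit r
    have : norm (e : Cub ℤ) = - norm (r : Cub ℤ) ^ 2 := by
      rw [hr]; push_cast; rw [thU_val]
      have e1 : (th : Cub ℤ) * (r : Cub ℤ) ^ 2 = th * (r : Cub ℤ) * (r : Cub ℤ) := by ring
      have e2 : norm (th : Cub ℤ) = -1 := by decide
      rw [e1, norm_mul, norm_mul, e2]; ring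
    rcases hr2 with h | h <;> rw [h] at this <;> omega
  · exact Or.inr ⟨r, hr⟩

/-- The classes for `Y - θ X`. -/
lemma lin_classes {X Y b : ℤ} (hXY : IsCoprime X Y) (hb : b ≠ 0)
    (h : Y ^ 3 + Y * X ^ 2 + X ^ 3 = b ^ 4) :
    (∃ γ : Cub ℤ, (Y : Cub ℤ) - th * (X : Cub ℤ) = γ ^ 2) ∨
    (∃ β τ : Cub ℤ, (Y : Cub ℤ) - th * (X : Cub ℤ) = -th * β ^ 4 ∧
      (Y : Cub ℤ) ^ 2 + th * (Y : Cub ℤ) * (X : Cub ℤ) + eta * (X : Cub ℤ) ^ 2 = eta * τ ^ 4) ∨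
    (∃ β : Cub ℤ, (Y : Cub ℤ) - th * (X : Cub ℤ) = -th ^ 3 * β ^ 4) := by
  have hcop := cop_lin hXY h
  have hprod : ((Y : Cub ℤ) - th * (X : Cub ℤ)) * ((Y : Cub ℤ) ^ 2 + th * (Y : Cub ℤ) * (X : Cub ℤ) + eta * (X : Cub ℤ) ^ 2)
      = (b : Cub ℤ) ^ 4 := by
    rw [lin_mul]
    have := congrArg (fun z : ℤ => (z : Cub ℤ)) h
    push_cast at this
    exact this
  have hb0 : (b : Cub ℤ) ≠ 0 := by
    intro h0; apply hb; have := congrArg Cub.a h0; simpa using this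
  obtain ⟨e, M, Z, hMZ, h1, h2⟩ := fac4 hb0 hcop hprod
  have hnorm : norm (e : Cub ℤ) = 1 := by
    have h3 := norm_lin X Y
    rw [h1, norm_mul, h] at h3
    have h4 : norm (M ^ 4) = norm M ^ 4 := by
      have : M ^ 4 = M * M * (M * M) := by ring
      rw [this, norm_mul, norm_mul]; ring
    rw [h4] at h3
    rcases norm_unit e with h5 | h5
    · exact h5
    · exfalso
      rw [h5] at h3
      have h6 : 0 < b ^ 4 := by positivity
      nlinarith [sq_nonneg (norm M ^ 2)]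
  rcases unit_norm_one e hnorm with ⟨r, hr⟩ | ⟨r, hr⟩
  · left
    refine ⟨(r : Cub ℤ) * M ^ 2, ?_⟩
    rw [h1, hr]; push_cast; ring
  · right
    obtain ⟨q, hq | hq | hq | hq⟩ := unit_class r
    · left
      have hr2 : e = -(thU * q ^ 4) := by rw [hr, hq]; apply Units.ext; push_cast; ring
      refine ⟨(q : Cub ℤ) * M, ((q⁻¹ : (Cub ℤ)ˣ) : Cub ℤ) * Z, ?_, ?_⟩
      · rw [h1, hr2]; push_cast; rw [thU_val]; ring
      · rw [h2, hr2]
        have : ((-(thU * q ^ 4))⁻¹ : (Cub ℤ)ˣ) = etaU * (q⁻¹) ^ 4 := by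
          rw [inv_eq_iff_mul_eq_one]
          apply Units.ext
          push_cast
          rw [thU_val, etaU_val]
          have hqi : (q : Cub ℤ) * ((q⁻¹ : (Cub ℤ)ˣ) : Cub ℤ) = 1 := Units.mul_inv q
          have hth : (th : Cub ℤ) * eta = -1 := th_mul_eta
          calc -(th * (q : Cub ℤ) ^ 4) * (eta * ((q⁻¹ : (Cub ℤ)ˣ) : Cub ℤ) ^ 4)
              = -(th * eta) * ((q : Cub ℤ) * ((q⁻¹ : (Cub ℤ)ˣ) : Cub ℤ)) ^ 4 := by ring
            _ = 1 := by rw [hqi, hth]; ring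
        rw [this]; push_cast; rw [etaU_val]; ring
    · left
      have hr2 : e = -(thU * q ^ 4) := by rw [hr, hq]; apply Units.ext; push_cast; ring
      refine ⟨(q : Cub ℤ) * M, ((q⁻¹ : (Cub ℤ)ˣ) : Cub ℤ) * Z, ?_, ?_⟩
      · rw [h1, hr2]; push_cast; rw [thU_val]; ring
      · rw [h2, hr2]
        have : ((-(thU * q ^ 4))⁻¹ : (Cub ℤ)ˣ) = etaU * (q⁻¹) ^ 4 := by
          rw [inv_eq_iff_mul_eq_one]
          apply Units.ext
          push_cast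
          rw [thU_val, etaU_val]
          have hqi : (q : Cub ℤ) * ((q⁻¹ : (Cub ℤ)ˣ) : Cub ℤ) = 1 := Units.mul_inv q
          have hth : (th : Cub ℤ) * eta = -1 := th_mul_eta
          calc -(th * (q : Cub ℤ) ^ 4) * (eta * ((q⁻¹ : (Cub ℤ)ˣ) : Cub ℤ) ^ 4)
              = -(th * eta) * ((q : Cub ℤ) * ((q⁻¹ : (Cub ℤ)ˣ) : Cub ℤ)) ^ 4 := by ring
            _ = 1 := by rw [hqi, hth]; ring
        rw [this]; push_cast; rw [etaU_val]; ring
    · right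
      refine ⟨(q : Cub ℤ) * M, ?_⟩
      rw [h1, hr, hq]; push_cast; rw [thU_val]; ring
    · right
      refine ⟨(q : Cub ℤ) * M, ?_⟩
      rw [h1, hr, hq]; push_cast; rw [thU_val]; ring

/-- class `-θ³` is impossible -/
lemma mod3 : ∀ y x a b c : ZMod 3, (⟨y, 0, 0⟩ : Cub (ZMod 3)) - th * ⟨x, 0, 0⟩ ^ 4
    = -th ^ 3 * (⟨a, b, c⟩ : Cub (ZMod 3)) ^ 4 → y = 0 ∧ x = 0 := by decide

lemma not_class3 {a y : ℤ} (hay : IsCoprime a y) {β : Cub ℤ}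
    (h : (y : Cub ℤ) - th * ((a ^ 4 : ℤ) : Cub ℤ) = -th ^ 3 * β ^ 4) : False := by
  set r3 : Cub ℤ →+* Cub (ZMod 3) := map (Int.castRingHom (ZMod 3)) with hr3
  have h1 := congrArg r3 h
  push_cast at h1
  rw [map_sub, map_mul, map_pow, map_mul, map_neg, map_pow, map_pow] at h1
  have e1 : r3 (y : Cub ℤ) = ⟨(y : ZMod 3), 0, 0⟩ := by ext <;> simp [hr3]
  have e2 : r3 (a : Cub ℤ) = ⟨(a : ZMod 3), 0, 0⟩ := by ext <;> simp [hr3]
  have e3 : r3 th = th := by ext <;> simp [hr3]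
  rw [e1, e2, e3] at h1
  obtain ⟨h2, h3⟩ := mod3 _ _ (r3 β).a (r3 β).b (r3 β).c h1
  have h4 : (3 : ℤ) ∣ y := (ZMod.intCast_zmod_eq_zero_iff_dvd _ 3).1 h2
  have h5 : (3 : ℤ) ∣ a := (ZMod.intCast_zmod_eq_zero_iff_dvd _ 3).1 h3
  have := hay.isUnit_of_dvd' h5 h4
  have hp : Prime (3 : ℤ) := by norm_num
  exact hp.not_isUnit this

/-- If `Y - θ X = -θ β²` with `4 ∣ X` then `Y` is even. -/
lemma class1_even {X Y : ℤ} (hX : (4 : ℤ) ∣ X) {β : Cub ℤ}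
    (h : (Y : Cub ℤ) - th * (X : Cub ℤ) = -th * β ^ 2) : (2 : ℤ) ∣ Y := by
  by_contra hY
  have hβ : ¬ (2 : Cub ℤ) ∣ β := by
    rintro ⟨k, hk⟩
    apply hY
    rw [hk] at h
    have h1 := congrArg Cub.a h
    have h2 : (2 : Cub ℤ) ∣ (Y : Cub ℤ) - th * (X : Cub ℤ) := by
      rw [h]; exact ⟨-th * (2 * k ^ 2), by ring⟩
    have h3 : (((2 : ℤ)) : Cub ℤ) ∣ (Y : Cub ℤ) - th * (X : Cub ℤ) := by push_cast; exact h2
    have := ((intCast_dvd_iff 2 _).1 h3).1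
    simpa using this
  obtain ⟨x, hx⟩ := hX
  have hXC : (X : Cub ℤ) = 4 * (x : Cub ℤ) := by rw [hx]; push_cast; ring
  have hY4 : (4 : ℤ) ∣ Y - 1 ∨ (4 : ℤ) ∣ Y + 1 := by omega
  rcases hY4 with ⟨k, hk⟩ | ⟨k, hk⟩
  · have hYC : (Y : Cub ℤ) = 4 * (k : Cub ℤ) + 1 := by
      have : Y = 4 * k + 1 := by linarith
      rw [this]; push_cast; ring
    have h4 : (4 : Cub ℤ) ∣ (-th) * β ^ 2 - 1 ^ 2 := by
      rw [← h, hYC, hXC]; exact ⟨(k : Cub ℤ) - th * (x : Cub ℤ), by ring⟩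
    obtain ⟨z, hz⟩ := sq_mod4 hβ h4
    apply (nonsq4 z.a z.b z.c).2.2.1
    change z ^ 2 = _
    rw [hz]; decide
  · have hYC : (Y : Cub ℤ) = 4 * (k : Cub ℤ) - 1 := by
      have : Y = 4 * k - 1 := by linarith
      rw [this]; push_cast; ring
    have h4 : (4 : Cub ℤ) ∣ th * β ^ 2 - 1 ^ 2 := by
      have e1 : th * β ^ 2 = -((Y : Cub ℤ) - th * (X : Cub ℤ)) := by rw [h]; ring
      rw [e1, hYC, hXC]; exact ⟨-((k : Cub ℤ) - th * (x : Cub ℤ)), by ring⟩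
    obtain ⟨z, hz⟩ := sq_mod4 hβ h4
    apply (nonsq4 z.a z.b z.c).2.1
    change z ^ 2 = _
    rw [hz]; decide

end Cub

end Pool.Agent.H27
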