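import Pool.Agent.H27.Euclid

set_option autoImplicit false

namespace Pool.Agent.H27

namespace Cub

lemma norm_real_cast (x : Cub ℤ) : norm (⟨(x.a : ℝ), (x.b : ℝ), (x.c : ℝ)⟩ : Cub ℝ) = (norm x : ℤ) := by
  simp [norm]

lemma norm_adj (x : Cub ℤ) : norm (adj x) = norm x ^ 2 := by
  simp only [norm, adj]
  ring

lemma norm_smul_real (n a b c : ℝ) :
    norm (⟨n * a, n * b, n * c⟩ : Cub ℝ) = n ^ 3 * norm (⟨a, b, c⟩ : Cub ℝ) := by
  simp only [norm]; ring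

/-- division with remainder for the norm -/
lemma exists_quot (x y : Cub ℤ) (hy : y ≠ 0) :
    ∃ q : Cub ℤ, (norm (x - y * q)).natAbs < (norm y).natAbs := by
  have hn : norm y ≠ 0 := fun h => hy (norm_eq_zero.1 h)
  have hnR : ((norm y : ℤ) : ℝ) ≠ 0 := by exact_mod_cast hn
  set n := norm y with hn'
  obtain ⟨A, B, C, h⟩ := covering (((x * adj y).a : ℝ) / n) (((x * adj y).b : ℝ) / n)
    (((x * adj y).c : ℝ) / n)
  refine ⟨⟨A, B, C⟩, ?_⟩
  set q : Cub ℤ := ⟨A, B, C⟩ with hq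
  have hyadj : y * adj y = ⟨n, 0, 0⟩ := mul_adj y
  have e1 : (x - y * q) * adj y = x * adj y - ⟨n, 0, 0⟩ * q := by
    rw [← hyadj]; ring
  have ea : (((x - y * q) * adj y).a : ℝ) = n * (((x * adj y).a : ℝ) / n - A) := by
    rw [e1, sub_a]
    have : ((⟨n, 0, 0⟩ : Cub ℤ) * q).a = n * A := by simp [hq]
    rw [this]; push_cast; field_simp
  have eb : (((x - y * q) * adj y).b : ℝ) = n * (((x * adj y).b : ℝ) / n - B) := by
    rw [e1, sub_b]
    have : ((⟨n, 0, 0⟩ : Cub ℤ) * q).b = n * B := by simp [hq]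
    rw [this]; push_cast; field_simp
  have ec : (((x - y * q) * adj y).c : ℝ) = n * (((x * adj y).c : ℝ) / n - C) := by
    rw [e1, sub_c]
    have : ((⟨n, 0, 0⟩ : Cub ℤ) * q).c = n * C := by simp [hq]
    rw [this]; push_cast; field_simp
  have e2 : ((norm ((x - y * q) * adj y) : ℤ) : ℝ) = n ^ 3 * norm (⟨((x * adj y).a : ℝ) / n - A,
      ((x * adj y).b : ℝ) / n - B, ((x * adj y).c : ℝ) / n - C⟩ : Cub ℝ) := by
    rw [← norm_real_cast, ea, eb, ec, norm_smul_real]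
  rw [norm_mul, norm_adj, ← hn'] at e2
  push_cast at e2
  have e3 : ((norm (x - y * q) : ℤ) : ℝ) = n * norm (⟨((x * adj y).a : ℝ) / n - A,
      ((x * adj y).b : ℝ) / n - B, ((x * adj y).c : ℝ) / n - C⟩ : Cub ℝ) := by
    have : (n : ℝ) ^ 2 ≠ 0 := pow_ne_zero 2 hnR
    apply mul_right_cancel₀ this
    rw [e2]; ring
  have e4 : |((norm (x - y * q) : ℤ) : ℝ)| < |(n : ℝ)| := by
    rw [e3, abs_mul]
    have : 0 < |(n : ℝ)| := abs_pos.2 hnR
    nlinarith [abs_nonneg (norm (⟨((x * adj y).a : ℝ) / n - A,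
      ((x * adj y).b : ℝ) / n - B, ((x * adj y).c : ℝ) / n - C⟩ : Cub ℝ))]
  have e5 : |norm (x - y * q)| < |n| := by exact_mod_cast e4
  rw [Int.abs_eq_natAbs, Int.abs_eq_natAbs] at e5
  exact_mod_cast e5

open Classical in
@[instance_reducible]
noncomputable def euclid : EuclideanDomain (Cub ℤ) where
  quotient x y := if h : y = 0 then 0 else (exists_quot x y h).choose
  quotient_zero x := by simp
  remainder x y := if h : y = 0 then x else x - y * (exists_quot x y h).choose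
  quotient_mul_add_remainder_eq x y := by
    by_cases h : y = 0 <;> simp [h]
  r x y := (norm x).natAbs < (norm y).natAbs
  r_wellFounded := (measure fun x : Cub ℤ => (norm x).natAbs).wf
  remainder_lt x y hy := by
    simp only [hy, dite_false]
    exact (exists_quot x y hy).choose_spec
  mul_left_not_lt x y hy := by
    have h1 : norm (x * y) = norm x * norm y := norm_mul x y
    have h2 : 1 ≤ (norm y).natAbs := by
      have : norm y ≠ 0 := fun h => hy (norm_eq_zero.1 h)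
      omega
    rw [h1, Int.natAbs_mul]
    nlinarith [Nat.zero_le (norm x).natAbs]

instance : IsPrincipalIdealRing (Cub ℤ) :=
  @EuclideanDomain.to_principal_ideal_domain _ euclid

/-! ### Units -/

/-- `θ` as a unit -/
def thU : (Cub ℤ)ˣ where
  val := th
  inv := ⟨-1, 0, -1⟩
  val_inv := by ext <;> simp
  inv_val := by ext <;> simp

@[simp] lemma thU_val : ((thU : (Cub ℤ)ˣ) : Cub ℤ) = th := rfl

lemma norm_one : norm (1 : Cub ℤ) = 1 := by simp [norm]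

lemma norm_unit (u : (Cub ℤ)ˣ) : norm (u : Cub ℤ) = 1 ∨ norm (u : Cub ℤ) = -1 := by
  have h : norm (u : Cub ℤ) * norm ((u⁻¹ : (Cub ℤ)ˣ) : Cub ℤ) = 1 := by
    rw [← norm_mul, Units.mul_inv, norm_one]
  exact Int.isUnit_iff.1 (IsUnit.of_mul_eq_one _ h)

/-- the real embedding -/
noncomputable def re : Cub ℤ →+* ℝ := ev (Int.castRingHom ℝ) tt tt_rel

lemma re_apply (x : Cub ℤ) : re x = phi x.a x.b x.c := by
  simp [re, ev_apply, phi]

lemma norm_re (x : Cub ℤ) : ((norm x : ℤ) : ℝ) = re x * psi x.a x.b x.c := by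
  rw [← norm_real_cast, norm_eq_phi_psi, re_apply]

/-- a unit whose real absolute value is in `[1, 1/|θ|)` is `±1` -/
lemma unit_small (x : Cub ℤ) (hn : norm x = 1 ∨ norm x = -1) (h1 : 1 ≤ |re x|)
    (h2 : |re x| < (-tt)⁻¹) : x = 1 ∨ x = -1 := by
  have hlb := tt_lb
  have hub := tt_ub
  have ht : 0 < -tt := by linarith
  -- psi = 1 / |phi|
  have hpos := psi_nonneg (x.a : ℝ) x.b x.c
  have hprod : |re x| * psi x.a x.b x.c = 1 := by
    have h := norm_re x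
    have h' : |((norm x : ℤ) : ℝ)| = 1 := by
      rcases hn with h | h <;> simp [h]
    rw [h, abs_mul, abs_of_nonneg hpos] at h'
    exact h'
  have hinv : (-tt)⁻¹ < 1.4663 := by
    rw [inv_lt_comm₀ ht (by norm_num)]
    norm_num; linarith
  set f := |re x| with hf
  set s := psi (x.a : ℝ) x.b x.c with hs
  have hf2 : f ^ 2 + 2 * s ≤ 3.52 := by
    -- convexity: f ∈ [1, 1.4663]
    have : f * (f ^ 2 + 2 * s) = f ^ 3 + 2 := by
      have : f * (f ^ 2 + 2 * s) = f ^ 3 + 2 * (f * s) := by ring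
      rw [this, hprod]; ring
    have h3 : f ^ 3 + 2 ≤ 3.52 * f := by
      have : f < 1.4663 := lt_trans h2 hinv
      nlinarith [mul_nonneg (sub_nonneg.2 h1) (sub_nonneg.2 this.le)]
    nlinarith
  have hT : (re x) ^ 2 + 2 * s = 3 * ((x.a : ℝ) - x.c + x.c / 3) ^ 2
      + (3 * tt ^ 2 + 2) * (x.b : ℝ) ^ 2
      + (tt ^ 2 - 3 * tt + 2 / 3) * (x.c : ℝ) ^ 2 - 2 * tt * x.b * x.c := by
    rw [re_apply, hs]; simp only [phi, psi]
    linear_combination (2 * (x.b : ℝ) * x.c + tt * (x.c : ℝ) ^ 2) * tt_rel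
  have hf3 : (re x) ^ 2 + 2 * s ≤ 3.52 := by
    have : (re x) ^ 2 = f ^ 2 := by rw [hf, sq_abs]
    rw [this]; exact hf2
  rw [hT] at hf3
  have ht2 : 0.465 ≤ tt ^ 2 := by nlinarith
  have ht2' : tt ^ 2 ≤ 0.467 := by nlinarith
  -- bounds on the coordinates
  have hF : 2.7 * (x.b : ℝ) ^ 2 + 2.4 * (x.c : ℝ) ^ 2
      + 3 * ((x.a : ℝ) - x.c + x.c / 3) ^ 2 ≤ 3.52 := by
    have e1 : 0 ≤ (-tt) * ((x.b : ℝ) + x.c) ^ 2 := by positivity
    have e2 : 0 ≤ (3 * tt ^ 2 + 2 + tt - 2.7) * (x.b : ℝ) ^ 2 := by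
      apply mul_nonneg _ (sq_nonneg _); linarith
    have e3 : 0 ≤ (tt ^ 2 - 3 * tt + 2 / 3 + tt - 2.4) * (x.c : ℝ) ^ 2 := by
      apply mul_nonneg _ (sq_nonneg _); linarith
    linarith
  have hc1 : (x.c : ℝ) ^ 2 < 2 := by
    nlinarith [sq_nonneg ((x.a : ℝ) - x.c + x.c / 3), sq_nonneg (x.b : ℝ)]
  have hb1 : (x.b : ℝ) ^ 2 < 2 := by
    nlinarith [sq_nonneg ((x.a : ℝ) - x.c + x.c / 3), sq_nonneg (x.c : ℝ)]
  have ha1 : ((x.a : ℝ) - x.c + x.c / 3) ^ 2 < 1.2 := by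
    nlinarith [sq_nonneg (x.b : ℝ), sq_nonneg (x.c : ℝ)]
  have hcZ : x.c ^ 2 < 2 := by exact_mod_cast hc1
  have hbZ : x.b ^ 2 < 2 := by exact_mod_cast hb1
  have hc3 : -2 < x.c ∧ x.c < 2 := by constructor <;> nlinarith
  have hb3 : -2 < x.b ∧ x.b < 2 := by constructor <;> nlinarith
  have haZ : (3 * x.a - 2 * x.c) ^ 2 < 11 := by
    have : ((3 * (x.a : ℝ) - 2 * x.c) ^ 2 : ℝ) < 11 := by
      have e : (3 * (x.a : ℝ) - 2 * x.c) ^ 2 = 9 * ((x.a : ℝ) - x.c + x.c / 3) ^ 2 := by ring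
      rw [e]; linarith
    exact_mod_cast this
  have ha3 : -2 < x.a ∧ x.a < 2 := by
    have h5 : -4 < 3 * x.a - 2 * x.c ∧ 3 * x.a - 2 * x.c < 4 := by constructor <;> nlinarith
    constructor <;> omega
  have hinv2 : (-tt)⁻¹ = 1 + tt ^ 2 := by
    have : (1 + tt ^ 2) * (-tt) = 1 := by linear_combination (-1) * tt_rel
    exact (eq_inv_of_mul_eq_one_left this).symm
  rw [hinv2] at h2
  rw [hf, re_apply] at h1 h2
  clear_value s f
  obtain ⟨a, b, c⟩ := x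
  simp only at *
  obtain ⟨ha3, ha4⟩ := ha3
  obtain ⟨hb3, hb4⟩ := hb3
  obtain ⟨hc3, hc4⟩ := hc3
  have e1 : a = -1 ∨ a = 0 ∨ a = 1 := by omega
  have e2 : b = -1 ∨ b = 0 ∨ b = 1 := by omega
  have e3 : c = -1 ∨ c = 0 ∨ c = 1 := by omega
  simp only [norm] at hn
  simp only [phi] at h1 h2
  rcases e1 with rfl | rfl | rfl <;> rcases e2 with rfl | rfl | rfl <;>
    rcases e3 with rfl | rfl | rfl <;>
    first
    | (exfalso; norm_num at hn; done)
    | (exfalso; norm_num at hF; done)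
    | (left; rfl)
    | (right; rfl)
    | (exfalso; have h3 := abs_lt.1 h2; push_cast at h3; linarith [h3.1, h3.2])
    | (exfalso; rcases le_abs.1 h1 with h3 | h3 <;> push_cast at h3 <;> linarith)

lemma re_unit_ne (u : (Cub ℤ)ˣ) : re (u : Cub ℤ) ≠ 0 := by
  intro h
  have h1 := norm_re (u : Cub ℤ)
  rw [h, zero_mul] at h1
  rcases norm_unit u with h2 | h2 <;> rw [h2] at h1 <;> norm_num at h1

lemma re_thU_zpow (k : ℤ) : re ((thU ^ k : (Cub ℤ)ˣ) : Cub ℤ) = tt ^ k := by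
  have h1 : (re : Cub ℤ →* ℝ) ((thU ^ k : (Cub ℤ)ˣ) : Cub ℤ)
      = ((Units.map (re : Cub ℤ →* ℝ) (thU ^ k) : ℝˣ) : ℝ) := rfl
  have h2 : ((Units.map (re : Cub ℤ →* ℝ) thU : ℝˣ) : ℝ) = tt := by
    simp [re_apply, phi]
  change (re : Cub ℤ →* ℝ) ((thU ^ k : (Cub ℤ)ˣ) : Cub ℤ) = tt ^ k
  rw [h1, map_zpow, Units.val_zpow_eq_zpow_val, h2]

/-- The unit theorem: every unit is `± θ^k`. -/
theorem unit_eq (u : (Cub ℤ)ˣ) : ∃ k : ℤ, u = thU ^ k ∨ u = - thU ^ k := by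
  have hlb := tt_lb
  have hub := tt_ub
  have ht : 0 < -tt := by linarith
  have hy : 1 < (-tt)⁻¹ := by
    rw [one_lt_inv₀ ht]; linarith
  obtain ⟨k, hk1, hk2⟩ := exists_mem_Ico_zpow (abs_pos.2 (re_unit_ne u)) hy
  set v := u * thU ^ k with hv
  have hvre : |re (v : Cub ℤ)| = |re (u : Cub ℤ)| * (-tt) ^ k := by
    rw [hv, Units.val_mul, map_mul, abs_mul, re_thU_zpow, abs_zpow,
      abs_of_neg (show tt < 0 by linarith)]
  have hzp : 0 < (-tt) ^ k := zpow_pos ht k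
  have h1 : 1 ≤ |re (v : Cub ℤ)| := by
    rw [hvre]
    calc (1 : ℝ) = ((-tt)⁻¹) ^ k * (-tt) ^ k := by
          rw [← mul_zpow, inv_mul_cancel₀ ht.ne', one_zpow]
      _ ≤ _ := by gcongr
  have h2 : |re (v : Cub ℤ)| < (-tt)⁻¹ := by
    rw [hvre]
    calc |re (u : Cub ℤ)| * (-tt) ^ k < ((-tt)⁻¹) ^ (k + 1) * (-tt) ^ k := by gcongr
      _ = (-tt)⁻¹ := by
          rw [zpow_add_one₀ (by positivity), mul_assoc, mul_comm ((-tt)⁻¹) , ← mul_assoc, ← mul_zpow,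
            inv_mul_cancel₀ ht.ne', one_zpow, one_mul]
  have h3 := unit_small (v : Cub ℤ) (norm_unit v) h1 h2
  refine ⟨-k, ?_⟩
  have hu : u = v * thU ^ (-k) := by rw [hv, mul_assoc, ← zpow_add]; simp
  rcases h3 with h3 | h3
  · left
    have : v = 1 := Units.ext h3
    rw [hu, this, one_mul]
  · right
    have : v = -1 := Units.ext h3
    rw [hu, this]; simp

/-- Units modulo squares. -/
theorem unit_class (u : (Cub ℤ)ˣ) : ∃ r : (Cub ℤ)ˣ,
    u = r ^ 2 ∨ u = - r ^ 2 ∨ u = thU * r ^ 2 ∨ u = - (thU * r ^ 2) := by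
  obtain ⟨k, hk⟩ := unit_eq u
  obtain ⟨j, hj | hj⟩ := Int.even_or_odd' k
  · refine ⟨thU ^ j, ?_⟩
    have : (thU ^ j) ^ 2 = thU ^ k := by
      rw [hj, ← zpow_natCast, ← zpow_mul]; congr 1; push_cast; ring
    rw [this]
    tauto
  · refine ⟨thU ^ j, ?_⟩
    have : thU * (thU ^ j) ^ 2 = thU ^ k := by
      rw [hj, ← zpow_natCast, ← zpow_mul, ← zpow_one_add]; congr 1; push_cast; ring
    rw [this]
    tauto

end Cub

end Pool.Agent.H27
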